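import Pool.Agent.P.MP_e09449_gt.Space

/-!
The action of `(ℝ × T²) ⋊ ℤ` on `NN`.
-/

open Set Filter Topology Manifold
open scoped ContDiff

noncomputable section

namespace Pool.Agent.P.MP_e09449_gt

/-- Unit complex sequences with the multiplicative Fibonacci recurrence (a 2-torus). -/
abbrev UU : Type := {t : ℤ → ℂ // Rec t ∧ ∀ j, ‖t j‖ = 1}

lemma UU.ne (t : UU) (j : ℤ) : t.1 j ≠ 0 := by
  intro h
  have := t.2.2 j
  rw [h] at this
  simp at this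

def UU.one : UU := ⟨fun _ => 1, fun _ => by simp, fun _ => by simp⟩

def UU.mulShift (t' t : UU) (k : ℤ) : UU :=
  ⟨fun j => t'.1 (j - k) * t.1 j, fun j => by
    beta_reduce
    rw [t'.2.1 (j - k), t.2.1 j, show j - k + 1 = j + 1 - k by ring,
      show j - k + 2 = j + 2 - k by ring]
    ring, fun j => by rw [norm_mul, t'.2.2, t.2.2, one_mul]⟩

def UU.invShift (t : UU) (k : ℤ) : UU :=
  ⟨fun j => (t.1 (j + k))⁻¹, fun j => by
    beta_reduce
    rw [t.2.1 (j + k), show j + k + 1 = j + 1 + k by ring,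
      show j + k + 2 = j + 2 + k by ring, mul_inv], fun j => by rw [norm_inv, t.2.2, inv_one]⟩

/-- The action in the chart `n`. -/
def AA (n : ℤ) (r : ℝ) (t : UU) (z : EE) : EE :=
  (z.1 + mu ^ n * r, t.1 n * z.2.1, (t.1 (n + 2))⁻¹ * z.2.2)

lemma norm_AA_fst (n : ℤ) (r : ℝ) (t : UU) (z : EE) : ‖(AA n r t z).2.1‖ = ‖z.2.1‖ := by
  simp [AA, t.2.2]

lemma norm_AA_snd (n : ℤ) (r : ℝ) (t : UU) (z : EE) : ‖(AA n r t z).2.2‖ = ‖z.2.2‖ := by
  simp [AA, t.2.2]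

lemma norm_AA_mono (n : ℤ) (r : ℝ) (t : UU) (z : EE) (k : ℕ) :
    ‖(AA n r t z).2.1 ^ k * (AA n r t z).2.2‖ = ‖z.2.1 ^ k * z.2.2‖ := by
  rw [norm_mul, norm_mul, norm_pow, norm_pow, norm_AA_fst, norm_AA_snd]

lemma AA_mem_iff {n : ℤ} {r : ℝ} {t : UU} {z : EE} : AA n r t z ∈ Om ↔ z ∈ Om := by
  simp only [Om, mem_ofPred_eq, norm_AA_mono]

lemma sq_eq_zero_iff {n : ℤ} {z : ℂ × ℂ} : sq n z.1 z.2 = 0 ↔ z = 0 := by
  constructor
  · intro h
    have e1 := congrFun h n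
    have e2 := congrFun h (n + 2)
    simp only [sq_self, sq_add_two, Pi.zero_apply, inv_eq_zero] at e1 e2
    exact Prod.ext e1 e2
  · rintro rfl
    funext j
    exact sq_zero_zero n j

lemma nf_AA (n k : ℤ) (r : ℝ) (t : UU) (z : EE) : nf (n - k) (AA n r t z) =
    (mu ^ k * (mu ^ (-n) * z.1 + r), fun j => t.1 (j + k) * sq n z.2.1 z.2.2 (j + k),
      if z.2 = 0 then n - k else 0) := by
  simp only [nf, AA, Prod.mk.injEq]
  refine ⟨?_, ?_, ?_⟩
  · have e1 : mu ^ (-(n - k)) = mu ^ k * mu ^ (-n) := by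
      rw [← zpow_add₀ mu_ne]; ring_nf
    have e2 : mu ^ (-n) * mu ^ n = 1 := by rw [← zpow_add₀ mu_ne]; simp
    rw [e1, mul_add, mul_add, mul_assoc, mul_assoc, ← mul_assoc (mu ^ (-n)) (mu ^ n), e2, one_mul]
  · funext j
    rw [sq_shift, sq_mul, ← t.2.1.eq_sq t.ne n]
  · congr 1
    simp only [Prod.mk_eq_zero, mul_eq_zero, t.ne, false_or, inv_eq_zero, eq_iff_iff]
    exact ⟨fun h => Prod.ext h.1 h.2, fun h => by rw [h]; exact ⟨rfl, rfl⟩⟩

open Classical in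
/-- The action on `NN`. -/
def act (r : ℝ) (t : UU) (k : ℤ) (y : NN) : NN :=
  ⟨(mu ^ k * (y.s + r), fun j => t.1 (j + k) * y.x (j + k), if y.x = 0 then y.tag - k else 0), by
    obtain ⟨n, z, hz, rfl⟩ := exists_psi y
    refine ⟨n - k, AA n r t z, AA_mem_iff.2 hz, ?_⟩
    rw [nf_AA, psi_s hz, psi_x hz, psi_tag hz]
    by_cases h : z.2 = 0
    · rw [if_pos (sq_eq_zero_iff.2 h), if_pos h, if_pos h]
    · simp [h, sq_eq_zero_iff]⟩

lemma act_s (r : ℝ) (t : UU) (k : ℤ) (y : NN) : (act r t k y).s = mu ^ k * (y.s + r) := rfl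

lemma act_x (r : ℝ) (t : UU) (k : ℤ) (y : NN) (j : ℤ) :
    (act r t k y).x j = t.1 (j + k) * y.x (j + k) := rfl

lemma act_psi (r : ℝ) (t : UU) (k : ℤ) {n : ℤ} {z : EE} (hz : z ∈ Om) :
    act r t k (psi n z) = psi (n - k) (AA n r t z) := by
  apply Subtype.ext
  rw [psi_val (AA_mem_iff.2 hz), nf_AA]
  simp only [act]
  rw [psi_s hz, psi_x hz, psi_tag hz]
  by_cases h : z.2 = 0
  · rw [if_pos (sq_eq_zero_iff.2 h), if_pos h, if_pos h]
  · simp [h, sq_eq_zero_iff]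

lemma act_act (r' r : ℝ) (t' t : UU) (k' k : ℤ) (y : NN) :
    act r' t' k' (act r t k y) = act (r + mu ^ (-k) * r') (t'.mulShift t k) (k + k') y := by
  obtain ⟨n, z, hz, rfl⟩ := exists_psi y
  rw [act_psi _ _ _ hz, act_psi _ _ _ hz, act_psi _ _ _ (AA_mem_iff.2 hz), sub_sub]
  congr 1
  simp only [AA, UU.mulShift, Prod.mk.injEq]
  refine ⟨?_, by ring, ?_⟩
  · rw [sub_eq_add_neg, zpow_add₀ mu_ne]; ring
  · rw [show n + 2 - k = n - k + 2 by ring, mul_inv]; ring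

lemma act_one (y : NN) : act 0 UU.one 0 y = y := by
  obtain ⟨n, z, hz, rfl⟩ := exists_psi y
  rw [act_psi _ _ _ hz]
  simp [AA, UU.one]

lemma act_inv_act (r : ℝ) (t : UU) (k : ℤ) (y : NN) :
    act (-(mu ^ k * r)) (t.invShift k) (-k) (act r t k y) = y := by
  rw [act_act]
  convert act_one y
  · rw [mul_neg, ← mul_assoc, ← zpow_add₀ mu_ne]; simp
  · apply Subtype.ext; funext j
    simp [UU.mulShift, UU.invShift, UU.one, t.ne]
  · simp

lemma act_act_inv (r : ℝ) (t : UU) (k : ℤ) (y : NN) :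
    act r t k (act (-(mu ^ k * r)) (t.invShift k) (-k) y) = y := by
  rw [act_act]
  convert act_one y
  · simp
  · apply Subtype.ext; funext j
    simp [UU.mulShift, UU.invShift, UU.one, t.ne]
  · simp

lemma kap_act (r : ℝ) (t : UU) (k n : ℤ) (y : NN) :
    kap (n - k) (act r t k y) = AA n r t (kap n y) := by
  simp only [kap, act_s, act_x, AA, Prod.mk.injEq]
  refine ⟨?_, by rw [sub_add_cancel], ?_⟩
  · rw [← mul_assoc, ← zpow_add₀ mu_ne, sub_add_cancel]; ring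
  · rw [show n - k + 2 + k = n + 2 by ring, mul_inv]

lemma act_mem_src {r : ℝ} {t : UU} {k n : ℤ} {y : NN} (hy : y ∈ src n) :
    act r t k y ∈ src (n - k) := by
  obtain ⟨z, hz, rfl⟩ := hy
  rw [act_psi _ _ _ hz]
  exact psi_mem_src (AA_mem_iff.2 hz)

lemma act_mem_src_iff {r : ℝ} {t : UU} {k n : ℤ} {y : NN} :
    act r t k y ∈ src (n - k) ↔ y ∈ src n := by
  refine ⟨fun h => ?_, act_mem_src⟩
  have := act_mem_src (r := -(mu ^ k * r)) (t := t.invShift k) (k := -k) h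
  rwa [act_inv_act, sub_neg_eq_add, sub_add_cancel] at this

/-- The linear part of `AA`. -/
def LL (n : ℤ) (t : UU) : EE →L[ℝ] EE :=
  (ContinuousLinearMap.id ℝ ℝ).prodMap
    ((ContinuousLinearMap.mul ℝ ℂ (t.1 n)).prodMap (ContinuousLinearMap.mul ℝ ℂ (t.1 (n + 2))⁻¹))

lemma LL_apply (n : ℤ) (t : UU) (u : EE) :
    LL n t u = (u.1, t.1 n * u.2.1, (t.1 (n + 2))⁻¹ * u.2.2) := rfl

lemma AA_eq (n : ℤ) (r : ℝ) (t : UU) : AA n r t = fun z => LL n t z + (mu ^ n * r, 0, 0) := by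
  funext z
  simp [AA, LL_apply]

lemma contDiff_AA (n : ℤ) (r : ℝ) (t : UU) : ContDiff ℝ ∞ (AA n r t) := by
  rw [AA_eq]
  exact (LL n t).contDiff.add contDiff_const

lemma hasFDerivAt_AA (n : ℤ) (r : ℝ) (t : UU) (z : EE) : HasFDerivAt (AA n r t) (LL n t) z := by
  rw [AA_eq]
  exact (LL n t).hasFDerivAt.add_const _

lemma act_eventuallyEq (r : ℝ) (t : UU) (k : ℤ) {n : ℤ} {y : NN} (hy : y ∈ src n) :
    act r t k =ᶠ[𝓝 y] psi (n - k) ∘ AA n r t ∘ kap n := by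
  filter_upwards [(isOpen_src n).mem_nhds hy] with y' hy'
  simp only [Function.comp]
  rw [← act_psi _ _ _ (kap_mem_Om hy'), psi_kap hy']

lemma contMDiff_act (r : ℝ) (t : UU) (k : ℤ) :
    ContMDiff 𝓘(ℝ, EE) 𝓘(ℝ, EE) ∞ (act r t k) := by
  intro y
  have hy := mem_src_idx y
  refine ContMDiffAt.congr_of_eventuallyEq ?_ (act_eventuallyEq r t k hy)
  refine ContMDiffAt.comp y (contMDiffAt_psi (AA_mem_iff.2 (kap_mem_Om hy))) ?_
  exact ContMDiffAt.comp y (contDiff_AA _ r t).contMDiff.contMDiffAt (contMDiffAt_kap hy)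

lemma continuous_act (r : ℝ) (t : UU) (k : ℤ) : Continuous (act r t k) :=
  (contMDiff_act r t k).continuous

/-- The differential of the action. -/
def dact (r : ℝ) (t : UU) (k : ℤ) (y : NN) : EE →L[ℝ] EE :=
  mfderiv 𝓘(ℝ, EE) 𝓘(ℝ, EE) (act r t k) y

lemma dk_dact (r : ℝ) (t : UU) (k : ℤ) {n : ℤ} {y : NN} (hy : y ∈ src n) (u : EE) :
    dk (n - k) (act r t k y) (dact r t k y u) = LL n t (dk n y u) := by
  have h1 := mfderiv_comp (I := 𝓘(ℝ, EE)) (I' := 𝓘(ℝ, EE)) (I'' := 𝓘(ℝ, EE)) y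
    ((contMDiffAt_kap (act_mem_src (r := r) (t := t) (k := k) hy)).mdifferentiableAt (by simp))
    ((contMDiff_act r t k y).mdifferentiableAt (by simp))
  have h2 := mfderiv_comp (I := 𝓘(ℝ, EE)) (I' := 𝓘(ℝ, EE)) (I'' := 𝓘(ℝ, EE)) y
    ((hasFDerivAt_AA n r t (kap n y)).differentiableAt.mdifferentiableAt)
    ((contMDiffAt_kap hy).mdifferentiableAt (by simp))
  have e : kap (n - k) ∘ act r t k = AA n r t ∘ kap n := funext fun y => kap_act r t k n y
  rw [e, h2, mfderiv_eq_fderiv, (hasFDerivAt_AA n r t (kap n y)).fderiv] at h1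
  exact (congrArg (fun f : EE →L[ℝ] EE => f u) h1).symm

/-- The action as a diffeomorphism. -/
def actDiffeo (r : ℝ) (t : UU) (k : ℤ) : NN ≃ₘ^∞⟮𝓘(ℝ, EE), 𝓘(ℝ, EE)⟯ NN where
  toFun := act r t k
  invFun := act (-(mu ^ k * r)) (t.invShift k) (-k)
  left_inv := act_inv_act r t k
  right_inv := act_act_inv r t k
  contMDiff_toFun := contMDiff_act r t k
  contMDiff_invFun := contMDiff_act _ _ _

/-- An element with non-zero shift has no fixed point. -/
lemma act_ne_self {r : ℝ} {t : UU} {k : ℤ} (hk : k ≠ 0) (y : NN) : act r t k y ≠ y := by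
  intro h
  obtain ⟨n, z, hz, rfl⟩ := exists_psi y
  by_cases h0 : z.2 = 0
  · rw [act_psi _ _ _ hz] at h
    have hd := ((psi_eq_iff hz (AA_mem_iff.2 hz)).1 h.symm).1
    have h1 : z.2.1 = 0 := by rw [h0]; rfl
    have h2 : z.2.2 = 0 := by rw [h0]; rfl
    obtain ⟨d1, d2⟩ := hd
    simp only [h1, h2, ne_eq, not_true_eq_false, false_or] at d1 d2
    omega
  · have hx : ∀ j, ‖sq n z.2.1 z.2.2 (j + k)‖ = ‖sq n z.2.1 z.2.2 j‖ := by
      intro j
      have := congrArg (fun y : NN => ‖y.x j‖) h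
      simp only [act_x, psi_x hz, norm_mul, t.2.2, one_mul] at this
      exact this
    have hper : ∀ (i : ℤ) j, ‖sq n z.2.1 z.2.2 (j + i * k)‖ = ‖sq n z.2.1 z.2.2 j‖ := by
      intro i j
      have : Function.Periodic (fun j => ‖sq n z.2.1 z.2.2 j‖) k := hx
      exact this.int_mul i j
    obtain ⟨j, hj⟩ : ∃ j, sq n z.2.1 z.2.2 j ≠ 0 := by
      by_contra hcon
      push Not at hcon
      exact h0 (sq_eq_zero_iff.1 (funext hcon))
    set ρ := max ‖z.2.1 ^ 2 * z.2.2‖ ‖z.2.1 ^ 3 * z.2.2‖ with hρ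
    have hρ1 : ρ < 1 := max_lt hz.1 hz.2
    have hρ0 : 0 ≤ ρ := le_max_of_le_left (norm_nonneg _)
    obtain ⟨m, hm⟩ := exists_pow_lt_of_lt_one (norm_pos_iff.2 hj) hρ1
    obtain ⟨i, hi⟩ : ∃ i : ℤ, j + i * k ≤ n - 2 - m := by
      refine ⟨-k * (|j| + |n| + 2 + m), ?_⟩
      have h1 : 1 ≤ k * k := by
        rcases lt_or_gt_of_ne hk with h | h <;> nlinarith
      have h2 : 0 ≤ |j| + |n| + 2 + (m : ℤ) := by positivity
      nlinarith [le_abs_self j, neg_abs_le n]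
    obtain ⟨i', hi', hik⟩ : ∃ i' : ℕ, j + i * k = n - 2 - i' ∧ m ≤ i' :=
      ⟨(n - 2 - (j + i * k)).toNat, by omega, by omega⟩
    have e1 := norm_sq_le (n := n) hρ1.le (le_max_left _ _) (le_max_right _ _) i'
    rw [← hi', hper] at e1
    have e2 : ρ ^ (i' + 1) ≤ ρ ^ m := pow_le_pow_of_le_one hρ0 hρ1.le (by omega)
    linarith

end Pool.Agent.P.MP_e09449_gt
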