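import Pool.Agent.P.MP_e09449_gt.Density

/-!
The closure of the group `P` in `C(NN, NN)` and its identity component.
-/

open Set Filter Topology Manifold
open scoped ContDiff

noncomputable section

namespace Pool.Agent.P.MP_e09449_gt

/-- The torus element with prescribed values at `0` and `1`. -/
def uni (u v : Circle) : UU :=
  ⟨fun j => ((u ^ Int.fib (1 - j) * v ^ Int.fib (-j) : Circle) : ℂ), fun j => by
    beta_reduce
    rw [← Circle.coe_mul, fib_rec (1 - j), fib_rec (-j), show 1 - (j + 1) = 1 - j - 1 by ring,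
      show 1 - (j + 2) = 1 - j - 2 by ring, show -(j + 1) = -j - 1 by ring,
      show -(j + 2) = -j - 2 by ring, zpow_add, zpow_add, mul_mul_mul_comm],
    fun j => Circle.norm_coe _⟩

lemma uni_zero (u v : Circle) : (uni u v).1 0 = u := by simp [uni]

lemma uni_one (u v : Circle) : (uni u v).1 1 = v := by simp [uni]

lemma uni_mul (u v u' v' : Circle) : uni (u * u') (v * v') = (uni u v).mulShift (uni u' v') 0 := by
  apply Subtype.ext
  funext j
  simp only [uni, UU.mulShift, sub_zero]
  rw [← Circle.coe_mul, mul_zpow, mul_zpow, mul_mul_mul_comm]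

lemma uni_one_one : uni 1 1 = UU.one := by
  apply Subtype.ext
  funext j
  simp [uni, UU.one]

lemma tt_eq (g : GG) : tt g = uni (Circle.exp (2 * Real.pi * (cc * g.w 0)))
    (Circle.exp (2 * Real.pi * (cc * g.w 1))) := by
  apply Subtype.ext
  refine rec_ext_succ (tt g).2.1 (uni _ _).2.1 (tt g).ne (n := 0) ?_ ?_
  · rw [uni_zero, Circle.coe_exp]; rfl
  · rw [zero_add, uni_one, Circle.coe_exp]; rfl

lemma continuous_uni (j : ℤ) : Continuous fun p : Circle × Circle => (uni p.1 p.2).1 j := by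
  have h : Continuous fun p : Circle × Circle => p.1 ^ Int.fib (1 - j) * p.2 ^ Int.fib (-j) :=
    (continuous_fst.zpow _).mul (continuous_snd.zpow _)
  exact continuous_subtype_val.comp h

lemma continuous_act_joint (k : ℤ) :
    Continuous fun p : (ℝ × Circle × Circle) × NN => act p.1.1 (uni p.1.2.1 p.1.2.2) k p.2 := by
  rw [continuous_iff_continuousAt]
  rintro ⟨a, y⟩
  have hy := mem_src_idx y
  set n := idx y
  have hev : (fun p : (ℝ × Circle × Circle) × NN => act p.1.1 (uni p.1.2.1 p.1.2.2) k p.2) =ᶠ[𝓝 (a, y)]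
      fun p => psi (n - k) (AA n p.1.1 (uni p.1.2.1 p.1.2.2) (kap n p.2)) := by
    have : {p : (ℝ × Circle × Circle) × NN | p.2 ∈ src n} ∈ 𝓝 (a, y) :=
      ((isOpen_src n).preimage continuous_snd).mem_nhds hy
    filter_upwards [this] with p hp
    rw [← act_psi _ _ _ (kap_mem_Om hp), psi_kap hp]
  refine ContinuousAt.congr ?_ hev.symm
  have h1 : ContinuousAt (psi (n - k)) (AA n a.1 (uni a.2.1 a.2.2) (kap n y)) :=
    (continuousOn_psi _).continuousAt (isOpen_Om.mem_nhds (AA_mem_iff.2 (kap_mem_Om hy)))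
  have h2 : ContinuousAt (fun p : (ℝ × Circle × Circle) × NN => kap n p.2) (a, y) :=
    ContinuousAt.comp (g := kap n) (contMDiffAt_kap hy).continuousAt continuousAt_snd
  have h3 : ∀ j, ContinuousAt
      (fun p : (ℝ × Circle × Circle) × NN => (uni p.1.2.1 p.1.2.2).1 j) (a, y) := fun j =>
    ((continuous_uni j).comp (continuous_snd.comp continuous_fst)).continuousAt
  refine ContinuousAt.comp (g := psi (n - k))
    (f := fun p : (ℝ × Circle × Circle) × NN => AA n p.1.1 (uni p.1.2.1 p.1.2.2) (kap n p.2)) h1 ?_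
  simp only [AA]
  refine ContinuousAt.prodMk ?_ (ContinuousAt.prodMk ?_ ?_)
  · exact h2.fst.add (by fun_prop)
  · exact (h3 n).mul h2.snd.fst
  · exact ((h3 (n + 2)).inv₀ ((uni _ _).ne _)).mul h2.snd.snd

/-- The parametrisation of the closure of `P`. -/
def jj (p : (ℝ × Circle × Circle) × ℤ) : C(NN, NN) :=
  ⟨act p.1.1 (uni p.1.2.1 p.1.2.2) p.2, continuous_act _ _ _⟩

lemma jj_apply (p : (ℝ × Circle × Circle) × ℤ) (y : NN) :
    jj p y = act p.1.1 (uni p.1.2.1 p.1.2.2) p.2 y := rfl

lemma continuous_jj_slice (k : ℤ) : Continuous fun a : ℝ × Circle × Circle => jj (a, k) :=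
  ContinuousMap.continuous_of_continuous_uncurry _ (continuous_act_joint k)

lemma continuous_jj : Continuous jj :=
  continuous_prod_of_discrete_right.2 continuous_jj_slice

lemma jj_injective : Function.Injective jj := by
  rintro ⟨⟨r, u, v⟩, k⟩ ⟨⟨r', u', v'⟩, k'⟩ h
  have h0 : act r (uni u v) k y0 = act r' (uni u' v') k' y0 := congrArg (fun f : C(NN, NN) => f y0) h
  have hk : k = k' := by
    by_contra hne
    have h1 := act_inv_act r' (uni u' v') k' y0
    rw [← h0, act_act] at h1
    exact act_ne_self (by omega) y0 h1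
  subst hk
  have hs := congrArg NN.s h0
  rw [act_s, act_s, y0_s, zero_add, zero_add] at hs
  have hr : r = r' := mul_left_cancel₀ (zpow_ne_zero _ mu_ne) hs
  have hx : ∀ j, (uni u v).1 j = (uni u' v').1 j := by
    intro j
    have := congrArg (fun y : NN => y.x (j - k)) h0
    simp only [act_x, y0_x, sub_add_cancel] at this
    exact mul_right_cancel₀ (bseq_ne j) this
  have hu := hx 0
  have hv := hx 1
  rw [uni_zero, uni_zero] at hu
  rw [uni_one, uni_one] at hv
  rw [hr, Circle.ext hu, Circle.ext hv]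

lemma isProperMap_jj : IsProperMap jj := by
  have hev : Continuous fun f : C(NN, NN) => f y0 := by fun_prop
  refine isProperMap_of_comp_of_t2 continuous_jj hev ?_
  rw [isProperMap_iff_isCompact_preimage]
  refine ⟨hev.comp continuous_jj, fun K hK => ?_⟩
  obtain ⟨i, hi⟩ := exists_Exh_of_isCompact (hK.insert y0)
  obtain ⟨k₁, B, hB⟩ := exists_r_bound i
  have hc : IsCompact ((Icc (-B) B ×ˢ (univ : Set (Circle × Circle))) ×ˢ Icc (-(k₁ : ℤ)) k₁) :=
    (isCompact_Icc.prod isCompact_univ).prod isCompact_Icc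
  refine hc.of_isClosed_subset (hK.isClosed.preimage (hev.comp continuous_jj)) ?_
  rintro ⟨⟨r, u, v⟩, k⟩ hp
  obtain ⟨h1, h2⟩ := hB r (uni u v) k y0 (hi (mem_insert _ _)) (hi (mem_insert_of_mem _ hp))
  exact ⟨⟨abs_le.1 h2, mem_univ _⟩, abs_le.1 h1⟩

lemma isClosedEmbedding_jj : IsClosedEmbedding jj :=
  .of_continuous_injective_isClosedMap continuous_jj jj_injective isProperMap_jj.isClosedMap

/-- The group `P`. -/
def PP : Set C(NN, NN) :=
  {f | ∃ s, IsDeck (E := EE) projM s ∧ ∀ (x : ℝ) (y : NN), (s (x, y)).2 = f y}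

lemma mem_PP {f : C(NN, NN)} : f ∈ PP ↔ ∃ g : GG, ∀ y, actG g y = f y := by
  constructor
  · rintro ⟨s, hs, h⟩
    obtain ⟨g, rfl⟩ := (isDeck_iff s).1 hs
    exact ⟨g, fun y => h 0 y⟩
  · rintro ⟨g, h⟩
    exact ⟨_, (isDeck_iff _).2 ⟨g, rfl⟩, fun _ y => h y⟩

lemma PP_subset : PP ⊆ range jj := by
  intro f hf
  obtain ⟨g, h⟩ := mem_PP.1 hf
  refine ⟨((rr g, Circle.exp (2 * Real.pi * (cc * g.w 0)),
    Circle.exp (2 * Real.pi * (cc * g.w 1))), g.k), ?_⟩
  ext y
  rw [← h, jj_apply, actG, tt_eq]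

lemma closure_PP_subset : closure PP ⊆ range jj :=
  closure_minimal PP_subset isClosedEmbedding_jj.isClosed_range

lemma exp_add_int (x : ℝ) (n : ℤ) :
    Circle.exp (2 * Real.pi * (x + n)) = Circle.exp (2 * Real.pi * x) := by
  rw [Circle.exp_eq_exp]
  exact ⟨n, by ring⟩

lemma slice_subset_closure (a : ℝ × Circle × Circle) : jj (a, 0) ∈ closure PP := by
  let Φ : ℝ × ℝ × ℝ → ℝ × Circle × Circle := fun x =>
    (x.1, Circle.exp (2 * Real.pi * x.2.1), Circle.exp (2 * Real.pi * x.2.2))
  have hΦ : Continuous Φ := by fun_prop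
  have hs : Function.Surjective Φ := by
    rintro ⟨r, u, v⟩
    obtain ⟨x, rfl⟩ := Circle.exp_surjective u
    obtain ⟨y, rfl⟩ := Circle.exp_surjective v
    refine ⟨(r, x / (2 * Real.pi), y / (2 * Real.pi)), ?_⟩
    simp only [Φ]
    rw [mul_div_cancel₀ _ (by positivity), mul_div_cancel₀ _ (by positivity)]
  have hd := hs.denseRange.comp denseRange_kron hΦ
  refine hd.induction_on a (isClosed_closure.preimage (continuous_jj_slice 0)) ?_
  rintro ⟨m₀, m₁, n₀, n₁⟩
  apply subset_closure
  refine mem_PP.2 ⟨GG.mk' m₀ m₁ 0, fun y => ?_⟩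
  rw [jj_apply, actG, tt_eq]
  simp only [Φ, Function.comp, exp_add_int, rr, GG.mk'_w0, GG.mk'_w1, GG.mk'_k]

lemma jj_mem_Sim (p : (ℝ × Circle × Circle) × ℤ) : jj p ∈ Sim gN :=
  ⟨actDiffeo p.1.1 (uni p.1.2.1 p.1.2.2) p.2, fun _ => rfl, Real.goldenRatio ^ (-p.2),
    zpow_pos Real.goldenRatio_pos _, fun x u v => g0_act _ _ _ x u v⟩

lemma jj_one : jj ((0, 1, 1), 0) = ContinuousMap.id NN := by
  ext y
  rw [jj_apply, uni_one_one, act_one, ContinuousMap.id_apply]

lemma component_eq : connectedComponentIn (closure PP ∩ Sim gN) (ContinuousMap.id NN) =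
    range fun a : ℝ × Circle × Circle => jj (a, 0) := by
  apply Subset.antisymm
  · intro f hf
    have hsub : connectedComponentIn (closure PP ∩ Sim gN) (ContinuousMap.id NN) ⊆ range jj :=
      (connectedComponentIn_subset _ _).trans (inter_subset_left.trans closure_PP_subset)
    have hpre : IsPreconnected
        (jj ⁻¹' connectedComponentIn (closure PP ∩ Sim gN) (ContinuousMap.id NN)) := by
      rw [← isClosedEmbedding_jj.isInducing.isPreconnected_image, image_preimage_eq_of_subset hsub]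
      exact isPreconnected_connectedComponentIn
    obtain ⟨⟨a, k⟩, rfl⟩ := hsub hf
    have h1 : ((0, 1, 1), 0) ∈
        jj ⁻¹' connectedComponentIn (closure PP ∩ Sim gN) (ContinuousMap.id NN) := by
      rw [mem_preimage, jj_one]
      apply mem_connectedComponentIn
      rw [← jj_one]
      exact ⟨slice_subset_closure _, jj_mem_Sim _⟩
    have hk : k = 0 := hpre.constant (f := Prod.snd) continuous_snd.continuousOn hf h1
    exact ⟨a, by rw [hk]⟩
  · refine (isPreconnected_range (continuous_jj_slice 0)).subset_connectedComponentIn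
      ⟨_, jj_one⟩ ?_
    rintro _ ⟨a, rfl⟩
    exact ⟨slice_subset_closure _, jj_mem_Sim _⟩

lemma isEmbedding_jj_slice : IsEmbedding fun a : ℝ × Circle × Circle => jj (a, 0) :=
  isClosedEmbedding_jj.isEmbedding.comp (isEmbedding_prodMkLeft 0)

lemma jj_mul (a b : ℝ × Circle × Circle) :
    jj ((a.1 + b.1, a.2 * b.2), 0) = (jj (a, 0)).comp (jj (b, 0)) := by
  ext y
  simp only [ContinuousMap.comp_apply, jj_apply, act_act, Prod.fst_mul, Prod.snd_mul, uni_mul,
    neg_zero, zpow_zero, one_mul, add_zero, add_comm]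

lemma not_simplyConnected : ¬ SimplyConnectedSpace (ℝ × Circle × Circle) := by
  intro h
  have : LocallyPathConnectedSpace Circle :=
    ChartedSpace.locallyPathConnectedSpace (EuclideanSpace ℝ (Fin 1)) Circle
  obtain ⟨F, ⟨h0, hF⟩, -⟩ := Circle.isCoveringMap_exp.existsUnique_continuousMap_lifts
    (⟨fun a : ℝ × Circle × Circle => a.2.1, by fun_prop⟩ : C(ℝ × Circle × Circle, Circle))
    (0, 1, 1) 0 (by simp)
  have hG : (fun t : ℝ => F (0, Circle.exp t, 1)) = id := by
    refine Circle.isCoveringMap_exp.eq_of_comp_eq (by fun_prop) continuous_id ?_ 0 (by simpa using h0)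
    funext t
    exact congrFun hF (0, Circle.exp t, 1)
  have h1 := congrFun hG (2 * Real.pi)
  rw [Circle.exp_two_pi, h0, id] at h1
  exact Real.two_pi_pos.ne h1

end Pool.Agent.P.MP_e09449_gt
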