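import Mathlib

/-!
Definitions for MP_e09449_gt: LCP manifolds, described on the universal cover, and the identity
component of the closure of the group `P` in `Sim(N)`.
-/

open Set Filter Topology Bundle Manifold
open scoped ContDiff ENNReal

noncomputable section

namespace Pool.Agent.P.MP_e09449_gt

section Riemannian

variable (E : Type) [NormedAddCommGroup E] [NormedSpace ℝ E]
  (N : Type) [TopologicalSpace N] [ChartedSpace E N] [IsManifold 𝓘(ℝ, E) ∞ N]

/-- A smooth Riemannian metric on the manifold `N` modelled on `E`. -/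
abbrev RMetric : Type :=
  ContMDiffRiemannianMetric 𝓘(ℝ, E) ∞ E (fun x : N => TangentSpace 𝓘(ℝ, E) x)

variable {E N}

/-- The value `g_x(u, v)` of the metric. -/
def ginner (g : RMetric E N) (x : N) (u v : TangentSpace 𝓘(ℝ, E) x) : ℝ := g.inner x u v

/-- The differential of `φ : E → N` at `z` applied to `u`. -/
def dφ (φ : E → N) (z u : E) : TangentSpace 𝓘(ℝ, E) (φ z) := mfderiv 𝓘(ℝ, E) 𝓘(ℝ, E) φ z u

/-- The pull-back of `g` by `φ : E → N`, at the point `z`, evaluated on the vectors `u`, `v`. -/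
def pullbackForm (g : RMetric E N) (φ : E → N) (z u v : E) : ℝ :=
  ginner g (φ z) (dφ φ z u) (dφ φ z v)

/-- Local coordinates on `(N, g)`: a smooth map `φ` from an open set `U ⊆ E` to `N` whose
differential is bijective at every point of `U`, with the Christoffel symbols `Γ` of the
Levi-Civita connection of the pulled-back metric `G = φ^* g`, characterised by
`2 G(Γ(u,v),w) = ∂_u G(v,w) + ∂_v G(u,w) - ∂_w G(u,v)`. -/
structure LocalCoords (g : RMetric E N) where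
  U : Set E
  φ : E → N
  Γ : E → E →L[ℝ] E →L[ℝ] E
  isOpen : IsOpen U
  smooth : ContMDiffOn 𝓘(ℝ, E) 𝓘(ℝ, E) ∞ φ U
  bijective : ∀ z ∈ U, Function.Bijective (dφ φ z)
  christoffel : ∀ z ∈ U, ∀ u v w : E, 2 * pullbackForm g φ z (Γ z u v) w =
    fderiv ℝ (fun y => pullbackForm g φ y v w) z u + fderiv ℝ (fun y => pullbackForm g φ y u w) z v
      - fderiv ℝ (fun y => pullbackForm g φ y u v) z w

/-- The Riemann curvature `R(u,v)w` of `g` at `z`, in the local coordinates `C`. -/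
def LocalCoords.curvature {g : RMetric E N} (C : LocalCoords g) (z u v w : E) : E :=
  fderiv ℝ (fun y => C.Γ y v w) z u - fderiv ℝ (fun y => C.Γ y u w) z v
    + C.Γ z u (C.Γ z v w) - C.Γ z v (C.Γ z u w)

/-- `g` is not flat: its curvature tensor is non-zero at some point. -/
def IsNonFlat (g : RMetric E N) : Prop :=
  ∃ C : LocalCoords g, ∃ z ∈ C.U, ∃ u v w : E, C.curvature z u v w ≠ 0

/-- The tangent vector `q` is the parallel transport of the tangent vector `p` along a smooth arc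
`c : [0,1] → U` lying in one coordinate domain: there is a field `X` along `c` with
`X' + Γ(c', X) = 0` that starts at `p` and ends at `q`. -/
def ParallelStep (g : RMetric E N) (p q : TangentBundle 𝓘(ℝ, E) N) : Prop :=
  ∃ (C : LocalCoords g) (c X : ℝ → E), ContDiff ℝ ∞ c ∧ ContDiff ℝ ∞ X ∧
    (∀ t ∈ Icc (0 : ℝ) 1, c t ∈ C.U ∧ deriv X t + C.Γ (c t) (deriv c t) (X t) = 0) ∧
    p = ⟨C.φ (c 0), dφ C.φ (c 0) (X 0)⟩ ∧ q = ⟨C.φ (c 1), dφ C.φ (c 1) (X 1)⟩

/-- The holonomy group of `g` at `x` acts irreducibly on `T_x N`: the only subspaces preserved by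
parallel transport along all piecewise smooth loops at `x` are `0` and `T_x N`. -/
def HolonomyIrreducibleAt (g : RMetric E N) (x : N) : Prop :=
  ∀ W : Submodule ℝ (TangentSpace 𝓘(ℝ, E) x),
    (∀ v ∈ W, ∀ w : TangentSpace 𝓘(ℝ, E) x,
      Relation.ReflTransGen (ParallelStep g) ⟨x, v⟩ ⟨x, w⟩ → w ∈ W) → W = ⊥ ∨ W = ⊤

/-- The Riemannian distance of `g` (infimum of lengths of `C^1` paths). -/
def rdist (g : RMetric E N) (x y : N) : ℝ≥0∞ :=
  letI : RiemannianBundle (fun x : N => TangentSpace 𝓘(ℝ, E) x) := ⟨g.toRiemannianMetric⟩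
  riemannianEDist 𝓘(ℝ, E) x y

/-- `(N, g)` is complete: every Cauchy sequence for the Riemannian distance converges. -/
def IsCompleteMetric (g : RMetric E N) : Prop :=
  ∀ u : ℕ → N, (∀ ε : ℝ≥0∞, 0 < ε → ∃ n₀, ∀ m ≥ n₀, ∀ n ≥ n₀, rdist g (u m) (u n) < ε) →
    ∃ x, Tendsto u atTop (𝓝 x)

/-- `Sim(N)`: the diffeomorphisms `s` of `N` with `s^* g = l^2 g` for some `l > 0`, as a subset of
`C(N, N)` with the compact-open topology. -/
def Sim (g : RMetric E N) : Set C(N, N) :=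
  {f | ∃ s : N ≃ₘ^∞⟮𝓘(ℝ, E), 𝓘(ℝ, E)⟯ N, (∀ x, s x = f x) ∧ ∃ l : ℝ, 0 < l ∧
    ∀ (x : N) (u v : TangentSpace 𝓘(ℝ, E) x),
      ginner g (s x) (mfderiv 𝓘(ℝ, E) 𝓘(ℝ, E) s x u) (mfderiv 𝓘(ℝ, E) 𝓘(ℝ, E) s x v)
        = l ^ 2 * ginner g x u v}

variable {V : Type} [NormedAddCommGroup V] [InnerProductSpace ℝ V]

/-- The product metric `h` on `V × N` (`V` Euclidean). -/
def prodForm (g : RMetric E N) (x : V × N)
    (u v : TangentSpace (𝓘(ℝ, V).prod 𝓘(ℝ, E)) x) : ℝ :=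
  inner ℝ u.1 v.1 + ginner g x.2 u.2 v.2

/-- `s^* h = l^2 h` for the product metric `h` on `V × N`. -/
def ScalesBy (g : RMetric E N) (s : V × N → V × N) (l : ℝ) : Prop :=
  ∀ (x : V × N) (u v : TangentSpace (𝓘(ℝ, V).prod 𝓘(ℝ, E)) x),
    prodForm g (s x) (mfderiv (𝓘(ℝ, V).prod 𝓘(ℝ, E)) (𝓘(ℝ, V).prod 𝓘(ℝ, E)) s x u)
      (mfderiv (𝓘(ℝ, V).prod 𝓘(ℝ, E)) (𝓘(ℝ, V).prod 𝓘(ℝ, E)) s x v) = l ^ 2 * prodForm g x u v

/-- `s` is a deck transformation of `p : V × N → M`: a diffeomorphism of `V × N` with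
`p ∘ s = p`. -/
def IsDeck {M : Type} (p : V × N → M) (s : V × N → V × N) : Prop :=
  p ∘ s = p ∧
    ∃ d : (V × N) ≃ₘ^∞⟮𝓘(ℝ, V).prod 𝓘(ℝ, E), 𝓘(ℝ, V).prod 𝓘(ℝ, E)⟯ (V × N), ∀ x, d x = s x

end Riemannian

/-- An LCP manifold, given on the universal cover: a compact connected manifold `M` whose
universal cover is `proj : V × N → M`, with `V ≅ ℝ^q` Euclidean (`q ≥ 1`) and `(N, g)` a simply
connected Riemannian manifold that is non-flat, non-complete and has irreducible holonomy, such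
that all deck transformations of `proj` are similarities of the product metric `h`, not all of
them isometries. (The conformal class `c` on `M` is that of `h`, and `D` is induced by the
Levi-Civita connection of `h`.) -/
structure LCP : Type 1 where
  V : Type
  [iV₁ : NormedAddCommGroup V]
  [iV₂ : InnerProductSpace ℝ V]
  [iV₃ : FiniteDimensional ℝ V]
  [iV₄ : Nontrivial V]
  E : Type
  [iE₁ : NormedAddCommGroup E]
  [iE₂ : NormedSpace ℝ E]
  [iE₃ : FiniteDimensional ℝ E]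
  N : Type
  [iN₁ : TopologicalSpace N]
  [iN₂ : T2Space N]
  [iN₃ : SecondCountableTopology N]
  [iN₄ : ChartedSpace E N]
  [iN₅ : IsManifold 𝓘(ℝ, E) ∞ N]
  [iN₆ : SimplyConnectedSpace N]
  g : RMetric E N
  nonFlat : IsNonFlat g
  nonComplete : ¬ IsCompleteMetric g
  irreducibleHol : ∃ x : N, HolonomyIrreducibleAt g x
  M : Type
  [iM₁ : TopologicalSpace M]
  [iM₂ : T2Space M]
  [iM₃ : CompactSpace M]
  [iM₄ : ConnectedSpace M]
  [iM₅ : ChartedSpace (ModelProd V E) M]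
  [iM₆ : IsManifold (𝓘(ℝ, V).prod 𝓘(ℝ, E)) ∞ M]
  proj : V × N → M
  surjective : Function.Surjective proj
  covering : IsCoveringMap proj
  localDiffeo : IsLocalDiffeomorph (𝓘(ℝ, V).prod 𝓘(ℝ, E)) (𝓘(ℝ, V).prod 𝓘(ℝ, E)) ∞ proj
  similarity : ∀ s, IsDeck (E := E) proj s → ∃ l : ℝ, 0 < l ∧ ScalesBy g s l
  nonExact : ∃ s, IsDeck (E := E) proj s ∧ ¬ ScalesBy g s 1

attribute [instance] LCP.iV₁ LCP.iV₂ LCP.iV₃ LCP.iV₄ LCP.iE₁ LCP.iE₂ LCP.iE₃ LCP.iN₁ LCP.iN₂
  LCP.iN₃ LCP.iN₄ LCP.iN₅ LCP.iN₆ LCP.iM₁ LCP.iM₂ LCP.iM₃ LCP.iM₄ LCP.iM₅ LCP.iM₆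

namespace LCP

variable (L : LCP)

/-- `P = {γ_N : γ ∈ π₁(M)}`: the maps induced on `N` by the deck transformations. -/
def groupP : Set C(L.N, L.N) :=
  {f | ∃ s, IsDeck (E := L.E) L.proj s ∧ ∀ (x : L.V) (y : L.N), (s (x, y)).2 = f y}

/-- The closure of `P` in `Sim(N)`. -/
def Pbar : Set C(L.N, L.N) := closure L.groupP ∩ Sim L.g

/-- The identity component of the closure of `P` in `Sim(N)`. -/
def Pbar0 : Set C(L.N, L.N) := connectedComponentIn L.Pbar (ContinuousMap.id L.N)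

end LCP

end Pool.Agent.P.MP_e09449_gt
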