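import Pool.Agent.P.MP_e09449_gt.Gamma

/-!
A Kronecker type density statement.
-/

open Set Filter Topology

noncomputable section

namespace Pool.Agent.P.MP_e09449_gt

def hh (m : ℤ × ℤ × ℤ × ℤ) : ℝ × ℝ × ℝ :=
  (m.1 - Real.goldenRatio * m.2.1, m.2.2.1 - Real.goldenRatio * m.2.2.2,
    cc * (Real.goldenRatio * m.1 + m.2.1) + (Real.goldenRatio * m.2.2.1 + m.2.2.2))

lemma hh_sub (m m' : ℤ × ℤ × ℤ × ℤ) : hh (m - m') = hh m - hh m' := by
  simp only [hh, Prod.fst_sub, Prod.snd_sub, Int.cast_sub, Prod.mk_sub_mk, Prod.mk.injEq]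
  refine ⟨by ring, by ring, by ring⟩

def hhHom : ℤ × ℤ × ℤ × ℤ →+ ℝ × ℝ × ℝ := AddMonoidHom.ofMapSub hh hh_sub

lemma hh_T (m : ℤ × ℤ × ℤ × ℤ) : hh (m.1 + m.2.1, m.1, m.2.2.1 + m.2.2.2, m.2.2.1) =
    ((1 - Real.goldenRatio) * (hh m).1, (1 - Real.goldenRatio) * (hh m).2.1,
      Real.goldenRatio * (hh m).2.2) := by
  simp only [hh, Int.cast_add, Prod.mk.injEq]
  refine ⟨?_, ?_, ?_⟩
  · linear_combination (-(m.2.1 : ℝ)) * gold_sq
  · linear_combination (-(m.2.2.2 : ℝ)) * gold_sq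
  · linear_combination (-(cc * m.1 + m.2.2.1 : ℝ)) * gold_sq

lemma exists_small {ε : ℝ} (hε : 0 < ε) : ∃ m, ‖hh m‖ < ε ∧ (hh m).2.2 ≠ 0 := by
  have g1 := Real.one_lt_goldenRatio
  have g2 := Real.goldenRatio_lt_two
  have hne : Real.goldenRatio + 2 ≠ 0 := by linarith
  have box : ∀ n : ℕ, ∃ m : ℤ × ℤ × ℤ × ℤ, m.2.1 = n ∧ hh m ∈ Metric.closedBall 0 3 := by
    intro n
    set p := cc * (Real.goldenRatio * ⌊Real.goldenRatio * n⌋ + n)
    set θ₀ := -(Real.goldenRatio * p) / (Real.goldenRatio + 2)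
    set θ₁ := -p / (Real.goldenRatio + 2)
    have t0 : (Real.goldenRatio + 2) * θ₀ = -(Real.goldenRatio * p) := mul_div_cancel₀ _ hne
    have t1 : (Real.goldenRatio + 2) * θ₁ = -p := mul_div_cancel₀ _ hne
    have u0 : p = -(Real.goldenRatio * θ₀ + θ₁) := by
      apply mul_left_cancel₀ hne
      linear_combination Real.goldenRatio * t0 + t1 - p * gold_sq
    have u1 : θ₀ = Real.goldenRatio * θ₁ := by
      apply mul_left_cancel₀ hne
      linear_combination t0 - Real.goldenRatio * t1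
    have f0 := Int.floor_le θ₀
    have f0' := Int.lt_floor_add_one θ₀
    have f1 := Int.floor_le θ₁
    have f1' := Int.lt_floor_add_one θ₁
    have f2 := Int.floor_le (Real.goldenRatio * n)
    have f2' := Int.lt_floor_add_one (Real.goldenRatio * n)
    refine ⟨(⌊Real.goldenRatio * n⌋, n, ⌊θ₀⌋, ⌊θ₁⌋), rfl, ?_⟩
    rw [mem_closedBall_zero_iff, Prod.norm_def, Prod.norm_def]
    simp only [hh, Real.norm_eq_abs, max_le_iff, abs_le, Int.cast_natCast]
    change (_ ∧ _) ∧ (_ ∧ _) ∧ (-3 ≤ p + _ ∧ p + _ ≤ 3)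
    rw [u0]
    refine ⟨⟨by linarith, by linarith⟩, ⟨?_, ?_⟩, ?_, ?_⟩ <;> nlinarith
  choose m hm1 hm2 using box
  obtain ⟨a, -, σ, hσ, hlim⟩ := (isCompact_closedBall (0 : ℝ × ℝ × ℝ) 3).tendsto_subseq hm2
  obtain ⟨N, hN⟩ := Metric.cauchySeq_iff'.1 hlim.cauchySeq ε hε
  refine ⟨m (σ (N + 1)) - m (σ N), ?_, ?_⟩
  · rw [hh_sub, ← dist_eq_norm]
    exact hN (N + 1) (by omega)
  · intro h
    set d := m (σ (N + 1)) - m (σ N) with hd
    have := (cc_spec d.1 d.2.1 (-d.2.2.1) (-d.2.2.2) (by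
      simp only [hh] at h
      push_cast
      linarith)).2
    rw [hd, Prod.snd_sub, Prod.fst_sub, hm1, hm1] at this
    have := hσ (show N < N + 1 by omega)
    omega

lemma exists_scaled {ε : ℝ} (hε : 0 < ε) :
    ∃ m, |(hh m).1| ≤ ε ∧ |(hh m).2.1| ≤ ε ∧ 1 ≤ |(hh m).2.2| ∧ |(hh m).2.2| ≤ 2 := by
  have g1 := Real.one_lt_goldenRatio
  have g2 := Real.goldenRatio_lt_two
  obtain ⟨m, hm, hz⟩ := exists_small (lt_min hε one_pos)
  have iter : ∀ j : ℕ, ∃ m', |(hh m').1| ≤ ε ∧ |(hh m').2.1| ≤ ε ∧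
      |(hh m').2.2| = Real.goldenRatio ^ j * |(hh m).2.2| := by
    intro j
    induction j with
    | zero =>
      refine ⟨m, ?_, ?_, by simp⟩
      · exact ((norm_fst_le (hh m)).trans (hm.trans_le (min_le_left _ _)).le)
      · exact ((norm_fst_le (hh m).2).trans ((norm_snd_le (hh m)).trans
          (hm.trans_le (min_le_left _ _)).le))
    | succ j ih =>
      obtain ⟨m', h1, h2, h3⟩ := ih
      have hψ : |1 - Real.goldenRatio| ≤ 1 := by rw [abs_le]; constructor <;> linarith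
      refine ⟨(m'.1 + m'.2.1, m'.1, m'.2.2.1 + m'.2.2.2, m'.2.2.1), ?_, ?_, ?_⟩
      · rw [hh_T, abs_mul]
        exact (mul_le_of_le_one_left (abs_nonneg _) hψ).trans h1
      · rw [hh_T, abs_mul]
        exact (mul_le_of_le_one_left (abs_nonneg _) hψ).trans h2
      · rw [hh_T, abs_mul, h3, abs_of_pos Real.goldenRatio_pos]; ring
  have hpos : 0 < |(hh m).2.2| := abs_pos.2 hz
  have hlt : |(hh m).2.2| ≤ 1 :=
    (norm_snd_le (hh m).2).trans ((norm_snd_le (hh m)).trans (hm.trans_le (min_le_right _ _)).le)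
  obtain ⟨j, j1, j2⟩ := exists_nat_pow_near (one_le_inv₀ hpos |>.2 hlt) g1
  obtain ⟨m', h1, h2, h3⟩ := iter (j + 1)
  refine ⟨m', h1, h2, ?_, ?_⟩
  · rw [h3]
    rw [inv_lt_iff_one_lt_mul₀ hpos] at j2
    exact j2.le
  · rw [h3, pow_succ]
    rw [le_inv_comm₀ (by positivity) hpos] at j1
    have : Real.goldenRatio ^ j * |(hh m).2.2| ≤ 1 := by
      calc _ ≤ Real.goldenRatio ^ j * (Real.goldenRatio ^ j)⁻¹ := by gcongr
        _ = 1 := mul_inv_cancel₀ (by positivity)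
    nlinarith

lemma denseRange_hh : DenseRange hh := by
  let K : AddSubgroup (ℝ × ℝ × ℝ) := hhHom.range.topologicalClosure
  have hKc : IsClosed (K : Set (ℝ × ℝ × ℝ)) := hhHom.range.isClosed_topologicalClosure
  have hmem : ∀ m, hh m ∈ K := fun m => hhHom.range.le_topologicalClosure ⟨m, rfl⟩
  have hT : ∀ v ∈ K, (((1 - Real.goldenRatio) * v.1, (1 - Real.goldenRatio) * v.2.1,
      Real.goldenRatio * v.2.2) : ℝ × ℝ × ℝ) ∈ K := by
    intro v hv
    have hcl : IsClosed {v : ℝ × ℝ × ℝ | (((1 - Real.goldenRatio) * v.1,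
        (1 - Real.goldenRatio) * v.2.1, Real.goldenRatio * v.2.2) : ℝ × ℝ × ℝ) ∈ K} :=
      hKc.preimage (f := fun v : ℝ × ℝ × ℝ => (((1 - Real.goldenRatio) * v.1,
        (1 - Real.goldenRatio) * v.2.1, Real.goldenRatio * v.2.2) : ℝ × ℝ × ℝ)) (by fun_prop)
    refine closure_minimal (s := (hhHom.range : Set (ℝ × ℝ × ℝ))) ?_ hcl hv
    rintro _ ⟨m, rfl⟩
    have := hmem (m.1 + m.2.1, m.1, m.2.2.1 + m.2.2.2, m.2.2.1)
    rw [hh_T] at this
    exact this
  obtain ⟨z₀, hz₀, hz₀K⟩ : ∃ z₀ : ℝ, z₀ ≠ 0 ∧ ((0, 0, z₀) : ℝ × ℝ × ℝ) ∈ K := by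
    choose m h1 h2 h3 h4 using fun n : ℕ => exists_scaled (ε := 1 / ((n : ℝ) + 1)) (by positivity)
    have hb : ∀ n, (hh (m n)).2.2 ∈ Icc (-2 : ℝ) 2 := fun n => abs_le.1 (h4 n)
    obtain ⟨a, -, σ, hσ, hlim⟩ := isCompact_Icc.tendsto_subseq hb
    have t0 : Tendsto (fun n : ℕ => 1 / ((σ n : ℝ) + 1)) atTop (𝓝 0) :=
      tendsto_one_div_add_atTop_nhds_zero_nat.comp hσ.tendsto_atTop
    have t1 : Tendsto (fun n => (hh (m (σ n))).1) atTop (𝓝 0) :=
      squeeze_zero_norm (fun n => h1 (σ n)) t0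
    have t2 : Tendsto (fun n => (hh (m (σ n))).2.1) atTop (𝓝 0) :=
      squeeze_zero_norm (fun n => h2 (σ n)) t0
    refine ⟨a, ?_, hKc.mem_of_tendsto (t1.prodMk_nhds (t2.prodMk_nhds hlim))
      (Eventually.of_forall fun n => hmem _)⟩
    have : 1 ≤ |a| := ge_of_tendsto' hlim.abs fun n => h3 (σ n)
    rintro rfl
    norm_num at this
  have haxis : ∀ z : ℝ, ((0, 0, z) : ℝ × ℝ × ℝ) ∈ K := by
    let ι : ℝ →+ ℝ × ℝ × ℝ := (AddMonoidHom.inr ℝ (ℝ × ℝ)).comp (AddMonoidHom.inr ℝ ℝ)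
    have hd : Dense (AddSubgroup.closure {Real.goldenRatio * z₀, z₀} : Set ℝ) := by
      rw [dense_addSubgroupClosure_pair_iff, mul_div_cancel_right₀ _ hz₀]
      exact Real.goldenRatio_irrational
    have hle : AddSubgroup.closure {Real.goldenRatio * z₀, z₀} ≤ K.comap ι := by
      rw [AddSubgroup.closure_le]
      rintro _ (rfl | rfl)
      · have := hT _ hz₀K
        simp only [mul_zero] at this
        exact this
      · exact hz₀K
    have hc : IsClosed (K.comap ι : Set ℝ) :=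
      hKc.preimage (f := fun z : ℝ => ((0, 0, z) : ℝ × ℝ × ℝ)) (by fun_prop)
    intro z
    exact hc.closure_subset ((hd.mono hle) z)
  have hD : Dense (AddSubgroup.closure {Real.goldenRatio, (1 : ℝ)} : Set ℝ) := by
    rw [dense_addSubgroupClosure_pair_iff, div_one]
    exact Real.goldenRatio_irrational
  have hsub : (AddSubgroup.closure {Real.goldenRatio, (1 : ℝ)} : Set ℝ) ×ˢ
      ((AddSubgroup.closure {Real.goldenRatio, (1 : ℝ)} : Set ℝ) ×ˢ (univ : Set ℝ)) ⊆ K := by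
    rintro ⟨x, y, z⟩ ⟨hx, hy, -⟩
    obtain ⟨a, b, rfl⟩ := AddSubgroup.mem_closure_pair.1 hx
    obtain ⟨c, d, rfl⟩ := AddSubgroup.mem_closure_pair.1 hy
    have := K.add_mem (hmem (b, -a, d, -c)) (haxis (z - (hh (b, -a, d, -c)).2.2))
    have e : ((a • Real.goldenRatio + b • (1 : ℝ), c • Real.goldenRatio + d • (1 : ℝ), z) :
        ℝ × ℝ × ℝ) = hh (b, -a, d, -c) + (0, 0, z - (hh (b, -a, d, -c)).2.2) := by
      simp only [hh, zsmul_eq_mul, Prod.mk_add_mk, Prod.mk.injEq]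
      push_cast
      refine ⟨by ring, by ring, by ring⟩
    rw [e]
    exact this
  have := (hD.prod (hD.prod dense_univ)).mono hsub
  intro v
  exact hKc.closure_subset (this v)

/-- The density statement in the original coordinates. -/
lemma denseRange_kron : DenseRange fun m : ℤ × ℤ × ℤ × ℤ =>
    ((m.1 - Real.goldenRatio * m.2.1, cc * m.1 + m.2.2.1, cc * m.2.1 + m.2.2.2) : ℝ × ℝ × ℝ) := by
  have g1 := Real.one_lt_goldenRatio
  have hne : Real.goldenRatio + 2 ≠ 0 := by linarith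
  let Φ : ℝ × ℝ × ℝ → ℝ × ℝ × ℝ := fun v =>
    (v.1, (Real.goldenRatio * v.2.2 + (v.2.1 + cc * v.1)) / (Real.goldenRatio + 2),
      (v.2.2 - Real.goldenRatio * (v.2.1 + cc * v.1)) / (Real.goldenRatio + 2))
  have hs : Function.Surjective Φ := by
    rintro ⟨x, y₀, y₁⟩
    refine ⟨(x, y₀ - Real.goldenRatio * y₁ - cc * x, Real.goldenRatio * y₀ + y₁), ?_⟩
    simp only [Φ, Prod.mk.injEq, true_and]
    constructor
    · rw [div_eq_iff hne]; linear_combination y₀ * gold_sq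
    · rw [div_eq_iff hne]; linear_combination y₁ * gold_sq
  have := hs.denseRange.comp denseRange_hh (by fun_prop)
  convert this using 1
  funext m
  simp only [Φ, hh, Function.comp, Prod.mk.injEq, true_and]
  constructor
  · rw [eq_div_iff hne]; linear_combination (-(cc * m.1 + m.2.2.1 : ℝ)) * gold_sq
  · rw [eq_div_iff hne]; linear_combination (-(cc * m.2.1 + m.2.2.2 : ℝ)) * gold_sq

end Pool.Agent.P.MP_e09449_gt
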