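import Mathlib

/-!
A space covered by simply connected open sets with a common point and path connected pairwise
intersections is simply connected.
-/

open Set Filter Topology unitInterval

namespace Pool.Agent.P.MP_e09449_gt

variable {X : Type*} [TopologicalSpace X]

lemma homotopic_of_isSimplyConnected {s : Set X} (hs : IsSimplyConnected s) {x y : X}
    (p q : Path x y) (hp : ∀ t, p t ∈ s) (hq : ∀ t, q t ∈ s) : p.Homotopic q := by
  have hx : x ∈ s := by simpa using hp 0
  have hy : y ∈ s := by simpa using hp 1
  have := hs.simplyConnectedSpace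
  let p' : Path (⟨x, hx⟩ : s) ⟨y, hy⟩ :=
    { toFun := fun t => ⟨p t, hp t⟩
      source' := by simp
      target' := by simp }
  let q' : Path (⟨x, hx⟩ : s) ⟨y, hy⟩ :=
    { toFun := fun t => ⟨q t, hq t⟩
      source' := by simp
      target' := by simp }
  have h := (SimplyConnectedSpace.paths_homotopic p' q').map
    (⟨Subtype.val, continuous_subtype_val⟩ : C(s, X))
  exact h

theorem simplyConnected_of_cover {ι : Type*} (A : ι → Set X) (x₀ : X)
    (hopen : ∀ i, IsOpen (A i)) (hcover : ∀ x, ∃ i, x ∈ A i) (hx₀ : ∀ i, x₀ ∈ A i)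
    (hsc : ∀ i, IsSimplyConnected (A i)) (hpc : ∀ i j, IsPathConnected (A i ∩ A j)) :
    SimplyConnectedSpace X := by
  classical
  have hjoin : ∀ x, ∀ i, x ∈ A i → ∃ p : Path x₀ x, ∀ t, p t ∈ A i := fun x i hx =>
    ((hsc i).isPathConnected.joinedIn x₀ (hx₀ i) x hx)
  -- a canonical path to each point
  choose idx hidx using hcover
  choose c hc using fun x => hjoin x (idx x) (hidx x)
  have hcanon : ∀ x i (p : Path x₀ x), (∀ t, p t ∈ A i) → p.Homotopic (c x) := by
    intro x i p hp
    have hx : x ∈ A i := by simpa using hp 1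
    obtain ⟨r, hr⟩ := (hpc i (idx x)).joinedIn x₀ ⟨hx₀ _, hx₀ _⟩ x ⟨hx, hidx x⟩
    exact (homotopic_of_isSimplyConnected (hsc i) p r hp (fun t => (hr t).1)).trans
      (homotopic_of_isSimplyConnected (hsc _) r (c x) (fun t => (hr t).2) (hc x))
  have hstep : ∀ x y i (p : Path x y), (∀ t, p t ∈ A i) → ((c x).trans p).Homotopic (c y) := by
    intro x y i p hp
    have hx : x ∈ A i := by simpa using hp 0
    obtain ⟨r, hr⟩ := hjoin x i hx
    have h1 : ((c x).trans p).Homotopic (r.trans p) :=
      Path.Homotopic.hcomp (hcanon x i r hr).symm (Path.Homotopic.refl p)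
    refine h1.trans (hcanon y i _ ?_)
    intro t
    have : (r.trans p) t ∈ range (r.trans p) := mem_range_self t
    rw [Path.trans_range] at this
    rcases this with ⟨s, hs⟩ | ⟨s, hs⟩
    · rw [← hs]; exact hr s
    · rw [← hs]; exact hp s
  have hall : ∀ x y (p : Path x y), ((c x).trans p).Homotopic (c y) := by
    intro x y p
    let S : Set I := {t | ((c (p 0)).trans (p.subpath 0 t)).Homotopic (c (p t))}
    have hloc : ∀ t : I, ∀ᶠ t' in 𝓝 t, (t ∈ S ↔ t' ∈ S) := by
      intro t
      have h1 : p ⁻¹' A (idx (p t)) ∈ 𝓝 t :=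
        p.continuous.continuousAt.preimage_mem_nhds ((hopen _).mem_nhds (hidx _))
      obtain ⟨ε, hε, hball⟩ := Metric.mem_nhds_iff.1 h1
      filter_upwards [Metric.ball_mem_nhds t hε] with t' ht'
      have hsub : ∀ a b : I, a ∈ Metric.ball t ε → b ∈ Metric.ball t ε →
          ∀ s, (p.subpath a b) s ∈ A (idx (p t)) := by
        intro a b ha hb s
        have : (p.subpath a b) s ∈ range (p.subpath a b) := mem_range_self s
        rw [Path.range_subpath] at this
        obtain ⟨u, hu, hu'⟩ := this
        rw [← hu']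
        apply hball
        rw [Metric.mem_ball, Subtype.dist_eq, Real.dist_eq, abs_lt] at ha hb ⊢
        rcases mem_uIcc.1 hu with ⟨h1, h2⟩ | ⟨h1, h2⟩
        · have h1' : (a : ℝ) ≤ u := h1
          have h2' : (u : ℝ) ≤ b := h2
          constructor <;> linarith [ha.1, hb.2]
        · have h1' : (b : ℝ) ≤ u := h1
          have h2' : (u : ℝ) ≤ a := h2
          constructor <;> linarith [hb.1, ha.2]
      have key : ∀ a b : I, a ∈ Metric.ball t ε → b ∈ Metric.ball t ε → a ∈ S → b ∈ S := by
        intro a b ha hb haS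
        have e1 : (p.subpath 0 b).Homotopic ((p.subpath 0 a).trans (p.subpath a b)) :=
          Path.Homotopic.symm ⟨Path.Homotopy.subpathTransSubpath p 0 a b⟩
        have e2 : ((c (p 0)).trans (p.subpath 0 b)).Homotopic
            ((c (p 0)).trans ((p.subpath 0 a).trans (p.subpath a b))) :=
          Path.Homotopic.hcomp (Path.Homotopic.refl _) e1
        have e3 : ((c (p 0)).trans ((p.subpath 0 a).trans (p.subpath a b))).Homotopic
            (((c (p 0)).trans (p.subpath 0 a)).trans (p.subpath a b)) :=
          Path.Homotopic.symm ⟨Path.Homotopy.transAssoc _ _ _⟩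
        have e4 : (((c (p 0)).trans (p.subpath 0 a)).trans (p.subpath a b)).Homotopic
            ((c (p a)).trans (p.subpath a b)) :=
          Path.Homotopic.hcomp haS (Path.Homotopic.refl _)
        exact e2.trans (e3.trans (e4.trans (hstep _ _ _ _ (hsub a b ha hb))))
      exact ⟨key t t' (Metric.mem_ball_self hε) ht', key t' t ht' (Metric.mem_ball_self hε)⟩
    have hS : IsClopen S := by
      constructor
      · rw [← isOpen_compl_iff, isOpen_iff_mem_nhds]
        intro t ht
        filter_upwards [hloc t] with t' ht' using fun h => ht (ht'.2 h)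
      · rw [isOpen_iff_mem_nhds]
        intro t ht
        filter_upwards [hloc t] with t' ht' using ht'.1 ht
    have h0 : (0 : I) ∈ S := by
      change ((c (p 0)).trans (p.subpath 0 0)).Homotopic (c (p 0))
      rw [Path.subpath_self]
      exact ⟨Path.Homotopy.transRefl _⟩
    have h1 : (1 : I) ∈ S := by
      rw [hS.eq_univ ⟨0, h0⟩]; trivial
    have h2 : ((c (p 0)).trans (p.subpath 0 1)).Homotopic (c (p 1)) := h1
    rw [Path.subpath_zero_one] at h2
    have hx : p 0 = x := p.source
    have hy : p 1 = y := p.target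
    revert h2
    generalize_proofs h h'
    generalize p 0 = x' at *
    generalize p 1 = y' at *
    subst hx; subst hy
    intro h2
    simpa using h2
  rw [simply_connected_iff_paths_homotopic']
  refine ⟨?_, ?_⟩
  · refine ⟨⟨x₀⟩, fun x y => ?_⟩
    exact ⟨(c x).symm.trans (c y)⟩
  · intro x y p q
    have h1 := hall x y p
    have h2 := hall x y q
    have e : ∀ r : Path x y, r.Homotopic ((c x).symm.trans ((c x).trans r)) := by
      intro r
      have a1 : r.Homotopic ((Path.refl x).trans r) :=
        Path.Homotopic.symm ⟨Path.Homotopy.reflTrans r⟩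
      have a2 : ((Path.refl x).trans r).Homotopic (((c x).symm.trans (c x)).trans r) :=
        Path.Homotopic.hcomp ⟨Path.Homotopy.reflSymmTrans (c x)⟩ (Path.Homotopic.refl r)
      exact a1.trans (a2.trans ⟨Path.Homotopy.transAssoc _ _ _⟩)
    exact (e p).trans ((Path.Homotopic.hcomp (Path.Homotopic.refl _) (h1.trans h2.symm)).trans
      (e q).symm)

end Pool.Agent.P.MP_e09449_gt
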