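import Pool.Agent.P.MP_e09449_gt.Space
import Pool.Agent.P.MP_e09449_gt.SC

/-!
`NN` is simply connected.
-/

open Set Filter Topology Manifold
open scoped ContDiff

noncomputable section

namespace Pool.Agent.P.MP_e09449_gt

lemma starConvex_Om : StarConvex ℝ (0 : EE) Om := by
  rw [starConvex_zero_iff]
  intro z hz t ht0 ht1
  have key : ∀ k : ℕ, ‖(t • z).2.1 ^ k * (t • z).2.2‖ ≤ ‖z.2.1 ^ k * z.2.2‖ := by
    intro k
    simp only [Prod.smul_snd, Prod.smul_fst, norm_mul, norm_pow, norm_smul, Real.norm_eq_abs,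
      abs_of_nonneg ht0]
    have h1 : t * ‖z.2.1‖ ≤ ‖z.2.1‖ := mul_le_of_le_one_left (norm_nonneg _) ht1
    have h2 : t * ‖z.2.2‖ ≤ ‖z.2.2‖ := mul_le_of_le_one_left (norm_nonneg _) ht1
    gcongr
  exact ⟨(key 2).trans_lt hz.1, (key 3).trans_lt hz.2⟩

lemma isSimplyConnected_src (n : ℤ) : IsSimplyConnected (src n) := by
  have h1 : ContractibleSpace Om := starConvex_Om.contractibleSpace ⟨0, zero_mem_Om⟩
  have h2 : SimplyConnectedSpace (chartN n).target := inferInstanceAs (SimplyConnectedSpace Om)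
  exact (chartN n).toHomeomorphSourceTarget.toHomotopyEquiv.simplyConnectedSpace

/-- The base sequence. -/
def bseq (j : ℤ) : ℂ := (Real.exp (-(Real.goldenRatio ^ (-j))) : ℝ)

lemma gold_zpow_rec (j : ℤ) : Real.goldenRatio ^ (-j) =
    Real.goldenRatio ^ (-(j + 1)) + Real.goldenRatio ^ (-(j + 2)) := by
  have h : Real.goldenRatio ≠ 0 := Real.goldenRatio_ne_zero
  have e1 : -j = -(j + 2) + 2 := by ring
  have e2 : -(j + 1) = -(j + 2) + 1 := by ring
  have e3 : Real.goldenRatio + 1 = Real.goldenRatio * Real.goldenRatio := by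
    rw [← Real.goldenRatio_sq]; ring
  rw [e1, e2, zpow_add₀ h, zpow_add₀ h, zpow_one, zpow_two, ← e3]
  generalize Real.goldenRatio = g
  ring

lemma bseq_rec : Rec bseq := by
  intro j
  simp only [bseq]
  rw [gold_zpow_rec j, neg_add, Real.exp_add]
  push_cast
  ring

lemma bseq_ne (j : ℤ) : bseq j ≠ 0 := by
  simp only [bseq]
  exact_mod_cast (Real.exp_pos _).ne'

lemma norm_bseq_lt (j : ℤ) : ‖bseq j‖ < 1 := by
  simp only [bseq, Complex.norm_real, Real.norm_eq_abs, abs_of_pos (Real.exp_pos _)]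
  rw [Real.exp_lt_one_iff]
  exact neg_neg_of_pos (zpow_pos Real.goldenRatio_pos _)

def bz (n : ℤ) : EE := (0, bseq n, (bseq (n + 2))⁻¹)

lemma sq_bz (n : ℤ) : sq n (bz n).2.1 (bz n).2.2 = bseq := (bseq_rec.eq_sq bseq_ne n).symm

lemma bz_mem (n : ℤ) : bz n ∈ Om := by
  constructor
  · rw [← sq_sub_one n, sq_bz]; exact norm_bseq_lt _
  · rw [← sq_sub_two n, sq_bz]; exact norm_bseq_lt _

/-- The base point, lying in all charts. -/
def y0 : NN := psi 0 (bz 0)

lemma y0_eq (n : ℤ) : y0 = psi n (bz n) := by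
  have hne : ∀ n, (bz n).2 ≠ 0 := fun n h => bseq_ne n (congrArg Prod.fst h)
  apply NN.ext'
  · rw [y0, psi_s (bz_mem _), psi_s (bz_mem _)]; simp [bz]
  · rw [y0, psi_x (bz_mem _), psi_x (bz_mem _), sq_bz, sq_bz]
  · rw [y0, psi_tag (bz_mem _), psi_tag (bz_mem _), if_neg (hne _), if_neg (hne _)]

lemma y0_x : y0.x = bseq := by rw [y0, psi_x (bz_mem _), sq_bz]

lemma y0_s : y0.s = 0 := by rw [y0, psi_s (bz_mem _)]; simp [bz]

lemma y0_mem (n : ℤ) : y0 ∈ src n := y0_eq n ▸ psi_mem_src (bz_mem n)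

lemma isPathConnected_torus : IsPathConnected {z : EE | z ∈ Om ∧ z.2.1 ≠ 0 ∧ z.2.2 ≠ 0} := by
  let C : Set EE := {w | 2 * w.2.1.re + w.2.2.re < 0 ∧ 3 * w.2.1.re + w.2.2.re < 0}
  have hC : Convex ℝ C := by
    intro u hu v hv a b ha hb hab
    simp only [C, mem_ofPred_eq, Prod.snd_add, Prod.smul_snd, Prod.fst_add, Prod.smul_fst,
      Complex.add_re, Complex.real_smul, Complex.mul_re, Complex.ofReal_re, Complex.ofReal_im,
      zero_mul, sub_zero] at hu hv ⊢
    rcases ha.eq_or_lt with rfl | ha'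
    · have : b = 1 := by linarith
      subst this
      constructor <;> linarith [hv.1, hv.2]
    · constructor
      · nlinarith [hu.1, hv.1]
      · nlinarith [hu.2, hv.2]
  have hne : C.Nonempty := ⟨(0, -1, 0), by simp [C]⟩
  have := (hC.isPathConnected hne).image
    (f := fun w : EE => ((w.1, Complex.exp w.2.1, Complex.exp w.2.2) : EE)) (by fun_prop)
  convert this using 1
  have hnorm : ∀ (k : ℕ) (u v : ℂ), ‖Complex.exp u ^ k * Complex.exp v‖ < 1 ↔
      k * u.re + v.re < 0 := by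
    intro k u v
    rw [← Complex.exp_nat_mul, ← Complex.exp_add, Complex.norm_exp, Real.exp_lt_one_iff]
    simp
  ext ⟨s, a, b⟩
  simp only [mem_ofPred_eq, mem_image, C]
  constructor
  · rintro ⟨hz, ha, hb⟩
    refine ⟨(s, Complex.log a, Complex.log b), ⟨?_, ?_⟩, ?_⟩
    · have := (hnorm 2 (Complex.log a) (Complex.log b)).1
        (by rw [Complex.exp_log ha, Complex.exp_log hb]; exact hz.1)
      exact_mod_cast this
    · have := (hnorm 3 (Complex.log a) (Complex.log b)).1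
        (by rw [Complex.exp_log ha, Complex.exp_log hb]; exact hz.2)
      exact_mod_cast this
    · simp [Complex.exp_log ha, Complex.exp_log hb]
  · rintro ⟨⟨s', u, v⟩, ⟨h1, h2⟩, h⟩
    simp only [Prod.mk.injEq] at h
    obtain ⟨rfl, rfl, rfl⟩ := h
    exact ⟨⟨(hnorm 2 u v).2 (by exact_mod_cast h1), (hnorm 3 u v).2 (by exact_mod_cast h2)⟩,
      Complex.exp_ne_zero _, Complex.exp_ne_zero _⟩

lemma isPathConnected_half : IsPathConnected {z : EE | z ∈ Om ∧ z.2.1 ≠ 0} := by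
  have hC : IsPathConnected (univ : Set (ℝ × ℂ)) := isPathConnected_univ
  have h1 := hC.image (f := fun w : ℝ × ℂ => ((w.1, Complex.exp w.2, 0) : EE)) (by fun_prop)
  have hsub : (fun w : ℝ × ℂ => ((w.1, Complex.exp w.2, 0) : EE)) '' univ ⊆
      {z : EE | z ∈ Om ∧ z.2.1 ≠ 0} := by
    rintro _ ⟨w, -, rfl⟩
    exact ⟨by simp [Om], Complex.exp_ne_zero _⟩
  refine ⟨(0, 1, 0), ⟨by simp [Om], by simp⟩, ?_⟩
  rintro ⟨s, a, b⟩ ⟨hz, ha⟩
  have j1 : JoinedIn {z : EE | z ∈ Om ∧ z.2.1 ≠ 0} (0, 1, 0) (s, a, 0) := by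
    refine (h1.joinedIn _ ⟨(0, 0), trivial, by simp⟩ _
      ⟨(s, Complex.log a), trivial, ?_⟩).mono hsub
    simp [Complex.exp_log ha]
  refine j1.trans (JoinedIn.of_segment_subset ?_)
  rintro _ ⟨t₁, t₂, h1, h2, h12, rfl⟩
  have ht : t₂ ≤ 1 := by linarith
  have e : t₁ • ((s, a, 0) : EE) + t₂ • ((s, a, b) : EE) = (s, a, t₂ • b) := by
    ext
    · simp [← add_mul, h12]
    · simp only [Prod.smul_mk, Prod.mk_add_mk, ← add_smul, h12, one_smul]
    · simp
  rw [e]
  refine ⟨?_, ha⟩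
  have key : ∀ k : ℕ, ‖a ^ k * (t₂ • b)‖ ≤ ‖a ^ k * b‖ := by
    intro k
    simp only [norm_mul, norm_smul, Real.norm_eq_abs, abs_of_nonneg h2]
    gcongr
    exact mul_le_of_le_one_left (norm_nonneg _) ht
  exact ⟨(key 2).trans_lt hz.1, (key 3).trans_lt hz.2⟩

lemma isPathConnected_inter_of_lt {n m : ℤ} (h : n < m) : IsPathConnected (src n ∩ src m) := by
  have e : src n ∩ src m = psi m '' {w | w ∈ Om ∧ w ∈ Dom (n - m)} := by
    ext y
    constructor
    · rintro ⟨hn, w, hw, rfl⟩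
      exact ⟨w, ⟨hw, ((psi_mem_src_iff hw).1 hn).1⟩, rfl⟩
    · rintro ⟨w, ⟨hw, hd⟩, rfl⟩
      refine ⟨(psi_mem_src_iff hw).2 ⟨hd, ?_⟩, psi_mem_src hw⟩
      have hs : sq n (TT m n w).2.1 (TT m n w).2.2 = sq m w.2.1 w.2.2 :=
        (congrArg (fun p => p.2.1) (nf_eq_iff.2 ⟨hd, rfl⟩)).symm
      constructor
      · rw [← sq_sub_one n, hs]; exact norm_sq_lt_one hw (by omega)
      · rw [← sq_sub_two n, hs]; exact norm_sq_lt_one hw (by omega)
  rw [e]
  refine IsPathConnected.image' ?_ ((continuousOn_psi m).mono fun w hw => hw.1)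
  by_cases h2 : n - m = -2
  · convert isPathConnected_half using 3 with w
    simp [Dom, h2]
  · convert isPathConnected_torus using 3 with w
    have h3 : n - m ≠ 0 := by omega
    have h4 : n - m ≠ 2 := by omega
    simp [Dom, h2, h3, h4]

instance : SimplyConnectedSpace NN := by
  refine simplyConnected_of_cover src y0 isOpen_src (fun y => ⟨_, mem_src_idx y⟩) y0_mem
    isSimplyConnected_src fun n m => ?_
  rcases lt_trichotomy n m with h | rfl | h
  · exact isPathConnected_inter_of_lt h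
  · rw [inter_self]; exact (isSimplyConnected_src n).isPathConnected
  · rw [inter_comm]; exact isPathConnected_inter_of_lt h

end Pool.Agent.P.MP_e09449_gt
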