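import Pool.Agent.P.MP_e09449_gt.Metric
import Pool.Agent.P.MP_e09449_gt.SimplyConn

/-!
The metric on `NN` is not complete.
-/

open Set Filter Topology Manifold Bundle MeasureTheory
open scoped ContDiff ENNReal

noncomputable section

namespace Pool.Agent.P.MP_e09449_gt

section general

variable {E : Type} [NormedAddCommGroup E] [NormedSpace ℝ E]
  {N : Type} [TopologicalSpace N] [ChartedSpace E N] [IsManifold 𝓘(ℝ, E) ∞ N]

lemma rdist_map_le (g : RMetric E N) {s : N → N} (hs : ContMDiff 𝓘(ℝ, E) 𝓘(ℝ, E) ∞ s) {l : ℝ}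
    (hl : 0 < l) (h : ∀ (x : N) (u : TangentSpace 𝓘(ℝ, E) x),
      ginner g (s x) (mfderiv 𝓘(ℝ, E) 𝓘(ℝ, E) s x u) (mfderiv 𝓘(ℝ, E) 𝓘(ℝ, E) s x u)
        = l ^ 2 * ginner g x u u) (x y : N) :
    rdist g (s x) (s y) ≤ ENNReal.ofReal l * rdist g x y := by
  let : RiemannianBundle (fun x : N => TangentSpace 𝓘(ℝ, E) x) := ⟨g.toRiemannianMetric⟩
  have hn : ∀ (x : N) (u : TangentSpace 𝓘(ℝ, E) x),
      ‖mfderiv 𝓘(ℝ, E) 𝓘(ℝ, E) s x u‖ₑ = ENNReal.ofReal l * ‖u‖ₑ := by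
    intro x u
    have e : ‖mfderiv 𝓘(ℝ, E) 𝓘(ℝ, E) s x u‖ = l * ‖u‖ := by
      rw [← sq_eq_sq₀ (norm_nonneg _) (by positivity), mul_pow, ← real_inner_self_eq_norm_sq,
        ← real_inner_self_eq_norm_sq]
      exact h x u
    rw [← ofReal_norm, ← ofReal_norm, e, ENNReal.ofReal_mul hl.le]
  have hc0 : ENNReal.ofReal l ≠ 0 := by simpa using hl
  have key : ∀ r, rdist g x y < r → rdist g (s x) (s y) ≤ ENNReal.ofReal l * r := by
    intro r hr
    obtain ⟨γ, h0, h1, hγ, hlen⟩ := exists_lt_of_riemannianEDist_lt hr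
    have hsγ : ContMDiffOn 𝓘(ℝ, ℝ) 𝓘(ℝ, E) 1 (s ∘ γ) (Icc 0 1) :=
      (hs.of_le (by simp)).comp_contMDiffOn hγ
    have e1 : rdist g (s x) (s y) ≤ pathELength 𝓘(ℝ, E) (s ∘ γ) 0 1 :=
      riemannianEDist_le_pathELength hsγ (by simp [h0]) (by simp [h1]) zero_le_one
    have e2 : pathELength 𝓘(ℝ, E) (s ∘ γ) 0 1 = ENNReal.ofReal l * pathELength 𝓘(ℝ, E) γ 0 1 := by
      rw [pathELength_eq_lintegral_mfderiv_Ioo, pathELength_eq_lintegral_mfderiv_Ioo,
        ← lintegral_const_mul' _ _ ENNReal.ofReal_ne_top]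
      refine setLIntegral_congr_fun measurableSet_Ioo fun t ht => ?_
      have hd : MDifferentiableAt 𝓘(ℝ, ℝ) 𝓘(ℝ, E) γ t :=
        (hγ.contMDiffAt (Icc_mem_nhds ht.1 ht.2)).mdifferentiableAt one_ne_zero
      rw [mfderiv_comp t ((hs _).mdifferentiableAt (by simp)) hd]
      exact hn _ _
    rw [e2] at e1
    exact e1.trans (by gcongr)
  refine le_of_forall_gt_imp_ge_of_dense fun c hc => ?_
  have : rdist g x y < c / ENNReal.ofReal l := by
    rw [ENNReal.lt_div_iff_mul_lt (Or.inl hc0) (Or.inl ENNReal.ofReal_ne_top), mul_comm]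
    exact hc
  refine (key _ this).trans ?_
  rw [ENNReal.mul_div_cancel hc0 ENNReal.ofReal_ne_top]

lemma rdist_ne_top [PreconnectedSpace N] [RegularSpace N] (g : RMetric E N) (x y : N) :
    rdist g x y ≠ ⊤ := by
  let : RiemannianBundle (fun x : N => TangentSpace 𝓘(ℝ, E) x) := ⟨g.toRiemannianMetric⟩
  have : IsContinuousRiemannianBundle E (fun x : N => TangentSpace 𝓘(ℝ, E) x) :=
    ⟨g.inner, g.contMDiff.continuous, fun _ _ _ => rfl⟩
  let : PseudoEMetricSpace N := PseudoEMetricSpace.ofRiemannianMetric 𝓘(ℝ, E) N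
  have h : IsClopen (Metric.eball x ⊤) := ⟨Metric.isClosed_eball_top, Metric.isOpen_eball⟩
  have h2 : y ∈ Metric.eball x ⊤ := by
    rw [h.eq_univ ⟨x, Metric.mem_eball_self (by simp)⟩]; trivial
  rw [Metric.mem_eball'] at h2
  exact h2.ne

lemma cauchy_of_geometric [RegularSpace N] (g : RMetric E N) {u : ℕ → N} {r C : ℝ≥0∞}
    (hr : r < 1) (hC : C ≠ ⊤) (hu : ∀ n, rdist g (u n) (u (n + 1)) ≤ C * r ^ n) :
    ∀ ε : ℝ≥0∞, 0 < ε → ∃ n₀, ∀ m ≥ n₀, ∀ n ≥ n₀, rdist g (u m) (u n) < ε := by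
  let : RiemannianBundle (fun x : N => TangentSpace 𝓘(ℝ, E) x) := ⟨g.toRiemannianMetric⟩
  have : IsContinuousRiemannianBundle E (fun x : N => TangentSpace 𝓘(ℝ, E) x) :=
    ⟨g.inner, g.contMDiff.continuous, fun _ _ _ => rfl⟩
  let : PseudoEMetricSpace N := PseudoEMetricSpace.ofRiemannianMetric 𝓘(ℝ, E) N
  exact EMetric.cauchySeq_iff.1 (cauchySeq_of_edist_le_geometric (f := u) r C hr hC hu)

end general

lemma gN_not_complete : ¬ IsCompleteMetric gN := by
  intro hc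
  let u : ℕ → NN := fun n => psi (-n) 0
  have hu : ∀ n, act 0 UU.one 1 (u n) = u (n + 1) := by
    intro n
    simp only [u]
    rw [act_psi _ _ _ zero_mem_Om]
    congr 1
    · push_cast; ring
    · simp [AA]
  have hl : 0 < Real.goldenRatio ^ (-(1 : ℤ)) := zpow_pos Real.goldenRatio_pos _
  have hgeo : ∀ n, rdist gN (u n) (u (n + 1)) ≤
      rdist gN (u 0) (u 1) * ENNReal.ofReal (Real.goldenRatio ^ (-(1 : ℤ))) ^ n := by
    intro n
    induction n with
    | zero => simp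
    | succ n ih =>
      have := rdist_map_le gN (contMDiff_act 0 UU.one 1) hl
        (fun x v => g0_act 0 UU.one 1 x v v) (u n) (u (n + 1))
      rw [hu, hu] at this
      refine this.trans ?_
      rw [pow_succ, ← mul_assoc, mul_comm]
      gcongr
  have hr : ENNReal.ofReal (Real.goldenRatio ^ (-(1 : ℤ))) < 1 := by
    rw [ENNReal.ofReal_lt_one]
    exact zpow_lt_one_of_neg₀ Real.one_lt_goldenRatio (by norm_num)
  obtain ⟨y, hy⟩ := hc u (cauchy_of_geometric gN hr (rdist_ne_top gN _ _) hgeo)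
  have hev := hy.eventually ((isOpen_src _).mem_nhds (mem_src_idx y))
  obtain ⟨n, hn⟩ := eventually_atTop.1 hev
  have key : ∀ m ≥ n, idx y = -m := by
    intro m hm
    obtain ⟨d1, d2⟩ := ((psi_mem_src_iff zero_mem_Om).1 (hn m hm)).1
    simp only [Prod.snd_zero, Prod.fst_zero, ne_eq, not_true_eq_false, false_or] at d1 d2
    omega
  have e1 := key n le_rfl
  have e2 := key (n + 1) (by omega)
  omega

end Pool.Agent.P.MP_e09449_gt
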