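import Pool.Agent.P.MP_e09449_gt.Metric

/-!
The metric near the origin of the chart `0`: curvature and holonomy.
-/

open Set Filter Topology Manifold Bundle
open scoped ContDiff

noncomputable section

namespace Pool.Agent.P.MP_e09449_gt

def U0 : Set EE := {z | ‖z.2.1‖ < 1 / 3 ∧ ‖z.2.2‖ < 1 / 3}

lemma isOpen_U0 : IsOpen U0 := by
  have h1 : IsOpen {z : EE | ‖z.2.1‖ < 1 / 3} := isOpen_lt (by fun_prop) continuous_const
  have h2 : IsOpen {z : EE | ‖z.2.2‖ < 1 / 3} := isOpen_lt (by fun_prop) continuous_const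
  exact h1.inter h2

lemma U0_subset : U0 ⊆ Om := by
  intro z hz
  have := poly_bound (z := z) (by linarith [hz.1]) (by linarith [hz.2])
  exact ⟨by linarith [this.1], by linarith [this.2]⟩

lemma norm_zpow_le_one {b : ℂ} (hb : ‖b‖ ≤ 1) {e : ℤ} (he : 0 ≤ e) : ‖b ^ e‖ ≤ 1 := by
  obtain ⟨k, rfl⟩ := Int.eq_ofNat_of_zero_le he
  rw [zpow_natCast, norm_pow]
  exact pow_le_one₀ (norm_nonneg _) hb

lemma norm_sq_le_fst {a b : ℂ} (ha : ‖a‖ ≤ 1) (hb : ‖b‖ ≤ 1) {j : ℤ} (hj : j ≤ 1) :
    ‖sq 0 a b j‖ ≤ ‖a‖ := by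
  have h1 : 0 < Int.fib (0 + 2 - j) := fib_pos_of_pos (by omega)
  have h2 : 0 ≤ Int.fib (0 - j) := fib_nonneg_of_ge (by omega)
  have e : a ^ Int.fib (0 + 2 - j) = a * a ^ (Int.fib (0 + 2 - j) - 1) := by
    conv_lhs => rw [show Int.fib (0 + 2 - j) = 1 + (Int.fib (0 + 2 - j) - 1) by ring]
    rw [zpow_add_nonneg a (by norm_num) (by omega), zpow_one]
  rw [sq, e, norm_mul, norm_mul, mul_assoc]
  apply mul_le_of_le_one_right (norm_nonneg _)
  exact mul_le_one₀ (norm_zpow_le_one ha (by omega)) (norm_nonneg _) (norm_zpow_le_one hb h2)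

lemma BB_psi_zero {z : EE} (hz : z ∈ U0) {m : ℤ} (hm : m ≠ 0) : BB m (psi 0 z) = 0 := by
  by_contra hne
  have hO := U0_subset hz
  obtain ⟨hs, hb⟩ := BB_ne_zero hne
  obtain ⟨hd, hw⟩ := (psi_mem_src_iff hO).1 hs
  rw [kap_psi hO] at hb
  obtain ⟨b1, b2⟩ := beta_ne_zero hb
  have hseq : sq 0 z.2.1 z.2.2 = sq m (TT 0 m z).2.1 (TT 0 m z).2.2 :=
    congrArg (fun p => p.2.1) (nf_eq_iff.2 ⟨hd, rfl⟩)
  obtain ⟨d1, d2⟩ := hd
  have small : ∀ c : ℂ, c ≠ 0 → ‖c‖ < 1 / 3 → 3 < ‖c⁻¹‖ := by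
    intro c hc h
    rw [norm_inv, lt_inv_comm₀ (by norm_num) (norm_pos_iff.2 hc)]
    linarith
  rcases lt_trichotomy m 1 with h | h | h
  · have ha : z.2.1 ≠ 0 := by
      rcases d1 with h | h | h
      · exact h
      · omega
      · omega
    have hne : sq 0 z.2.1 z.2.2 (m + 2) ≠ 0 := by
      rcases d2 with h | h | h
      · exact sq_ne_zero ha h _
      · omega
      · have : m + 2 = 0 := by omega
        rw [this, sq_self]; exact ha
    have := small _ hne ((norm_sq_le_fst (by linarith [hz.1]) (by linarith [hz.2])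
      (by omega)).trans_lt hz.1)
    change ‖(sq 0 z.2.1 z.2.2 (m + 2))⁻¹‖ ≤ 5 / 2 at b2
    linarith
  · subst h
    have ha : z.2.1 ≠ 0 := by
      rcases d1 with h | h | h
      · exact h
      · omega
      · omega
    have hb : z.2.2 ≠ 0 := by
      rcases d2 with h | h | h
      · exact h
      · omega
      · omega
    change ‖(sq 0 z.2.1 z.2.2 (0 + 3))⁻¹‖ ≤ 5 / 2 at b2
    have := small _ (sq_ne_zero (n := 0) ha hb (0 + 3)) (by
      rw [sq_add_three, norm_mul, norm_pow]
      have := norm_nonneg z.2.1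
      have := norm_nonneg z.2.2
      nlinarith [hz.1, hz.2])
    linarith
  · have hb : z.2.2 ≠ 0 := by
      rcases d2 with h | h | h
      · exact h
      · omega
      · omega
    have e := congrFun hseq (0 + 2)
    rw [sq_add_two] at e
    have h3 := small _ hb hz.2
    rw [e] at h3
    rcases (show m = 0 + 2 ∨ 0 + 2 ≤ m - 1 by omega) with h' | h'
    · rw [← h', sq_self] at h3
      linarith
    · linarith [norm_sq_lt_one (n := m) hw h']

/-- Projection killing the first coordinate. -/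
def pr : EE →L[ℝ] EE := (0 : ℝ →L[ℝ] ℝ).prodMap (ContinuousLinearMap.id ℝ (ℂ × ℂ))

lemma pr_apply (z : EE) : pr z = (0, z.2) := rfl

lemma eucl_pr_pr (z u : EE) : eucl (pr z) (pr u) = eucl (pr z) u := by
  simp [eucl_apply, pr_apply]

lemma pullback_eq {z : EE} (hz : z ∈ U0) (u v : EE) :
    pullbackForm gN (psi 0) z u v = Real.exp (eucl (pr z) (pr z)) * eucl u v := by
  have hO := U0_subset hz
  change g0 (psi 0 z) (dp 0 z u) (dp 0 z v) = _
  rw [g0_apply_eq_sum (F := {0}) (fun m hm => by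
    by_contra h
    exact hm (BB_psi_zero hz (by simpa using h))), Finset.sum_singleton, HH_apply,
    dk_dp_self hO, dk_dp_self hO, BB_of_mem (psi_mem_src hO), kap_psi_self hO,
    beta_eq (by linarith [hz.1]) (by linarith [hz.2]), eucl_self]
  simp [pr_apply]

lemma fderiv_pullback {z : EE} (hz : z ∈ U0) (u v w : EE) :
    fderiv ℝ (fun y => pullbackForm gN (psi 0) y v w) z u =
      2 * Real.exp (eucl (pr z) (pr z)) * eucl (pr z) u * eucl v w := by
  have e : (fun y => pullbackForm gN (psi 0) y v w) =ᶠ[𝓝 z]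
      fun y => Real.exp (eucl (pr y) (pr y)) * eucl v w := by
    filter_upwards [isOpen_U0.mem_nhds hz] with y hy using pullback_eq hy v w
  rw [e.fderiv_eq]
  have h1 := eucl.hasFDerivAt_of_bilinear (pr.hasFDerivAt (x := z)) (pr.hasFDerivAt (x := z))
  have h2 := (h1.exp).mul_const (eucl v w)
  rw [h2.fderiv]
  simp only [_root_.smul_apply, _root_.add_apply, ContinuousLinearMap.precompR_apply,
    ContinuousLinearMap.precompL_apply, ContinuousLinearMap.compL_apply,
    ContinuousLinearMap.comp_apply, smul_eq_mul, eucl_pr_pr, eucl_symm (pr u) (pr z)]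
  ring

/-- The Christoffel symbols. -/
def Gam (z : EE) : EE →L[ℝ] EE →L[ℝ] EE :=
  (eucl (pr z)).smulRight (ContinuousLinearMap.id ℝ EE) +
    ContinuousLinearMap.smulRightL ℝ EE EE (eucl (pr z)) -
    ((ContinuousLinearMap.smulRightL ℝ EE EE).flip (pr z)).comp eucl

lemma Gam_apply (z u v : EE) :
    Gam z u v = eucl (pr z) u • v + eucl (pr z) v • u - eucl u v • pr z := rfl

/-- The local coordinates near the origin. -/
def C0 : LocalCoords gN where
  U := U0
  φ := psi 0
  Γ := Gam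
  isOpen := isOpen_U0
  smooth z hz := (contMDiffAt_psi (U0_subset hz)).contMDiffWithinAt
  bijective z hz := dp_bijective (U0_subset hz)
  christoffel z hz u v w := by
    rw [fderiv_pullback hz, fderiv_pullback hz, fderiv_pullback hz, pullback_eq hz, Gam_apply]
    simp only [map_add, map_sub, map_smul, _root_.add_apply, _root_.sub_apply,
      _root_.smul_apply, smul_eq_mul]
    ring

lemma fderiv_Gam (z u v w : EE) : fderiv ℝ (fun y => Gam y v w) z u = Gam u v w := by
  let L : EE →L[ℝ] EE := ((eucl.flip v).comp pr).smulRight w + ((eucl.flip w).comp pr).smulRight v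
    - eucl v w • pr
  have : (fun y => Gam y v w) = L := rfl
  rw [this, L.fderiv]
  rfl

def es : EE := (1, 0, 0)

lemma gN_nonFlat : IsNonFlat gN := by
  refine ⟨C0, 0, by simp [C0, U0], (0, 1, 0), es, es, ?_⟩
  change fderiv ℝ (fun y => Gam y es es) 0 (0, 1, 0) - fderiv ℝ (fun y => Gam y (0, 1, 0) es) 0 es
    + Gam 0 (0, 1, 0) (Gam 0 es es) - Gam 0 es (Gam 0 (0, 1, 0) es) ≠ 0
  rw [fderiv_Gam, fderiv_Gam]
  simp [Gam_apply, eucl_apply', pr_apply, es]

/-- The tangent vector of `NN` given by a vector in the chart `0`. -/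
def tv (z X : EE) : TangentBundle 𝓘(ℝ, EE) NN := ⟨psi 0 z, dφ (psi 0) z X⟩

lemma step_of {c X : ℝ → EE} (hc : ContDiff ℝ ∞ c) (hX : ContDiff ℝ ∞ X)
    (h : ∀ t ∈ Icc (0 : ℝ) 1, c t ∈ U0 ∧ deriv X t + Gam (c t) (deriv c t) (X t) = 0)
    {z₀ X₀ z₁ X₁ : EE} (h0 : c 0 = z₀) (h0' : X 0 = X₀) (h1 : c 1 = z₁) (h1' : X 1 = X₁) :
    ParallelStep gN (tv z₀ X₀) (tv z₁ X₁) := by
  subst h0 h0' h1 h1'
  exact ⟨C0, c, X, hc, hX, h, rfl, rfl⟩

section loops

variable {e : EE} (he1 : e.1 = 0) (he2 : eucl e e = 1)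
include he1 he2

lemma unit_bound : ‖e.2.1‖ ≤ 1 ∧ ‖e.2.2‖ ≤ 1 := by
  rw [eucl_self, he1] at he2
  constructor <;> nlinarith [norm_nonneg e.2.1, norm_nonneg e.2.2]

lemma mem_U0 (L τ : ℝ) (h0 : 0 ≤ τ) (h1 : τ ≤ 1 / 4) : L • es + τ • e ∈ U0 := by
  obtain ⟨b1, b2⟩ := unit_bound he1 he2
  constructor
  · simp only [es, Prod.snd_add, Prod.smul_snd, Prod.fst_add, Prod.smul_fst, smul_zero, zero_add,
      norm_smul, Real.norm_eq_abs, abs_of_nonneg h0]
    nlinarith
  · simp only [es, Prod.snd_add, Prod.smul_snd, smul_zero, zero_add,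
      norm_smul, Real.norm_eq_abs, abs_of_nonneg h0]
    nlinarith

omit he2 in
lemma pr_comb (L τ : ℝ) : pr (L • es + τ • e) = τ • e := by
  obtain ⟨s, a, b⟩ := e
  simp only at he1
  subst he1
  simp [pr_apply, es]

/-- Parallel transport along a radial segment. -/
lemma step_radial (L α β : ℝ) (hα : ∀ t ∈ Icc (0 : ℝ) 1, 0 ≤ α + β * t ∧ α + β * t ≤ 1 / 4)
    (Z : EE) : ParallelStep gN (tv (L • es + α • e) (Real.exp (-(α ^ 2) / 2) • Z))
      (tv (L • es + (α + β) • e) (Real.exp (-((α + β) ^ 2) / 2) • Z)) := by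
  refine step_of (c := fun t => L • es + (α + β * t) • e)
    (X := fun t => Real.exp (-((α + β * t) ^ 2) / 2) • Z) (by fun_prop) (by fun_prop) ?_
    (by simp) (by simp) (by simp) (by simp)
  intro t ht
  refine ⟨mem_U0 he1 he2 L _ (hα t ht).1 (hα t ht).2, ?_⟩
  have d0 : HasDerivAt (fun t : ℝ => α + β * t) β t := by
    simpa using ((hasDerivAt_id t).const_mul β).const_add α
  have d1 : HasDerivAt (fun t => L • es + (α + β * t) • e) (β • e) t :=
    (d0.smul_const e).const_add _
  have d2 : HasDerivAt (fun t => Real.exp (-((α + β * t) ^ 2) / 2) • Z)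
      ((Real.exp (-((α + β * t) ^ 2) / 2) * (-(2 * (α + β * t) * β) / 2)) • Z) t := by
    have := (((d0.pow 2).neg.div_const 2).exp).smul_const Z
    simpa using this
  rw [d1.deriv, d2.deriv, Gam_apply, pr_comb he1]
  simp only [map_smul, _root_.smul_apply, smul_eq_mul, he2]
  module

omit he2 in
lemma eucl_e_es : eucl e es = 0 := by simp [eucl_apply, es, he1]

omit he1 he2 in
lemma eucl_es_es : eucl es es = 1 := by simp [eucl_apply, es]

/-- The quarter turn in the plane of `es` and `e`. -/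
def rot (e Z : EE) : EE :=
  Z - eucl es Z • es - eucl e Z • e - eucl e Z • es + eucl es Z • e

/-- Parallel transport along a segment parallel to the first axis. -/
lemma step_rotate (Z : EE) : ParallelStep gN (tv ((0 : ℝ) • es + (1 / 4 : ℝ) • e) Z)
    (tv ((2 * Real.pi) • es + (1 / 4 : ℝ) • e) (rot e Z)) := by
  set α := eucl es Z
  set β := eucl e Z
  refine step_of (c := fun t => (2 * Real.pi * t) • es + (1 / 4 : ℝ) • e)
    (X := fun t => (Z - α • es - β • e) +
      (α * Real.cos (Real.pi / 2 * t) - β * Real.sin (Real.pi / 2 * t)) • es +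
      (α * Real.sin (Real.pi / 2 * t) + β * Real.cos (Real.pi / 2 * t)) • e)
    (by fun_prop) (by fun_prop) ?_ (by simp) (by simp; abel) (by simp) ?_
  · intro t _
    refine ⟨mem_U0 he1 he2 _ _ (by norm_num) le_rfl, ?_⟩
    have d0 : HasDerivAt (fun t : ℝ => Real.pi / 2 * t) (Real.pi / 2) t := by
      simpa using (hasDerivAt_id t).const_mul (Real.pi / 2)
    have d1 : HasDerivAt (fun t => (2 * Real.pi * t) • es + (1 / 4 : ℝ) • e)
        ((2 * Real.pi) • es) t := by
      have : HasDerivAt (fun t : ℝ => 2 * Real.pi * t) (2 * Real.pi) t := by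
        simpa using (hasDerivAt_id t).const_mul (2 * Real.pi)
      exact (this.smul_const es).add_const _
    have d2 := ((((d0.cos.const_mul α).sub (d0.sin.const_mul β)).smul_const es).const_add
      (Z - α • es - β • e)).add (((d0.sin.const_mul α).add (d0.cos.const_mul β)).smul_const e)
    rw [d1.deriv]
    erw [d2.deriv]
    rw [Gam_apply, pr_comb he1]
    have h1 := eucl_e_es he1
    have h2 : eucl es e = 0 := by rw [eucl_symm]; exact h1
    simp only [map_smul, map_add, map_sub, _root_.smul_apply, smul_eq_mul, he2, h1, h2,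
      eucl_es_es]
    module
  · simp only [rot, mul_one, Real.cos_pi_div_two, Real.sin_pi_div_two]
    module

omit he1 he2 in
lemma step_axis (L : ℝ) (Z : EE) : ParallelStep gN (tv (L • es) Z) (tv 0 Z) := by
  refine step_of (c := fun t => (L - L * t) • es) (X := fun _ => Z) (by fun_prop) (by fun_prop) ?_
    (by simp) rfl (by simp) rfl
  intro t _
  refine ⟨by simp [U0, es], ?_⟩
  have : pr ((L - L * t) • es) = 0 := by simp [pr_apply, es]
  rw [Gam_apply, this]
  simp

omit he1 he2 in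
lemma rot_smul (c : ℝ) (Z : EE) : rot e (c • Z) = c • rot e Z := by
  simp only [rot, map_smul, smul_eq_mul]
  module

lemma loop_rot (Z : EE) : Relation.ReflTransGen (ParallelStep gN) (tv 0 Z) (tv 0 (rot e Z)) := by
  have s1 := step_radial he1 he2 0 0 (1 / 4) (fun t ht => ⟨by linarith [ht.1], by linarith [ht.2]⟩) Z
  have s2 := step_rotate he1 he2 (Real.exp (-((0 + 1 / 4 : ℝ) ^ 2) / 2) • Z)
  have s3 := step_radial he1 he2 (2 * Real.pi) (1 / 4) (-(1 / 4))
    (fun t ht => ⟨by linarith [ht.2], by linarith [ht.1]⟩) (rot e Z)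
  have s4 := step_axis (2 * Real.pi) (rot e Z)
  rw [rot_smul] at s2
  simp only [zero_add, add_neg_cancel, zero_smul, add_zero, ne_eq, OfNat.ofNat_ne_zero,
    not_false_eq_true, zero_pow, neg_zero, zero_div, Real.exp_zero, one_smul] at s1 s2 s3
  exact (((Relation.ReflTransGen.single s1).tail s2).tail s3).tail s4

end loops

lemma eq_bot_or_top (W : Submodule ℝ EE)
    (h : ∀ e : EE, e.1 = 0 → eucl e e = 1 → ∀ Z ∈ W, rot e Z ∈ W) : W = ⊥ ∨ W = ⊤ := by
  by_cases hW : W = ⊥
  · exact Or.inl hW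
  right
  obtain ⟨Z, hZ, hZ0⟩ := Submodule.exists_mem_ne_zero_of_ne_bot hW
  have hes : es ∈ W := by
    have key : ∀ e : EE, e.1 = 0 → eucl e e = 1 → eucl es Z ^ 2 + eucl e Z ^ 2 ≠ 0 → es ∈ W := by
      intro e he1 he2 hne
      have h1 := eucl_e_es he1
      have h2 : eucl es e = 0 := by rw [eucl_symm]; exact h1
      have r1 := h e he1 he2 Z hZ
      have r2 := h e he1 he2 _ r1
      have r3 := h e he1 he2 _ r2
      have p := W.sub_mem hZ r2
      have q := W.sub_mem r1 r3
      have m := W.smul_mem (2 * (eucl es Z ^ 2 + eucl e Z ^ 2))⁻¹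
        (W.sub_mem (W.smul_mem (eucl es Z) p) (W.smul_mem (eucl e Z) q))
      convert m using 1
      simp only [rot, map_smul, map_add, map_sub, smul_eq_mul, he2, h1, h2, eucl_es_es]
      have : (2 * (eucl es Z ^ 2 + eucl e Z ^ 2))⁻¹ * (2 * (eucl es Z ^ 2 + eucl e Z ^ 2)) = 1 :=
        inv_mul_cancel₀ (mul_ne_zero two_ne_zero hne)
      match_scalars
      · linear_combination -this
      · ring
      · ring
    by_contra hcon
    have z1 := fun e h1 h2 => not_not.1 (mt (key e h1 h2) hcon)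
    have a1 := z1 (0, 1, 0) rfl (by simp [eucl_apply'])
    have a2 := z1 (0, Complex.I, 0) rfl (by simp [eucl_apply'])
    have a3 := z1 (0, 0, 1) rfl (by simp [eucl_apply'])
    have a4 := z1 (0, 0, Complex.I) rfl (by simp [eucl_apply'])
    simp only [eucl_apply', es, Complex.one_re, Complex.one_im, Complex.zero_re, Complex.zero_im,
      Complex.I_re, Complex.I_im] at a1 a2 a3 a4
    apply hZ0
    obtain ⟨s, ⟨a, a'⟩, ⟨b, b'⟩⟩ := Z
    simp only at a1 a2 a3 a4
    have e0 : s = 0 := by nlinarith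
    have e1 : a = 0 := by nlinarith
    have e2 : a' = 0 := by nlinarith
    have e3 : b = 0 := by nlinarith
    have e4 : b' = 0 := by nlinarith
    subst e0 e1 e2 e3 e4
    rfl
  have hall : ∀ e : EE, e.1 = 0 → eucl e e = 1 → e ∈ W := by
    intro e he1 he2
    have := h e he1 he2 es hes
    simpa [rot, eucl_es_es, eucl_e_es he1] using this
  have a1 := hall (0, 1, 0) rfl (by simp [eucl_apply'])
  have a2 := hall (0, Complex.I, 0) rfl (by simp [eucl_apply'])
  have a3 := hall (0, 0, 1) rfl (by simp [eucl_apply'])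
  have a4 := hall (0, 0, Complex.I) rfl (by simp [eucl_apply'])
  rw [eq_top_iff]
  rintro ⟨s, a, b⟩ -
  have := W.add_mem (W.add_mem (W.add_mem (W.add_mem (W.smul_mem s hes) (W.smul_mem a.re a1))
    (W.smul_mem a.im a2)) (W.smul_mem b.re a3)) (W.smul_mem b.im a4)
  convert this using 1
  simp [es]

lemma gN_irreducible : HolonomyIrreducibleAt gN (psi 0 0) := by
  intro W hW
  let D : EE →ₗ[ℝ] TangentSpace 𝓘(ℝ, EE) (psi 0 0) := (dp 0 0).toLinearMap
  have hD : Function.Bijective D := dp_bijective zero_mem_Om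
  have h := eq_bot_or_top (W.comap D) fun e he1 he2 Z hZ =>
    hW _ hZ _ (loop_rot he1 he2 Z)
  rcases h with h | h
  · left
    rw [eq_bot_iff]
    intro v hv
    obtain ⟨u, rfl⟩ := hD.2 v
    have : u ∈ W.comap D := hv
    rw [h, Submodule.mem_bot] at this
    rw [this, map_zero]
    exact Submodule.zero_mem _
  · right
    rw [eq_top_iff]
    intro v _
    obtain ⟨u, rfl⟩ := hD.2 v
    have : u ∈ W.comap D := h ▸ Submodule.mem_top
    exact this

end Pool.Agent.P.MP_e09449_gt
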