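import Pool.Agent.P.MP_e09449_gt.Closure
import Pool.Agent.P.MP_e09449_gt.Local
import Pool.Agent.P.MP_e09449_gt.Incomplete

/-!
The example as an LCP manifold.
-/

open Set Filter Topology Manifold
open scoped ContDiff

noncomputable section

namespace Pool.Agent.P.MP_e09449_gt

lemma connectedSpace_MM : ConnectedSpace MM :=
  projM_surjective.connectedSpace isCoveringMap_projM.continuous

/-- The example. -/
def exLCP : LCP where
  V := ℝ
  E := EE
  N := NN
  g := gN
  nonFlat := gN_nonFlat
  nonComplete := gN_not_complete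
  irreducibleHol := ⟨_, gN_irreducible⟩
  M := MM
  iM₃ := compactSpace_MM
  iM₄ := connectedSpace_MM
  iM₅ := chartedMM
  iM₆ := isManifold_quot isCoveringMap_projM.isLocalHomeomorph deck_trans _
  proj := projM
  surjective := projM_surjective
  covering := isCoveringMap_projM
  localDiffeo := isLocalDiffeomorph_quot isCoveringMap_projM.isLocalHomeomorph deck_trans _
  similarity := fun s hs => by
    obtain ⟨g, rfl⟩ := (isDeck_iff s).1 hs
    exact ⟨_, zpow_pos Real.goldenRatio_pos _, scalesBy_smul g⟩
  nonExact := ⟨_, (isDeck_iff _).2 ⟨GG.mk' 0 0 1, rfl⟩, not_scalesBy_one⟩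

lemma exLCP_Pbar0 : exLCP.Pbar0 = range fun a : ℝ × Circle × Circle => jj (a, 0) :=
  component_eq

/-- The identity component of the closure of `P` is `ℝ × T²`. -/
def exHomeo : (ℝ × Circle × Circle) ≃ₜ exLCP.Pbar0 :=
  isEmbedding_jj_slice.toHomeomorph.trans (Homeomorph.setCongr exLCP_Pbar0.symm)

lemma exHomeo_coe (a : ℝ × Circle × Circle) : (exHomeo a : C(exLCP.N, exLCP.N)) = jj (a, 0) := rfl

end Pool.Agent.P.MP_e09449_gt
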