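import Mathlib

/-!
Smooth structure on the target of a surjective local homeomorphism whose fibres are permuted
transitively by smooth deck maps.
-/

open Set Filter Topology Manifold
open scoped ContDiff

noncomputable section

namespace Pool.Agent.P.MP_e09449_gt

variable {E : Type*} [NormedAddCommGroup E] [NormedSpace ℝ E] {H : Type*} [TopologicalSpace H]
  {I : ModelWithCorners ℝ E H} {X : Type*} [TopologicalSpace X] [ChartedSpace H X]
  {Y : Type*} [TopologicalSpace Y] {f : X → Y} (hf : IsLocalHomeomorph f)
  (hdeck : ∀ x x', f x = f x' → ∃ φ : X → X, ContMDiff I I ∞ φ ∧ φ x = x' ∧ ∀ y, f (φ y) = f y)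

include hdeck in
lemma contMDiffAt_localInverse_comp (x₀ : X) {x : X} (hx : f x ∈ (hf.localInverseAt x₀).source) :
    ContMDiffAt I I ∞ (hf.localInverseAt x₀ ∘ f) x := by
  obtain ⟨φ, hφ, h1, h2⟩ := hdeck x (hf.localInverseAt x₀ (f x))
    (hf.apply_localInverseAt_of_mem hx).symm
  refine (hφ x).congr_of_eventuallyEq ?_
  have : φ ⁻¹' (hf.localInverseAt x₀).target ∈ 𝓝 x := by
    apply hφ.continuous.continuousAt.preimage_mem_nhds
    rw [h1]
    exact (hf.localInverseAt x₀).open_target.mem_nhds ((hf.localInverseAt x₀).map_source hx)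
  filter_upwards [this] with y hy
  have := (hf.localInverseAt x₀).right_inv hy
  rw [hf.localInverseAt_symm, h2] at this
  exact this

variable [IsManifold I ∞ X] {g : Y → X} (hg : Function.RightInverse g f)

include hdeck in
lemma isManifold_quot :
    letI := hf.chartedSpaceOfRightInverse (H := H) hg
    IsManifold I ∞ Y := by
  let := hf.chartedSpaceOfRightInverse (H := H) hg
  apply isManifold_of_contDiffOn
  rintro e e' ⟨a, rfl⟩ ⟨b, rfl⟩
  set T := ((hf.localInverseAt (g a)).trans (chartAt H (g a))).symm.trans
    ((hf.localInverseAt (g b)).trans (chartAt H (g b))) with hT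
  have h : ContMDiffOn I I ∞ T T.source := by
    intro w hw
    simp only [hT, OpenPartialHomeomorph.trans_source, OpenPartialHomeomorph.symm_source,
      OpenPartialHomeomorph.trans_target, mem_inter_iff, mem_preimage,
      OpenPartialHomeomorph.coe_trans_symm, Function.comp, hf.localInverseAt_symm] at hw
    obtain ⟨⟨w1, w2⟩, w3, w4⟩ := hw
    apply ContMDiffAt.contMDiffWithinAt
    have e : ⇑T = chartAt H (g b) ∘ (hf.localInverseAt (g b) ∘ f) ∘ (chartAt H (g a)).symm := by
      funext w
      simp [hT]
    rw [e]
    refine ContMDiffAt.comp w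
      (contMDiffOn_chart.contMDiffAt ((chartAt H (g b)).open_source.mem_nhds w4)) ?_
    exact ContMDiffAt.comp w (contMDiffAt_localInverse_comp hf hdeck _ w3)
      (contMDiffOn_chart_symm.contMDiffAt ((chartAt H (g a)).open_target.mem_nhds w1))
  rintro z ⟨hz, w, rfl⟩
  rw [mem_preimage, I.left_inv] at hz
  have := (contMDiffWithinAt_iff.1 (h w hz)).2
  rw [extChartAt_self_eq, extChartAt_self_eq] at this
  exact this

omit [IsManifold I ∞ X] in
include hdeck in
lemma isLocalDiffeomorph_quot :
    letI := hf.chartedSpaceOfRightInverse (H := H) hg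
    IsLocalDiffeomorph I I ∞ f := by
  let := hf.chartedSpaceOfRightInverse (H := H) hg
  have hc : ∀ q : Y, chartAt H q = (hf.localInverseAt (g q)).trans (chartAt H (g q)) :=
    fun _ => rfl
  have hgq : ∀ q : Y, hf.localInverseAt (g q) q = g q := by
    intro q
    conv_lhs => rw [← hg q]
    rw [hg q]
    have := hf.localInverseAt_apply_self (x := g q)
    rwa [hg q] at this
  have hsrc : ∀ q : Y, q ∈ (hf.localInverseAt (g q)).source := by
    intro q
    have := hf.apply_self_mem_localInverseAt_source (x := g q)
    rwa [hg q] at this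
  have h1 : ∀ x, ContMDiffAt I I ∞ f x := by
    intro x
    rw [contMDiffAt_iff_target]
    refine ⟨hf.continuous.continuousAt, ?_⟩
    have e : extChartAt I (f x) ∘ f =
        extChartAt I (g (f x)) ∘ (hf.localInverseAt (g (f x)) ∘ f) := by
      funext y
      simp [hc]
    rw [e]
    refine ContMDiffAt.comp x ?_ (contMDiffAt_localInverse_comp hf hdeck _ (hsrc _))
    simp only [Function.comp, hgq]
    exact contMDiffAt_extChartAt
  intro x
  refine ⟨{ toPartialEquiv := (hf.localInverseAt x).symm.toPartialEquiv
            open_source := (hf.localInverseAt x).open_target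
            open_target := (hf.localInverseAt x).open_source
            contMDiffOn_toFun := ?_
            contMDiffOn_invFun := ?_ }, hf.self_mem_localInverseAt_target, ?_⟩
  · intro y _
    have : ⇑(hf.localInverseAt x).symm.toPartialEquiv = f := hf.localInverseAt_symm x
    rw [this]
    exact (h1 y).contMDiffWithinAt
  · intro q hq
    apply ContMDiffAt.contMDiffWithinAt
    change ContMDiffAt I I ∞ (hf.localInverseAt x) q
    rw [contMDiffAt_iff_source]
    have h2 := contMDiffAt_localInverse_comp hf hdeck x (x := g q) (by rw [hg q]; exact hq)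
    rw [contMDiffAt_iff_source] at h2
    have e1 : extChartAt I q q = extChartAt I (g q) (g q) := by
      simp [hc, hgq]
    have e2 : (hf.localInverseAt x) ∘ (extChartAt I q).symm =
        ((hf.localInverseAt x) ∘ f) ∘ (extChartAt I (g q)).symm := by
      funext y
      simp [hc]
    rw [e1, e2]
    exact h2
  · intro y _
    exact (congrFun (hf.localInverseAt_symm x) y).symm

end Pool.Agent.P.MP_e09449_gt
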