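import Pool.Agent.P.MP_e09449_gt.Metric
import Pool.Agent.P.MP_e09449_gt.SimplyConn
import Pool.Agent.P.MP_e09449_gt.Quot

/-!
The discrete group `ℤ² ⋊ ℤ`, its action on `ℝ × NN` and the compact quotient.
-/

open Set Filter Topology Manifold Bundle
open scoped ContDiff

noncomputable section

namespace Pool.Agent.P.MP_e09449_gt

lemma gold_sq : Real.goldenRatio * Real.goldenRatio = Real.goldenRatio + 1 := by
  rw [← Real.goldenRatio_sq]; ring

lemma int_comb_eq_zero {m n : ℤ} (h : Real.goldenRatio * m + n = 0) : m = 0 ∧ n = 0 := by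
  by_cases hm : m = 0
  · subst hm
    simp only [Int.cast_zero, mul_zero, zero_add, Int.cast_eq_zero] at h
    exact ⟨rfl, h⟩
  · exfalso
    have := (Real.goldenRatio_irrational.mul_intCast hm).add_intCast n
    rw [h] at this
    exact this ⟨0, by simp⟩

lemma exists_cc : ∃ c : ℝ, ∀ m₀ m₁ n₀ n₁ : ℤ,
    c * (Real.goldenRatio * m₀ + m₁) = Real.goldenRatio * n₀ + n₁ → m₀ = 0 ∧ m₁ = 0 := by
  have hc : (range fun p : ℤ × ℤ × ℤ × ℤ => (Real.goldenRatio * p.2.2.1 + p.2.2.2) /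
      (Real.goldenRatio * p.1 + p.2.1)).Countable := countable_range _
  obtain ⟨c, hc⟩ : ∃ c : ℝ, c ∉ range fun p : ℤ × ℤ × ℤ × ℤ =>
      (Real.goldenRatio * p.2.2.1 + p.2.2.2) / (Real.goldenRatio * p.1 + p.2.1) := by
    by_contra h
    push Not at h
    exact Cardinal.not_countable_real (hc.mono fun x _ => h x)
  refine ⟨c, fun m₀ m₁ n₀ n₁ h => ?_⟩
  by_contra hne
  have h0 : Real.goldenRatio * m₀ + m₁ ≠ 0 := fun h' => hne (int_comb_eq_zero h')
  exact hc ⟨(m₀, m₁, n₀, n₁), by simp only; rw [← h, mul_div_cancel_right₀ _ h0]⟩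

/-- A real number outside `ℚ(√5)`. -/
def cc : ℝ := exists_cc.choose

lemma cc_spec (m₀ m₁ n₀ n₁ : ℤ)
    (h : cc * (Real.goldenRatio * m₀ + m₁) = Real.goldenRatio * n₀ + n₁) : m₀ = 0 ∧ m₁ = 0 :=
  exists_cc.choose_spec m₀ m₁ n₀ n₁ h

/-- The group `ℤ² ⋊ ℤ`. -/
@[ext] structure GG where
  w : ℤ → ℤ
  k : ℤ
  hw : ∀ j, w j = w (j + 1) + w (j + 2)

instance : Mul GG where
  mul g' g := ⟨fun j => g.w j + g'.w (j - g.k), g.k + g'.k, fun j => by
    rw [g.hw j, g'.hw (j - g.k), show j - g.k + 1 = j + 1 - g.k by ring,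
      show j - g.k + 2 = j + 2 - g.k by ring]
    ring⟩

instance : One GG where
  one := ⟨0, 0, fun _ => rfl⟩

instance : Inv GG where
  inv g := ⟨fun j => -g.w (j + g.k), -g.k, fun j => by
    rw [g.hw (j + g.k), show j + g.k + 1 = j + 1 + g.k by ring,
      show j + g.k + 2 = j + 2 + g.k by ring]
    ring⟩

@[simp] lemma GG.mul_w (g' g : GG) (j : ℤ) : (g' * g).w j = g.w j + g'.w (j - g.k) := rfl
@[simp] lemma GG.mul_k (g' g : GG) : (g' * g).k = g.k + g'.k := rfl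
@[simp] lemma GG.one_w (j : ℤ) : (1 : GG).w j = 0 := rfl
@[simp] lemma GG.one_k : (1 : GG).k = 0 := rfl
@[simp] lemma GG.inv_w (g : GG) (j : ℤ) : g⁻¹.w j = -g.w (j + g.k) := rfl
@[simp] lemma GG.inv_k (g : GG) : g⁻¹.k = -g.k := rfl

instance : Group GG := Group.ofLeftAxioms
  (fun a b c => by
    ext
    · simp only [GG.mul_w, GG.mul_k, add_assoc, sub_sub]
    · simp only [GG.mul_k, add_assoc])
  (fun a => by ext <;> simp)
  (fun a => by ext <;> simp)

/-- The element with prescribed `w 0`, `w 1` and shift. -/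
def GG.mk' (a b k : ℤ) : GG :=
  ⟨fun j => a * Int.fib (1 - j) + b * Int.fib (-j), k, fun j => by
    rw [fib_rec (1 - j), fib_rec (-j), show 1 - (j + 1) = 1 - j - 1 by ring,
      show 1 - (j + 2) = 1 - j - 2 by ring, show -(j + 1) = -j - 1 by ring,
      show -(j + 2) = -j - 2 by ring]
    ring⟩

@[simp] lemma GG.mk'_w0 (a b k : ℤ) : (GG.mk' a b k).w 0 = a := by simp [GG.mk']
@[simp] lemma GG.mk'_w1 (a b k : ℤ) : (GG.mk' a b k).w 1 = b := by simp [GG.mk']
@[simp] lemma GG.mk'_k (a b k : ℤ) : (GG.mk' a b k).k = k := rfl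

lemma GG.ext3 {g g' : GG} (h0 : g.w 0 = g'.w 0) (h1 : g.w 1 = g'.w 1) (hk : g.k = g'.k) :
    g = g' := by
  have key : ∀ j, g.w j = g'.w j ∧ g.w (j + 1) = g'.w (j + 1) := by
    intro j
    induction j using Int.induction_on with
    | zero => exact ⟨h0, h1⟩
    | succ k ih =>
      refine ⟨ih.2, ?_⟩
      have e1 := g.hw k
      have e2 := g'.hw k
      rw [show (k : ℤ) + 1 + 1 = k + 2 by ring]
      omega
    | pred k ih =>
      refine ⟨?_, by rw [show -(k : ℤ) - 1 + 1 = -k by ring]; exact ih.1⟩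
      rw [g.hw, g'.hw, show -(k : ℤ) - 1 + 1 = -k by ring, show -(k : ℤ) - 1 + 2 = -k + 1 by ring,
        ih.1, ih.2]
  ext j
  · exact (key j).1
  · exact hk

def pp (g : GG) : ℝ := Real.goldenRatio * g.w 0 + g.w 1
def rr (g : GG) : ℝ := g.w 0 - Real.goldenRatio * g.w 1

lemma pp_shift (g : GG) (j : ℤ) :
    Real.goldenRatio * g.w j + g.w (j + 1) = Real.goldenRatio ^ (-j) * pp g := by
  have h := Real.goldenRatio_ne_zero
  have step : ∀ j : ℤ, Real.goldenRatio * g.w j + g.w (j + 1) =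
      Real.goldenRatio * (Real.goldenRatio * g.w (j + 1) + g.w (j + 1 + 1)) := by
    intro j
    rw [g.hw j, show j + 1 + 1 = j + 2 by ring]
    push_cast
    linear_combination (-(g.w (j + 1) : ℝ)) * gold_sq
  induction j using Int.induction_on with
  | zero => simp [pp]
  | succ k ih =>
    apply mul_left_cancel₀ h
    rw [← step, ih, ← mul_assoc, ← zpow_one_add₀ h]
    congr 2; ring
  | pred k ih =>
    rw [step, show -(k : ℤ) - 1 + 1 = -k by ring, ih, ← mul_assoc, ← zpow_one_add₀ h]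
    congr 2; ring

lemma rr_shift (g : GG) (j : ℤ) :
    g.w j - Real.goldenRatio * g.w (j + 1) = mu ^ j * rr g := by
  have step : ∀ j : ℤ, (g.w (j + 1) : ℝ) - Real.goldenRatio * g.w (j + 1 + 1) =
      mu * (g.w j - Real.goldenRatio * g.w (j + 1)) := by
    intro j
    rw [g.hw j, show j + 1 + 1 = j + 2 by ring, mu]
    push_cast
    linear_combination (-(g.w (j + 1) : ℝ)) * gold_sq
  induction j using Int.induction_on with
  | zero => simp [rr]
  | succ k ih =>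
    rw [step, ih, ← mul_assoc, ← zpow_one_add₀ mu_ne]
    congr 2; ring
  | pred k ih =>
    apply mul_left_cancel₀ mu_ne
    rw [← step, show -(k : ℤ) - 1 + 1 = -k by ring, ih, ← mul_assoc, ← zpow_one_add₀ mu_ne]
    congr 2; ring

lemma pp_mul (g' g : GG) : pp (g' * g) = pp g + Real.goldenRatio ^ g.k * pp g' := by
  have := pp_shift g' (-g.k)
  rw [neg_neg] at this
  rw [← this]
  simp only [pp, GG.mul_w, zero_sub, show 1 - g.k = -g.k + 1 by ring]
  push_cast; ring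

lemma rr_mul (g' g : GG) : rr (g' * g) = rr g + mu ^ (-g.k) * rr g' := by
  rw [← rr_shift g' (-g.k)]
  simp only [rr, GG.mul_w, zero_sub, show 1 - g.k = -g.k + 1 by ring]
  push_cast; ring

/-- The torus part of the action of `g`. -/
def tt (g : GG) : UU :=
  ⟨fun j => Complex.exp ((2 * Real.pi * (cc * g.w j) : ℝ) * Complex.I), fun j => by
    beta_reduce
    rw [← Complex.exp_add, g.hw j]
    push_cast
    ring_nf, fun j => Complex.norm_exp_ofReal_mul_I _⟩

lemma tt_mul (g' g : GG) : tt (g' * g) = (tt g').mulShift (tt g) g.k := by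
  apply Subtype.ext
  funext j
  simp only [tt, UU.mulShift, GG.mul_w]
  rw [← Complex.exp_add]
  push_cast
  ring_nf

lemma tt_one : tt 1 = UU.one := by
  apply Subtype.ext
  funext j
  simp [tt, UU.one]

/-- The action on the second factor. -/
def actG (g : GG) : NN → NN := act (rr g) (tt g) g.k

instance : MulAction GG (ℝ × NN) where
  smul g x := (Real.goldenRatio ^ (-g.k) * (x.1 + pp g), actG g x.2)
  one_smul x := by
    change (Real.goldenRatio ^ (-(1 : GG).k) * (x.1 + pp 1), actG 1 x.2) = x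
    have h1 : rr 1 = 0 := by simp [rr]
    simp [actG, pp, h1, tt_one, act_one]
  mul_smul g' g x := by
    change (Real.goldenRatio ^ (-(g' * g).k) * (x.1 + pp (g' * g)), actG (g' * g) x.2) =
      (Real.goldenRatio ^ (-g'.k) * (Real.goldenRatio ^ (-g.k) * (x.1 + pp g) + pp g'),
        actG g' (actG g x.2))
    simp only [actG, act_act, pp_mul, rr_mul, tt_mul, GG.mul_k, Prod.mk.injEq, and_true]
    have h := Real.goldenRatio_ne_zero
    have e : Real.goldenRatio ^ (-g.k) * Real.goldenRatio ^ g.k = 1 := by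
      rw [← zpow_add₀ h]; simp
    rw [neg_add, zpow_add₀ h]
    linear_combination (Real.goldenRatio ^ (-g'.k) * pp g') * e

lemma smul_def (g : GG) (x : ℝ × NN) :
    g • x = (Real.goldenRatio ^ (-g.k) * (x.1 + pp g), actG g x.2) := rfl

lemma smul_eq_prodMap (g : GG) : (fun x : ℝ × NN => g • x) =
    Prod.map (fun p : ℝ => Real.goldenRatio ^ (-g.k) * (p + pp g)) (actG g) := rfl

lemma contMDiff_smul (g : GG) : ContMDiff (𝓘(ℝ, ℝ).prod 𝓘(ℝ, EE)) (𝓘(ℝ, ℝ).prod 𝓘(ℝ, EE)) ∞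
    (fun x : ℝ × NN => g • x) := by
  rw [smul_eq_prodMap]
  refine ContMDiff.prodMap ?_ (contMDiff_act _ _ _)
  rw [contMDiff_iff_contDiff]
  fun_prop

instance : ContinuousConstSMul GG (ℝ × NN) := ⟨fun g => (contMDiff_smul g).continuous⟩

instance : IsCancelSMul GG (ℝ × NN) := by
  rw [isCancelSMul_iff_eq_one_of_smul_eq]
  intro g x h
  rw [smul_def, Prod.ext_iff] at h
  have hk : g.k = 0 := by
    by_contra hk
    exact act_ne_self hk x.2 h.2
  have h1 := h.1
  simp only [hk, neg_zero, zpow_zero, one_mul, add_eq_left] at h1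
  obtain ⟨a, b⟩ := int_comb_eq_zero h1
  exact GG.ext3 a b hk

lemma exists_shift_bound (i : ℕ) : ∃ k₁ : ℕ, ∀ (r : ℝ) (t : UU) (k : ℤ) (y : NN), y ∈ Exh i →
    act r t k y ∈ Exh i → |k| ≤ k₁ := by
  obtain ⟨k₀, hk⟩ := exists_index_bound (R := i) (ρ := 1 - 1 / (i + 1))
    (by have : (0 : ℝ) < 1 / (i + 1) := by positivity
        linarith)
  refine ⟨k₀ + 2 * i, fun r t k y hy hy' => ?_⟩
  simp only [Exh, mem_iUnion] at hy hy'
  obtain ⟨n, hn, z, hz, rfl⟩ := hy
  obtain ⟨m, hm, w, hw, h⟩ := hy'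
  rw [act_psi _ _ _ (Box_subset i hz)] at h
  have h' := (psi_eq_iff_nf (Box_subset i hw) (AA_mem_iff.2 (Box_subset i hz))).1 h
  have e1 := hk m (n - k) w _ hw.2.2.1.le (by rw [norm_AA_mono]; exact hz.2.2.2.1.le)
    (by rw [norm_AA_mono]; exact hz.2.2.2.2.le) h'
  have e2 := hk (n - k) m _ w (by rw [norm_AA_snd]; exact hz.2.2.1.le) hw.2.2.2.1.le
    hw.2.2.2.2.le h'.symm
  rw [abs_le]
  push_cast
  constructor <;> linarith [hn.1, hn.2, hm.1, hm.2]

lemma abs_le_of_zpow_mul {c x B : ℝ} {k : ℤ} {k₁ : ℕ} (hc : |c| = Real.goldenRatio)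
    (hk : |k| ≤ k₁) (h : |c ^ k * x| ≤ B) : |x| ≤ Real.goldenRatio ^ k₁ * B := by
  rw [abs_mul, abs_zpow, hc] at h
  have h1 : 1 ≤ Real.goldenRatio ^ k₁ * Real.goldenRatio ^ k := by
    rw [← zpow_natCast, ← zpow_add₀ Real.goldenRatio_ne_zero]
    exact one_le_zpow₀ Real.one_lt_goldenRatio.le (by linarith [(abs_le.1 hk).1])
  have h2 : 0 ≤ Real.goldenRatio ^ k₁ := by positivity
  calc |x| ≤ (Real.goldenRatio ^ k₁ * Real.goldenRatio ^ k) * |x| :=
        le_mul_of_one_le_left (abs_nonneg _) h1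
    _ = Real.goldenRatio ^ k₁ * (Real.goldenRatio ^ k * |x|) := by ring
    _ ≤ _ := by gcongr

lemma exists_r_bound (i : ℕ) : ∃ (k₁ : ℕ) (B : ℝ), ∀ (r : ℝ) (t : UU) (k : ℤ) (y : NN), y ∈ Exh i →
    act r t k y ∈ Exh i → |k| ≤ k₁ ∧ |r| ≤ B := by
  obtain ⟨k₁, hk⟩ := exists_shift_bound i
  refine ⟨k₁, Real.goldenRatio ^ k₁ * (Real.goldenRatio ^ i * i) + Real.goldenRatio ^ i * i,
    fun r t k y hy hy' => ⟨hk r t k y hy hy', ?_⟩⟩
  have h1 := abs_s_le_of_mem_Exh hy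
  have h2 := abs_s_le_of_mem_Exh hy'
  rw [act_s] at h2
  have h3 := abs_le_of_zpow_mul abs_mu (hk r t k y hy hy') h2
  calc |r| = |(y.s + r) - y.s| := by ring_nf
    _ ≤ |y.s + r| + |y.s| := abs_sub _ _
    _ ≤ _ := by linarith

instance : ProperlyDiscontinuousSMul GG (ℝ × NN) := by
  refine ⟨fun {K L} hK hL => ?_⟩
  have hKL := hK.union hL
  obtain ⟨i, hi⟩ := exists_Exh_of_isCompact (hKL.image continuous_snd)
  obtain ⟨R, hR⟩ := (hKL.image continuous_fst).isBounded.subset_closedBall 0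
  obtain ⟨k₁, B, hB⟩ := exists_r_bound i
  set P := Real.goldenRatio ^ k₁ * R + R
  obtain ⟨N, hN⟩ := exists_nat_ge (2 * P + 2 * B)
  refine Set.Finite.of_finite_image (f := fun g : GG => (g.w 0, g.w 1, g.k))
    (((finite_Icc (-(N : ℤ)) N).prod ((finite_Icc (-(N : ℤ)) N).prod
      (finite_Icc (-(k₁ : ℤ)) k₁))).subset ?_) ?_
  · rintro _ ⟨g, ⟨_, ⟨x, hx, rfl⟩, hx'⟩, rfl⟩
    obtain ⟨b1, b2⟩ := hB (rr g) (tt g) g.k x.2 (hi ⟨x, Or.inl hx, rfl⟩) (hi ⟨_, Or.inr hx', rfl⟩)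
    have r1 : |x.1| ≤ R := by simpa using hR ⟨x, Or.inl hx, rfl⟩
    have r2 : |Real.goldenRatio ^ (-g.k) * (x.1 + pp g)| ≤ R := by
      have := hR ⟨_, Or.inr hx', rfl⟩
      rwa [mem_closedBall_zero_iff, Real.norm_eq_abs] at this
    have r3 := abs_le_of_zpow_mul (abs_of_pos Real.goldenRatio_pos) (by rwa [abs_neg]) r2
    have r4 : |pp g| ≤ P := by
      calc |pp g| = |(x.1 + pp g) - x.1| := by ring_nf
        _ ≤ |x.1 + pp g| + |x.1| := abs_sub _ _
        _ ≤ _ := by linarith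
    have g1 := Real.one_lt_goldenRatio
    have g2 := Real.goldenRatio_lt_two
    have hP : 0 ≤ P := (abs_nonneg _).trans r4
    have hB0 : 0 ≤ B := (abs_nonneg _).trans b2
    obtain ⟨p1, p2⟩ := abs_le.1 r4
    obtain ⟨q1, q2⟩ := abs_le.1 b2
    have e0 : (Real.goldenRatio + 2) * g.w 0 = Real.goldenRatio * pp g + rr g := by
      simp only [pp, rr]; linear_combination (-(g.w 0 : ℝ)) * gold_sq
    have e1 : (Real.goldenRatio + 2) * g.w 1 = pp g - Real.goldenRatio * rr g := by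
      simp only [pp, rr]; linear_combination (-(g.w 1 : ℝ)) * gold_sq
    have c0 : |(g.w 0 : ℝ)| ≤ N := by
      rw [abs_le]; constructor <;> nlinarith
    have c1 : |(g.w 1 : ℝ)| ≤ N := by
      rw [abs_le]; constructor <;> nlinarith
    refine ⟨abs_le.1 (by exact_mod_cast c0), abs_le.1 (by exact_mod_cast c1), abs_le.1 b1⟩
  · intro g _ g' _ h
    simp only [Prod.mk.injEq] at h
    exact GG.ext3 h.1 h.2.1 h.2.2

/-- The compact manifold. -/
abbrev MM : Type := MulAction.orbitRel.Quotient GG (ℝ × NN)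

/-- The universal covering map. -/
def projM : ℝ × NN → MM := Quotient.mk (MulAction.orbitRel GG (ℝ × NN))

lemma projM_surjective : Function.Surjective projM := Quotient.mk_surjective

lemma isCoveringMap_projM : IsCoveringMap projM :=
  isQuotientCoveringMap_quotientMk_of_properlyDiscontinuousSMul.isCoveringMap

lemma projM_smul (g : GG) (x : ℝ × NN) : projM (g • x) = projM x :=
  Quotient.sound (MulAction.mem_orbit x g)

lemma exists_smul_of_projM_eq {x x' : ℝ × NN} (h : projM x = projM x') : ∃ g : GG, g • x = x' :=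
  (Quotient.exact h.symm : x' ∈ MulAction.orbit GG x)

lemma deck_trans (x x' : ℝ × NN) (h : projM x = projM x') : ∃ φ : ℝ × NN → ℝ × NN,
    ContMDiff (𝓘(ℝ, ℝ).prod 𝓘(ℝ, EE)) (𝓘(ℝ, ℝ).prod 𝓘(ℝ, EE)) ∞ φ ∧ φ x = x' ∧
      ∀ y, projM (φ y) = projM y := by
  obtain ⟨g, hg⟩ := exists_smul_of_projM_eq h
  exact ⟨_, contMDiff_smul g, hg, projM_smul g⟩

/-- The smooth structure on the quotient. -/
@[reducible] def chartedMM : ChartedSpace (ModelProd ℝ EE) MM :=
  isCoveringMap_projM.isLocalHomeomorph.chartedSpaceOfRightInverse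
    projM_surjective.hasRightInverse.choose_spec

lemma compactSpace_MM : CompactSpace MM := by
  let K : Set EE := Icc (-3) 3 ×ˢ (Metric.closedBall 0 (1 / 2) ×ˢ Metric.closedBall 0 2)
  have hK : IsCompact K :=
    isCompact_Icc.prod ((isCompact_closedBall _ _).prod (isCompact_closedBall _ _))
  have hKO : K ⊆ Om := by
    intro z hz
    have h1 : ‖z.2.1‖ ≤ 1 / 2 := by simpa using hz.2.1
    have h2 : ‖z.2.2‖ ≤ 2 := by simpa using hz.2.2
    have := poly_bound (z := z) (by linarith) (by linarith)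
    exact ⟨by linarith [this.1], by linarith [this.2]⟩
  have hC : IsCompact (Icc (-3 : ℝ) 3 ×ˢ (psi 0 '' K)) :=
    isCompact_Icc.prod (hK.image_of_continuousOn ((continuousOn_psi 0).mono hKO))
  refine ⟨?_⟩
  convert hC.image isCoveringMap_projM.continuous
  symm
  rw [eq_univ_iff_forall]
  intro q
  obtain ⟨⟨p, y⟩, rfl⟩ := projM_surjective q
  obtain ⟨n, z, hz, rfl, h1, h2⟩ := exists_good_chart y
  set p' := Real.goldenRatio ^ (-n) * p
  set θ₀ := -(Real.goldenRatio * p' + z.1) / (Real.goldenRatio + 2)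
  set θ₁ := -(p' - Real.goldenRatio * z.1) / (Real.goldenRatio + 2)
  have g1 := Real.one_lt_goldenRatio
  have g2 := Real.goldenRatio_lt_two
  have hne : Real.goldenRatio + 2 ≠ 0 := by linarith
  have t0 : (Real.goldenRatio + 2) * θ₀ = -(Real.goldenRatio * p' + z.1) := mul_div_cancel₀ _ hne
  have t1 : (Real.goldenRatio + 2) * θ₁ = -(p' - Real.goldenRatio * z.1) := mul_div_cancel₀ _ hne
  have u0 : p' = -(Real.goldenRatio * θ₀ + θ₁) := by
    apply mul_left_cancel₀ hne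
    linear_combination Real.goldenRatio * t0 + t1 - p' * gold_sq
  have u1 : z.1 = -(θ₀ - Real.goldenRatio * θ₁) := by
    apply mul_left_cancel₀ hne
    linear_combination t0 - Real.goldenRatio * t1 - z.1 * gold_sq
  have f0 := Int.floor_le θ₀
  have f0' := Int.lt_floor_add_one θ₀
  have f1 := Int.floor_le θ₁
  have f1' := Int.lt_floor_add_one θ₁
  refine ⟨GG.mk' ⌊θ₀⌋ ⌊θ₁⌋ 0 • GG.mk' 0 0 n • (p, psi n z), ?_, by rw [projM_smul, projM_smul]⟩
  have a1 : pp (GG.mk' 0 0 n) = 0 := by simp [pp]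
  have a2 : rr (GG.mk' 0 0 n) = 0 := by simp [rr]
  simp only [smul_def, actG, GG.mk'_k, a1, a2, neg_zero, zpow_zero, one_mul, add_zero]
  rw [act_psi _ _ _ hz, act_psi _ _ _ (AA_mem_iff.2 hz), sub_self, sub_zero]
  refine ⟨?_, _, ⟨?_, ?_, ?_⟩, rfl⟩
  · change p' + pp _ ∈ Icc (-3 : ℝ) 3
    simp only [pp, GG.mk'_w0, GG.mk'_w1]
    rw [u0]
    constructor <;> nlinarith
  · simp only [AA, rr, GG.mk'_w0, GG.mk'_w1, mul_zero, add_zero, zpow_zero, one_mul]
    rw [u1]
    constructor <;> nlinarith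
  · rw [mem_closedBall_zero_iff, norm_AA_fst, norm_AA_fst]; exact h1
  · rw [mem_closedBall_zero_iff, norm_AA_snd, norm_AA_snd]; exact h2

/-- The action of `g` as a diffeomorphism. -/
def smulDiffeo (g : GG) :
    (ℝ × NN) ≃ₘ^∞⟮𝓘(ℝ, ℝ).prod 𝓘(ℝ, EE), 𝓘(ℝ, ℝ).prod 𝓘(ℝ, EE)⟯ (ℝ × NN) where
  toFun x := g • x
  invFun x := g⁻¹ • x
  left_inv x := inv_smul_smul g x
  right_inv x := smul_inv_smul g x
  contMDiff_toFun := contMDiff_smul g
  contMDiff_invFun := contMDiff_smul g⁻¹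

lemma isDeck_iff (s : ℝ × NN → ℝ × NN) :
    IsDeck (E := EE) projM s ↔ ∃ g : GG, s = fun x => g • x := by
  constructor
  · rintro ⟨h, d, hd⟩
    obtain ⟨g, hg⟩ := exists_smul_of_projM_eq (congrFun h (0, y0)).symm
    refine ⟨g, ?_⟩
    have hs : Continuous s := by
      have : s = d := funext fun x => (hd x).symm
      rw [this]; exact d.continuous
    refine isCoveringMap_projM.eq_of_comp_eq hs (contMDiff_smul g).continuous ?_ (0, y0) hg.symm
    rw [h]
    funext x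
    exact (projM_smul g x).symm
  · rintro ⟨g, rfl⟩
    exact ⟨funext fun x => projM_smul g x, smulDiffeo g, fun _ => rfl⟩

lemma scalesBy_smul (g : GG) :
    ScalesBy gN (fun x : ℝ × NN => g • x) (Real.goldenRatio ^ (-g.k)) := by
  intro x u v
  have h1 : HasFDerivAt (fun p : ℝ => Real.goldenRatio ^ (-g.k) * (p + pp g))
      (ContinuousLinearMap.mul ℝ ℝ (Real.goldenRatio ^ (-g.k))) x.1 := by
    have := (ContinuousLinearMap.mul ℝ ℝ (Real.goldenRatio ^ (-g.k))).hasFDerivAt.add_const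
      (x := x.1) (Real.goldenRatio ^ (-g.k) * pp g)
    refine this.congr_of_eventuallyEq (Eventually.of_forall fun p => ?_)
    simp [mul_add]
  have e : mfderiv (𝓘(ℝ, ℝ).prod 𝓘(ℝ, EE)) (𝓘(ℝ, ℝ).prod 𝓘(ℝ, EE)) (fun x : ℝ × NN => g • x) x =
      (ContinuousLinearMap.mul ℝ ℝ (Real.goldenRatio ^ (-g.k))).prodMap
        (dact (rr g) (tt g) g.k x.2) := by
    have h2 := mfderiv_prodMap (p := x) h1.differentiableAt.mdifferentiableAt
      ((contMDiff_act (rr g) (tt g) g.k x.2).mdifferentiableAt (by simp))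
    rw [mfderiv_eq_fderiv, h1.fderiv] at h2
    exact h2
  rw [e]
  change inner ℝ (Real.goldenRatio ^ (-g.k) * u.1) (Real.goldenRatio ^ (-g.k) * v.1) +
    g0 (act (rr g) (tt g) g.k x.2) (dact (rr g) (tt g) g.k x.2 u.2) (dact (rr g) (tt g) g.k x.2 v.2)
    = (Real.goldenRatio ^ (-g.k)) ^ 2 * (inner ℝ u.1 v.1 + g0 x.2 u.2 v.2)
  rw [g0_act]
  simp only [RCLike.inner_apply, conj_trivial]
  ring

lemma not_scalesBy_one : ¬ ScalesBy gN (fun x : ℝ × NN => GG.mk' 0 0 1 • x) 1 := by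
  intro h
  have h1 := h (0, y0) ((1 : ℝ), (0 : EE)) ((1 : ℝ), (0 : EE))
  have h2 := scalesBy_smul (GG.mk' 0 0 1) (0, y0) ((1 : ℝ), (0 : EE)) ((1 : ℝ), (0 : EE))
  rw [h1] at h2
  have h3 : prodForm gN ((0 : ℝ), y0) ((1 : ℝ), (0 : EE)) ((1 : ℝ), (0 : EE)) = 1 := by
    change inner ℝ (1 : ℝ) (1 : ℝ) + g0 y0 0 0 = 1
    simp
  rw [h3, GG.mk'_k] at h2
  have h4 : Real.goldenRatio ^ (-(1 : ℤ)) < 1 :=
    zpow_lt_one_of_neg₀ Real.one_lt_goldenRatio (by norm_num)
  have h5 : 0 < Real.goldenRatio ^ (-(1 : ℤ)) := zpow_pos Real.goldenRatio_pos _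
  nlinarith

end Pool.Agent.P.MP_e09449_gt
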