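import Pool.Agent.P.MP_e09449_gt.Act
import Pool.Agent.P.MP_e09449_gt.Defs

/-!
The Riemannian metric on `NN`.
-/

open Set Filter Topology Manifold Bundle
open scoped ContDiff

noncomputable section

namespace Pool.Agent.P.MP_e09449_gt

/-- The real inner product of `ℂ`. -/
def innC : ℂ →L[ℝ] ℂ →L[ℝ] ℝ := innerSL ℝ

/-- The Euclidean inner product of `ℝ × ℂ × ℂ`. -/
def eucl : EE →L[ℝ] EE →L[ℝ] ℝ :=
  (ContinuousLinearMap.mul ℝ ℝ).bilinearComp (ContinuousLinearMap.fst ℝ ℝ (ℂ × ℂ))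
      (ContinuousLinearMap.fst ℝ ℝ (ℂ × ℂ)) +
    innC.bilinearComp
      ((ContinuousLinearMap.fst ℝ ℂ ℂ).comp (ContinuousLinearMap.snd ℝ ℝ (ℂ × ℂ)))
      ((ContinuousLinearMap.fst ℝ ℂ ℂ).comp (ContinuousLinearMap.snd ℝ ℝ (ℂ × ℂ))) +
    innC.bilinearComp
      ((ContinuousLinearMap.snd ℝ ℂ ℂ).comp (ContinuousLinearMap.snd ℝ ℝ (ℂ × ℂ)))
      ((ContinuousLinearMap.snd ℝ ℂ ℂ).comp (ContinuousLinearMap.snd ℝ ℝ (ℂ × ℂ)))

lemma eucl_apply (u v : EE) :
    eucl u v = u.1 * v.1 + inner ℝ u.2.1 v.2.1 + inner ℝ u.2.2 v.2.2 := rfl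

lemma eucl_apply' (u v : EE) : eucl u v = u.1 * v.1 + (u.2.1.re * v.2.1.re + u.2.1.im * v.2.1.im)
    + (u.2.2.re * v.2.2.re + u.2.2.im * v.2.2.im) := by
  rw [eucl_apply]
  simp only [Complex.inner, Complex.mul_re, Complex.conj_re, Complex.conj_im]
  ring

lemma eucl_symm (u v : EE) : eucl u v = eucl v u := by
  rw [eucl_apply', eucl_apply']; ring

lemma eucl_self (u : EE) : eucl u u = u.1 ^ 2 + ‖u.2.1‖ ^ 2 + ‖u.2.2‖ ^ 2 := by
  rw [eucl_apply, real_inner_self_eq_norm_sq, real_inner_self_eq_norm_sq]; ring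

lemma eucl_self_nonneg (u : EE) : 0 ≤ eucl u u := by rw [eucl_self]; positivity

lemma norm_sq_le_eucl (u : EE) : ‖u‖ ^ 2 ≤ eucl u u := by
  rw [eucl_self, Prod.norm_def, Prod.norm_def]
  have h1 : ‖u.1‖ ^ 2 = u.1 ^ 2 := by rw [Real.norm_eq_abs, sq_abs]
  rcases max_cases ‖u.1‖ (max ‖u.2.1‖ ‖u.2.2‖) with ⟨h, -⟩ | ⟨h, -⟩
  · rw [h, h1]; nlinarith [sq_nonneg ‖u.2.1‖, sq_nonneg ‖u.2.2‖]
  · rw [h]
    rcases max_cases ‖u.2.1‖ ‖u.2.2‖ with ⟨h', -⟩ | ⟨h', -⟩
    · rw [h']; nlinarith [sq_nonneg u.1, sq_nonneg ‖u.2.2‖]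
    · rw [h']; nlinarith [sq_nonneg u.1, sq_nonneg ‖u.2.1‖]

lemma inner_unit_mul {t : ℂ} (ht : ‖t‖ = 1) (a b : ℂ) : inner ℝ (t * a) (t * b) = inner ℝ a b := by
  have h : t.re * t.re + t.im * t.im = 1 := by
    rw [← Complex.normSq_apply, Complex.normSq_eq_norm_sq, ht]; norm_num
  simp only [Complex.inner, Complex.mul_re, Complex.conj_re, Complex.conj_im, Complex.mul_im]
  linear_combination (a.re * b.re + a.im * b.im) * h

lemma eucl_LL (n : ℤ) (t : UU) (u v : EE) : eucl (LL n t u) (LL n t v) = eucl u v := by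
  rw [eucl_apply, eucl_apply, LL_apply, LL_apply]
  simp only
  rw [inner_unit_mul (t.2.2 n), inner_unit_mul (by rw [norm_inv, t.2.2, inv_one])]

/-- The bump function in a chart. -/
def beta (z : EE) : ℝ :=
  Real.exp (‖z.2.1‖ ^ 2 + ‖z.2.2‖ ^ 2) * Real.smoothTransition (4 - 12 * ‖z.2.1‖ ^ 2) *
    Real.smoothTransition (6 - ‖z.2.2‖ ^ 2)

lemma contDiff_beta : ContDiff ℝ ∞ beta := by
  have ha : ContDiff ℝ ∞ (fun z : EE => ‖z.2.1‖ ^ 2) :=
    (contDiff_norm_sq ℝ).comp (contDiff_fst.comp contDiff_snd)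
  have hb : ContDiff ℝ ∞ (fun z : EE => ‖z.2.2‖ ^ 2) :=
    (contDiff_norm_sq ℝ).comp (contDiff_snd.comp contDiff_snd)
  refine ((ha.add hb).exp.mul ?_).mul ?_
  · exact Real.smoothTransition.contDiff.comp (contDiff_const.sub (contDiff_const.mul ha))
  · exact Real.smoothTransition.contDiff.comp (contDiff_const.sub hb)

lemma beta_nonneg (z : EE) : 0 ≤ beta z :=
  mul_nonneg (mul_nonneg (Real.exp_pos _).le (Real.smoothTransition.nonneg _))
    (Real.smoothTransition.nonneg _)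

lemma beta_eq {z : EE} (h1 : ‖z.2.1‖ ≤ 1 / 2) (h2 : ‖z.2.2‖ ≤ 2) :
    beta z = Real.exp (‖z.2.1‖ ^ 2 + ‖z.2.2‖ ^ 2) := by
  have ha := norm_nonneg z.2.1
  have hb := norm_nonneg z.2.2
  rw [beta, Real.smoothTransition.one_of_one_le (by nlinarith),
    Real.smoothTransition.one_of_one_le (by nlinarith), mul_one, mul_one]

lemma beta_ne_zero {z : EE} (h : beta z ≠ 0) : ‖z.2.1‖ ≤ 3 / 5 ∧ ‖z.2.2‖ ≤ 5 / 2 := by
  have ha := norm_nonneg z.2.1
  have hb := norm_nonneg z.2.2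
  constructor
  · by_contra hc
    push Not at hc
    apply h
    rw [beta, Real.smoothTransition.zero_of_nonpos (x := 4 - 12 * ‖z.2.1‖ ^ 2) (by nlinarith)]
    simp
  · by_contra hc
    push Not at hc
    apply h
    rw [beta, Real.smoothTransition.zero_of_nonpos (x := 6 - ‖z.2.2‖ ^ 2) (by nlinarith)]
    simp

lemma poly_bound {z : EE} (h1 : ‖z.2.1‖ ≤ 3 / 5) (h2 : ‖z.2.2‖ ≤ 5 / 2) :
    ‖z.2.1 ^ 2 * z.2.2‖ ≤ 9 / 10 ∧ ‖z.2.1 ^ 3 * z.2.2‖ ≤ 9 / 10 := by
  have ha := norm_nonneg z.2.1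
  have hb := norm_nonneg z.2.2
  constructor
  · rw [norm_mul, norm_pow]
    calc ‖z.2.1‖ ^ 2 * ‖z.2.2‖ ≤ (3 / 5) ^ 2 * (5 / 2) := by gcongr
      _ ≤ 9 / 10 := by norm_num
  · rw [norm_mul, norm_pow]
    calc ‖z.2.1‖ ^ 3 * ‖z.2.2‖ ≤ (3 / 5) ^ 3 * (5 / 2) := by gcongr
      _ ≤ 9 / 10 := by norm_num

lemma beta_AA (n : ℤ) (r : ℝ) (t : UU) (z : EE) : beta (AA n r t z) = beta z := by
  simp only [beta, norm_AA_fst, norm_AA_snd]

open Classical in
/-- The bump function of chart `n`, extended by zero. -/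
def BB (n : ℤ) (y : NN) : ℝ := if y ∈ src n then beta (kap n y) else 0

lemma BB_nonneg (n : ℤ) (y : NN) : 0 ≤ BB n y := by
  unfold BB; split_ifs
  · exact beta_nonneg _
  · exact le_rfl

lemma BB_ne_zero {n : ℤ} {y : NN} (h : BB n y ≠ 0) : y ∈ src n ∧ beta (kap n y) ≠ 0 := by
  unfold BB at h
  split_ifs at h with hy
  · exact ⟨hy, h⟩
  · exact absurd rfl h

lemma BB_of_mem {n : ℤ} {y : NN} (h : y ∈ src n) : BB n y = beta (kap n y) := if_pos h

lemma BB_act (r : ℝ) (t : UU) (k n : ℤ) (y : NN) : BB (n - k) (act r t k y) = BB n y := by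
  unfold BB
  rw [kap_act, beta_AA]
  by_cases h : y ∈ src n
  · rw [if_pos h, if_pos (act_mem_src h)]
  · rw [if_neg h, if_neg fun h' => h (act_mem_src_iff.1 h')]

lemma BB_eventually_zero {m : ℤ} {y : NN} (hy : y ∉ src m) : ∀ᶠ y' in 𝓝 y, BB m y' = 0 := by
  set R := |mu ^ m * y.s| + 1
  let K : Set EE := Metric.closedBall 0 R ×ˢ (Metric.closedBall 0 (3 / 5) ×ˢ Metric.closedBall 0 (5 / 2))
  have hK : IsCompact K :=
    (isCompact_closedBall _ _).prod ((isCompact_closedBall _ _).prod (isCompact_closedBall _ _))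
  have hKO : K ⊆ Om := by
    intro z hz
    have := poly_bound (z := z) (by simpa using hz.2.1) (by simpa using hz.2.2)
    exact ⟨by linarith [this.1], by linarith [this.2]⟩
  have hc : IsClosed (psi m '' K) :=
    (hK.image_of_continuousOn ((continuousOn_psi m).mono hKO)).isClosed
  have h1 : (psi m '' K)ᶜ ∈ 𝓝 y :=
    hc.isOpen_compl.mem_nhds fun h => hy (image_mono hKO h)
  have h2 : {y' : NN | |mu ^ m * y'.s| < R} ∈ 𝓝 y := by
    apply IsOpen.mem_nhds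
    · exact isOpen_lt ((continuous_const.mul continuous_s).abs) continuous_const
    · simp [R]
  filter_upwards [h1, h2] with y' e1 e2
  by_contra hne
  obtain ⟨hs, hb⟩ := BB_ne_zero hne
  apply e1
  refine ⟨kap m y', ⟨?_, ?_, ?_⟩, psi_kap hs⟩
  · simpa [kap] using e2.le
  · simpa using (beta_ne_zero hb).1
  · simpa using (beta_ne_zero hb).2

lemma BB_index_bound (i : ℕ) : ∃ k₀ : ℕ, ∀ (n m : ℤ) (z : EE), z ∈ Box i →
    BB m (psi n z) ≠ 0 → |m - n| ≤ k₀ := by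
  obtain ⟨k₀, hk⟩ := Box_index_bound (i + 10)
  refine ⟨k₀, fun n m z hz h => ?_⟩
  obtain ⟨hs, hb⟩ := BB_ne_zero h
  -- forget the first coordinate
  let z' : EE := (0, z.2)
  have hz' : z' ∈ Box (i + 10) := by
    have := Box_mono (show i ≤ i + 10 by omega) hz
    exact ⟨by simp [z']; positivity, this.2⟩
  have hd := ((psi_mem_src_iff (Box_subset _ hz)).1 hs).1
  rw [kap_psi (Box_subset _ hz)] at hb
  obtain ⟨b1, b2⟩ := beta_ne_zero hb
  have hp := poly_bound b1 b2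
  have hw : TT n m z' ∈ Box (i + 10) := by
    have hi : (0 : ℝ) ≤ i := by positivity
    have hq : (1 : ℝ) / (((i + 10 : ℕ) : ℝ) + 1) < 1 / 10 := by
      rw [div_lt_div_iff₀ (by positivity) (by norm_num)]; push_cast; linarith
    refine ⟨by simp [TT, z']; positivity, ?_, ?_, ?_, ?_⟩
    · exact b1.trans_lt (by push_cast; linarith)
    · exact b2.trans_lt (by push_cast; linarith)
    · exact hp.1.trans_lt (by linarith)
    · exact hp.2.trans_lt (by linarith)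
  exact hk n m z' _ hz' hw ((psi_eq_iff (Box_subset _ hz') (Box_subset _ hw)).2 ⟨hd, rfl⟩)

lemma BB_locally_finite (y : NN) : ∃ F : Finset ℤ, ∀ᶠ y' in 𝓝 y, ∀ m, BB m y' ≠ 0 → m ∈ F := by
  obtain ⟨n, z, hz, rfl⟩ := exists_psi y
  obtain ⟨i, hi⟩ := exists_Box hz
  obtain ⟨k₀, hk⟩ := BB_index_bound i
  refine ⟨Finset.Icc (n - k₀) (n + k₀), ?_⟩
  filter_upwards [(isOpen_psi_image n (isOpen_Box i) (Box_subset i)).mem_nhds ⟨z, hi, rfl⟩]
  rintro _ ⟨w, hw, rfl⟩ m hm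
  have := abs_le.1 (hk n m w hw hm)
  rw [Finset.mem_Icc]
  constructor <;> linarith [this.1, this.2]

/-- The term of index `n` of the metric. -/
def HH (n : ℤ) (y : NN) : EE →L[ℝ] EE →L[ℝ] ℝ :=
  (Real.goldenRatio ^ (2 * n) * BB n y) • eucl.bilinearComp (dk n y) (dk n y)

lemma HH_apply (n : ℤ) (y : NN) (u v : EE) :
    HH n y u v = Real.goldenRatio ^ (2 * n) * BB n y * eucl (dk n y u) (dk n y v) := rfl

lemma HH_eq_zero {n : ℤ} {y : NN} (h : BB n y = 0) : HH n y = 0 := by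
  refine ContinuousLinearMap.ext fun u => ContinuousLinearMap.ext fun v => ?_
  rw [HH_apply, h]
  simp

/-- The metric tensor. -/
def g0 (y : NN) : EE →L[ℝ] EE →L[ℝ] ℝ := ∑ᶠ n, HH n y

lemma g0_eq_sum {y : NN} {F : Finset ℤ} (h : ∀ m, BB m y ≠ 0 → m ∈ F) :
    g0 y = ∑ n ∈ F, HH n y := by
  apply finsum_eq_sum_of_support_subset
  intro m hm
  exact h m fun h0 => hm (HH_eq_zero h0)

lemma g0_apply_eq_sum {y : NN} {F : Finset ℤ} (h : ∀ m, BB m y ≠ 0 → m ∈ F) (u v : EE) :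
    g0 y u v = ∑ n ∈ F, HH n y u v := by
  rw [g0_eq_sum h, _root_.sum_apply, _root_.sum_apply]

lemma exists_BB_finset (y : NN) : ∃ F : Finset ℤ, ∀ m, BB m y ≠ 0 → m ∈ F := by
  obtain ⟨F, hF⟩ := BB_locally_finite y
  exact ⟨F, hF.self_of_nhds⟩

lemma g0_symm (y : NN) (u v : EE) : g0 y u v = g0 y v u := by
  obtain ⟨F, hF⟩ := exists_BB_finset y
  rw [g0_apply_eq_sum hF, g0_apply_eq_sum hF]
  exact Finset.sum_congr rfl fun n _ => by rw [HH_apply, HH_apply, eucl_symm]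

lemma HH_self_nonneg (n : ℤ) (y : NN) (u : EE) : 0 ≤ HH n y u u := by
  rw [HH_apply]
  exact mul_nonneg (mul_nonneg (zpow_pos Real.goldenRatio_pos _).le (BB_nonneg _ _))
    (eucl_self_nonneg _)

lemma g0_lower (y : NN) : ∃ c : ℝ, 0 < c ∧ ∀ u : EE, c * ‖u‖ ^ 2 ≤ g0 y u u := by
  obtain ⟨n, z, hz, rfl, h1, h2⟩ := exists_good_chart y
  obtain ⟨F, hF⟩ := exists_BB_finset (psi n z)
  have hB : BB n (psi n z) = Real.exp (‖z.2.1‖ ^ 2 + ‖z.2.2‖ ^ 2) := by
    rw [BB_of_mem (psi_mem_src hz), kap_psi_self hz, beta_eq h1 h2]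
  have hBpos : 0 < BB n (psi n z) := hB ▸ Real.exp_pos _
  have hc : 0 < Real.goldenRatio ^ (2 * n) * BB n (psi n z) :=
    mul_pos (zpow_pos Real.goldenRatio_pos _) hBpos
  refine ⟨Real.goldenRatio ^ (2 * n) * BB n (psi n z) / (‖dp n z‖ + 1) ^ 2, by positivity,
    fun u => ?_⟩
  rw [g0_apply_eq_sum hF]
  refine le_trans ?_ (Finset.single_le_sum (f := fun m => HH m (psi n z) u u)
    (fun m _ => HH_self_nonneg m _ u) (hF n hBpos.ne'))
  rw [HH_apply, div_mul_eq_mul_div, mul_div_assoc]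
  apply mul_le_mul_of_nonneg_left _ hc.le
  refine le_trans ?_ (norm_sq_le_eucl _)
  rw [div_le_iff₀ (by positivity), ← mul_pow]
  have e := dp_dk_self (psi_mem_src (n := n) hz) u
  rw [kap_psi_self hz] at e
  have : ‖u‖ ≤ ‖dp n z‖ * ‖dk n (psi n z) u‖ := by
    conv_lhs => rw [← e]
    exact (dp n z).le_opNorm _
  gcongr
  nlinarith [norm_nonneg (dk n (psi n z) u)]

lemma contDiffAt_smul_bilinearComp {E : Type*} [NormedAddCommGroup E] [NormedSpace ℝ E]
    (B : E →L[ℝ] E →L[ℝ] ℝ) {c : E → ℝ} {D : E → E →L[ℝ] E} {z : E}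
    (hc : ContDiffAt ℝ ∞ c z) (hD : ContDiffAt ℝ ∞ D z) :
    ContDiffAt ℝ ∞ (fun z => c z • B.bilinearComp (D z) (D z)) z := by
  have e : ∀ (a : ℝ) (D : E →L[ℝ] E), a • B.bilinearComp D D =
      ((ContinuousLinearMap.compL ℝ E E ℝ).flip (a • D)).comp (B.comp D) := by
    intro a D
    ext u v
    simp
  simp only [e]
  refine ContDiffAt.clm_comp ?_ (contDiffAt_const.clm_comp hD)
  have h : ContDiffAt ℝ ∞ (fun z => c z • D z) z := hc.smul hD
  exact ContDiffAt.comp (g := fun A : E →L[ℝ] E => (ContinuousLinearMap.compL ℝ E E ℝ).flip A) z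
    (ContinuousLinearMap.contDiff (𝕜 := ℝ) (E := E →L[ℝ] E) (F := (E →L[ℝ] ℝ) →L[ℝ] E →L[ℝ] ℝ)
      (ContinuousLinearMap.compL ℝ E E ℝ).flip).contDiffAt h

lemma contMDiffAt_HH_comp (n m : ℤ) {y : NN} (hy : y ∈ src n) :
    ContMDiffAt 𝓘(ℝ, EE) 𝓘(ℝ, EE →L[ℝ] EE →L[ℝ] ℝ) ∞
      (fun y' => (HH m y').bilinearComp (dp n (kap n y')) (dp n (kap n y'))) y := by
  by_cases hm : y ∈ src m
  · have hz := kap_mem_Om hy
    have hT : ContDiffAt ℝ ∞ (kap m ∘ psi n) (kap n y) := by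
      rw [← contMDiffAt_iff_contDiffAt]
      refine ContMDiffAt.comp _ ?_ (contMDiffAt_psi hz)
      rw [psi_kap hy]
      exact contMDiffAt_kap hm
    have hD : ContDiffAt ℝ ∞ (fderiv ℝ (kap m ∘ psi n)) (kap n y) :=
      hT.fderiv_right (by simp)
    have hF : ContDiffAt ℝ ∞ (fun z : EE => (Real.goldenRatio ^ (2 * m) * beta ((kap m ∘ psi n) z)) •
        eucl.bilinearComp (fderiv ℝ (kap m ∘ psi n) z) (fderiv ℝ (kap m ∘ psi n) z)) (kap n y) := by
      exact contDiffAt_smul_bilinearComp eucl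
        (contDiffAt_const.mul (contDiff_beta.contDiffAt.comp _ hT)) hD
    have := hF.contMDiffAt.comp y (contMDiffAt_kap hy)
    refine this.congr_of_eventuallyEq ?_
    filter_upwards [(isOpen_src n).mem_nhds hy, (isOpen_src m).mem_nhds hm] with y' h1 h2
    have e := dk_comp_dp (m := m) (n := n) (kap_mem_Om h1) (by rwa [psi_kap h1])
    rw [psi_kap h1] at e
    refine ContinuousLinearMap.ext fun u => ContinuousLinearMap.ext fun v => ?_
    simp only [Function.comp, ContinuousLinearMap.bilinearComp_apply, HH_apply, ← e, psi_kap h1,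
      BB_of_mem h2, _root_.smul_apply, ContinuousLinearMap.comp_apply, smul_eq_mul]
  · refine (contMDiffAt_const (c := 0)).congr_of_eventuallyEq ?_
    filter_upwards [BB_eventually_zero hm] with y' h
    refine ContinuousLinearMap.ext fun u => ContinuousLinearMap.ext fun v => ?_
    simp [HH_eq_zero h]

lemma contMDiffAt_g0_comp (n : ℤ) {y : NN} (hy : y ∈ src n) :
    ContMDiffAt 𝓘(ℝ, EE) 𝓘(ℝ, EE →L[ℝ] EE →L[ℝ] ℝ) ∞
      (fun y' => (g0 y').bilinearComp (dp n (kap n y')) (dp n (kap n y'))) y := by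
  obtain ⟨F, hF⟩ := BB_locally_finite y
  have := contMDiffAt_finsetSum (t := F) fun m _ => contMDiffAt_HH_comp n m hy
  refine this.congr_of_eventuallyEq ?_
  filter_upwards [hF] with y' h
  refine ContinuousLinearMap.ext fun u => ContinuousLinearMap.ext fun v => ?_
  simp only [ContinuousLinearMap.bilinearComp_apply, g0_apply_eq_sum h,
    _root_.sum_apply]

lemma symm_triv (y₀ : NN) {y : NN} (hy : y ∈ src (idx y₀)) (v : EE) :
    (trivializationAt EE (TangentSpace 𝓘(ℝ, EE)) y₀).symm y v = dp (idx y₀) (kap (idx y₀) y) v := by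
  have h := TangentBundle.symmL_trivializationAt (I := 𝓘(ℝ, EE)) (x₀ := y₀) (x := y) hy
  have h2 := congrArg (fun f : EE →L[ℝ] EE => f v) h
  simp only [modelWithCornersSelf_coe, range_id, mfderivWithin_univ] at h2
  refine Eq.trans ?_ (h2.trans ?_)
  · exact (Trivialization.symmL_apply _ hy v).symm
  · rfl

/-- The Riemannian metric on `NN`. -/
def gN : RMetric EE NN where
  inner y := g0 y
  symm y u v := g0_symm y u v
  pos y v hv := by
    obtain ⟨c, hc, h⟩ := g0_lower y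
    have h1 : 0 < @norm EE _ v := (norm_pos_iff (E := EE)).2 hv
    exact lt_of_lt_of_le (mul_pos hc (pow_pos h1 2)) (h v)
  isVonNBounded y := by
    obtain ⟨c, hc, h⟩ := g0_lower y
    change Bornology.IsVonNBounded ℝ {v : EE | g0 y v v < 1}
    refine (NormedSpace.isVonNBounded_ball ℝ EE (1 / c + 1)).subset ?_
    intro v hv
    have h1 : c * ‖v‖ ^ 2 < 1 := (h v).trans_lt hv
    rw [mem_ball_zero_iff]
    have h2 : ‖v‖ ^ 2 < 1 / c := by rw [lt_div_iff₀ hc]; linarith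
    nlinarith [norm_nonneg v]
  contMDiff := by
    intro y₀
    rw [contMDiffAt_section]
    refine (contMDiffAt_g0_comp (idx y₀) (mem_src_idx y₀)).congr_of_eventuallyEq ?_
    filter_upwards [(isOpen_src _).mem_nhds (mem_src_idx y₀)] with y hy
    refine ContinuousLinearMap.ext fun v => ContinuousLinearMap.ext fun w => ?_
    rw [hom_trivializationAt_apply]
    have := inCoordinates_apply_eq₂ (𝕜 := ℝ) (F₁ := EE) (F₂ := EE) (F₃ := ℝ)
      (E₁ := TangentSpace 𝓘(ℝ, EE)) (E₂ := TangentSpace 𝓘(ℝ, EE)) (E₃ := fun _ : NN => ℝ)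
      (x₀ := y₀) (x := y) (ϕ := g0 y) (v := v) (w := w) hy hy (mem_univ _)
    refine this.trans ?_
    rw [symm_triv y₀ hy, symm_triv y₀ hy]
    simp
    rfl

lemma ginner_gN (y : NN) (u v : EE) : ginner gN y u v = g0 y u v := rfl

lemma g0_act (r : ℝ) (t : UU) (k : ℤ) (y : NN) (u v : EE) :
    g0 (act r t k y) (dact r t k y u) (dact r t k y v) =
      (Real.goldenRatio ^ (-k)) ^ 2 * g0 y u v := by
  obtain ⟨F, hF⟩ := exists_BB_finset y
  have hF' : ∀ m, BB m (act r t k y) ≠ 0 → m ∈ F.map (Equiv.subRight k).toEmbedding := by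
    intro m hm
    rw [Finset.mem_map]
    refine ⟨m + k, hF _ ?_, by simp⟩
    rwa [← BB_act r t k, add_sub_cancel_right]
  rw [g0_apply_eq_sum hF, g0_apply_eq_sum hF', Finset.sum_map, Finset.mul_sum]
  refine Finset.sum_congr rfl fun n _ => ?_
  simp only [Equiv.coe_toEmbedding, Equiv.subRight_apply, HH_apply, BB_act]
  by_cases hB : BB n y = 0
  · simp [hB]
  · have hy := (BB_ne_zero hB).1
    rw [dk_dact r t k hy, dk_dact r t k hy, eucl_LL, ← zpow_natCast, ← zpow_mul,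
      show 2 * (n - k) = -k * (2 : ℕ) + 2 * n by push_cast; ring,
      zpow_add₀ Real.goldenRatio_ne_zero]
    ring

end Pool.Agent.P.MP_e09449_gt
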