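import Mathlib

/-!
Fibonacci monomial sequences and the transition maps of the toric chain.
-/

open Set Filter Topology
open scoped ContDiff goldenRatio

noncomputable section

namespace Pool.Agent.P.MP_e09449_gt

abbrev EE : Type := ℝ × ℂ × ℂ

def mu : ℝ := -Real.goldenRatio

lemma mu_ne : mu ≠ 0 := neg_ne_zero.2 Real.goldenRatio_ne_zero

lemma abs_mu : |mu| = Real.goldenRatio := by
  rw [mu, abs_neg, abs_of_pos Real.goldenRatio_pos]

/-- The sequence `x_j` attached to the point `(a, b)` of the chart `n`. -/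
def sq (n : ℤ) (a b : ℂ) (j : ℤ) : ℂ := a ^ Int.fib (n + 2 - j) * b ^ Int.fib (n - j)

lemma fib_pos_of_pos {k : ℤ} (hk : 0 < k) : 0 < Int.fib k := by
  obtain ⟨m, rfl⟩ := Int.eq_ofNat_of_zero_le hk.le
  rw [Int.fib_natCast]
  have : 0 < m := by exact_mod_cast hk
  exact_mod_cast Nat.fib_pos.2 this

lemma fib_nonneg_of_nonneg {k : ℤ} (hk : 0 ≤ k) : 0 ≤ Int.fib k := by
  rcases hk.eq_or_lt with rfl | h
  · simp
  · exact (fib_pos_of_pos h).le

lemma fib_nonneg_of_ge {k : ℤ} (hk : -1 ≤ k) : 0 ≤ Int.fib k := by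
  rcases hk.eq_or_lt with rfl | h
  · simp
  · exact fib_nonneg_of_nonneg (by omega)

lemma fib_pos_of_odd {k : ℤ} (hk : Odd k) : 0 < Int.fib k := by
  obtain ⟨m, rfl⟩ := hk
  exact Int.fib_two_mul_add_one_pos

lemma fib_neg_of_even {k : ℤ} (hk : Even k) (h : k < 0) : Int.fib k < 0 := by
  have h1 : Int.fib (-(-k)) = -Int.fib (-k) := by
    rw [Int.fib_neg, if_pos (by simpa using hk)]
  rw [neg_neg] at h1
  have := fib_pos_of_pos (k := -k) (by omega)
  omega

@[simp] lemma sq_self (n : ℤ) (a b : ℂ) : sq n a b n = a := by simp [sq]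

@[simp] lemma sq_add_one (n : ℤ) (a b : ℂ) : sq n a b (n + 1) = a * b := by
  have h1 : n + 2 - (n + 1) = 1 := by ring
  have h2 : n - (n + 1) = -1 := by ring
  simp [sq, h1, h2]

@[simp] lemma sq_add_two (n : ℤ) (a b : ℂ) : sq n a b (n + 2) = b⁻¹ := by
  have h1 : n + 2 - (n + 2) = 0 := by ring
  have h2 : n - (n + 2) = -2 := by ring
  simp [sq, h2]

lemma sq_sub_one (n : ℤ) (a b : ℂ) : sq n a b (n - 1) = a ^ 2 * b := by
  have h1 : n + 2 - (n - 1) = 3 := by ring
  have h2 : n - (n - 1) = 1 := by ring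
  have h3 : Int.fib 3 = 2 := by decide
  simp only [sq, h1, h2, h3, Int.fib_one, zpow_one]
  norm_cast

lemma sq_sub_two (n : ℤ) (a b : ℂ) : sq n a b (n - 2) = a ^ 3 * b := by
  have h1 : n + 2 - (n - 2) = 4 := by ring
  have h2 : n - (n - 2) = 2 := by ring
  have h3 : Int.fib 4 = 3 := by decide
  simp only [sq, h1, h2, h3, Int.fib_two, zpow_one]
  norm_cast

lemma sq_add_three (n : ℤ) (a b : ℂ) : sq n a b (n + 3) = a * b ^ 2 := by
  have h1 : n + 2 - (n + 3) = -1 := by ring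
  have h2 : n - (n + 3) = -3 := by ring
  have h3 : Int.fib (-3) = 2 := by decide
  simp only [sq, h1, h2, h3, Int.fib_neg_one, zpow_one]
  norm_cast

lemma sq_shift (n k : ℤ) (a b : ℂ) (j : ℤ) : sq (n - k) a b j = sq n a b (j + k) := by
  have h1 : n - k + 2 - j = n + 2 - (j + k) := by ring
  have h2 : n - k - j = n - (j + k) := by ring
  simp only [sq, h1, h2]

lemma sq_mul (n : ℤ) (a b a' b' : ℂ) (j : ℤ) :
    sq n (a * a') (b * b') j = sq n a b j * sq n a' b' j := by
  simp only [sq, mul_zpow]; ring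

lemma sq_ne_zero {n : ℤ} {a b : ℂ} (ha : a ≠ 0) (hb : b ≠ 0) (j : ℤ) : sq n a b j ≠ 0 :=
  mul_ne_zero (zpow_ne_zero _ ha) (zpow_ne_zero _ hb)

/-- Multiplicative Fibonacci recurrence. -/
def Rec (x : ℤ → ℂ) : Prop := ∀ j, x j = x (j + 1) * x (j + 2)

lemma fib_rec (k : ℤ) : Int.fib k = Int.fib (k - 1) + Int.fib (k - 2) := by
  have := Int.fib_add_two (k - 2)
  have h1 : k - 2 + 2 = k := by ring
  have h2 : k - 2 + 1 = k - 1 := by ring
  rw [h1, h2] at this
  omega

lemma sq_rec {n : ℤ} {a b : ℂ} (ha : a ≠ 0) (hb : b ≠ 0) : Rec (sq n a b) := by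
  intro j
  have h1 : n + 2 - (j + 1) = n + 2 - j - 1 := by ring
  have h2 : n + 2 - (j + 2) = n + 2 - j - 2 := by ring
  have h3 : n - (j + 1) = n - j - 1 := by ring
  have h4 : n - (j + 2) = n - j - 2 := by ring
  simp only [sq, h1, h2, h3, h4]
  rw [fib_rec (n + 2 - j), fib_rec (n - j), zpow_add₀ ha, zpow_add₀ hb]
  ring

lemma zpow_add_nonneg (a : ℂ) {p q : ℤ} (hp : 0 ≤ p) (hq : 0 ≤ q) : a ^ (p + q) = a ^ p * a ^ q := by
  obtain ⟨p, rfl⟩ := Int.eq_ofNat_of_zero_le hp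
  obtain ⟨q, rfl⟩ := Int.eq_ofNat_of_zero_le hq
  rw [← Nat.cast_add, zpow_natCast, zpow_natCast, zpow_natCast, pow_add]

lemma sq_rec_of_le {n : ℤ} (a b : ℂ) {j : ℤ} (hj : j ≤ n - 1) :
    sq n a b j = sq n a b (j + 1) * sq n a b (j + 2) := by
  have h1 : n + 2 - (j + 1) = n + 2 - j - 1 := by ring
  have h2 : n + 2 - (j + 2) = n + 2 - j - 2 := by ring
  have h3 : n - (j + 1) = n - j - 1 := by ring
  have h4 : n - (j + 2) = n - j - 2 := by ring
  simp only [sq, h1, h2, h3, h4]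
  rw [fib_rec (n + 2 - j), fib_rec (n - j),
    zpow_add_nonneg a (fib_nonneg_of_ge (by omega)) (fib_nonneg_of_ge (by omega)),
    zpow_add_nonneg b (fib_nonneg_of_ge (by omega)) (fib_nonneg_of_ge (by omega))]
  ring

lemma rec_ext_succ {x y : ℤ → ℂ} (hx : Rec x) (hy : Rec y) (hx0 : ∀ j, x j ≠ 0) {n : ℤ}
    (h0 : x n = y n) (h1 : x (n + 1) = y (n + 1)) : x = y := by
  have key : ∀ j, x j = y j ∧ x (j + 1) = y (j + 1) := by
    intro j
    induction j using Int.inductionOn' (b := n) with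
    | zero => exact ⟨h0, h1⟩
    | succ k _ ih =>
      refine ⟨ih.2, ?_⟩
      have e1 := hx k
      have e2 := hy k
      rw [ih.1, ih.2, e2] at e1
      have hne : y (k + 1) ≠ 0 := ih.2 ▸ hx0 (k + 1)
      have := mul_left_cancel₀ hne e1
      rw [show k + 1 + 1 = k + 2 by ring]
      exact this.symm
    | pred k _ ih =>
      refine ⟨?_, by rw [show k - 1 + 1 = k by ring]; exact ih.1⟩
      rw [hx (k - 1), hy (k - 1), show k - 1 + 1 = k by ring, show k - 1 + 2 = k + 1 by ring,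
        ih.1, ih.2]
  exact funext fun j => (key j).1

lemma rec_ext {x y : ℤ → ℂ} (hx : Rec x) (hy : Rec y) (hx0 : ∀ j, x j ≠ 0) {n : ℤ}
    (h0 : x n = y n) (h2 : x (n + 2) = y (n + 2)) : x = y := by
  refine rec_ext_succ hx hy hx0 h0 ?_
  have e1 := hx n
  have e2 := hy n
  rw [h0, h2, e2] at e1
  exact (mul_right_cancel₀ (h2 ▸ hx0 (n + 2)) e1).symm

lemma Rec.eq_sq {x : ℤ → ℂ} (hx : Rec x) (hx0 : ∀ j, x j ≠ 0) (n : ℤ) :
    x = sq n (x n) (x (n + 2))⁻¹ :=
  rec_ext hx (sq_rec (hx0 _) (inv_ne_zero (hx0 _))) hx0 (n := n) (by simp) (by simp)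

lemma sq_zero_left (n : ℤ) (b : ℂ) {j : ℤ} (hj : j ≠ n + 2) : sq n 0 b j = 0 := by
  have : Int.fib (n + 2 - j) ≠ 0 := by
    rw [Ne, Int.fib_eq_zero]; omega
  simp [sq, zero_zpow _ this]

lemma sq_zero_right (n : ℤ) (a : ℂ) {j : ℤ} (hj : j ≠ n) : sq n a 0 j = 0 := by
  have : Int.fib (n - j) ≠ 0 := by
    rw [Ne, Int.fib_eq_zero]; omega
  simp [sq, zero_zpow _ this]

lemma sq_zero_zero (n j : ℤ) : sq n 0 0 j = 0 := by
  by_cases h : j = n
  · simp [h]
  · exact sq_zero_right n 0 h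

/-- The common domain of all charts. -/
def Om : Set EE := {z | ‖z.2.1 ^ 2 * z.2.2‖ < 1 ∧ ‖z.2.1 ^ 3 * z.2.2‖ < 1}

lemma isOpen_Om : IsOpen Om := by
  have h1 : IsOpen {z : EE | ‖z.2.1 ^ 2 * z.2.2‖ < 1} := isOpen_lt (by fun_prop) continuous_const
  have h2 : IsOpen {z : EE | ‖z.2.1 ^ 3 * z.2.2‖ < 1} := isOpen_lt (by fun_prop) continuous_const
  exact h1.inter h2

lemma zero_mem_Om : (0 : EE) ∈ Om := by simp [Om]

/-- Geometric decay of the sequence towards `-∞`. -/
lemma norm_sq_le {n : ℤ} {a b : ℂ} {ρ : ℝ} (hρ : ρ ≤ 1) (h1 : ‖a ^ 2 * b‖ ≤ ρ)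
    (h2 : ‖a ^ 3 * b‖ ≤ ρ) (i : ℕ) : ‖sq n a b (n - 2 - i)‖ ≤ ρ ^ (i + 1) := by
  have hρ0 : 0 ≤ ρ := (norm_nonneg _).trans h1
  have key : ∀ i : ℕ, ‖sq n a b (n - 1 - i)‖ ≤ ρ ^ (max i 1) ∧
      ‖sq n a b (n - 2 - i)‖ ≤ ρ ^ (i + 1) := by
    intro i
    induction i with
    | zero =>
      simp only [Nat.cast_zero, sub_zero, sq_sub_one, sq_sub_two]
      exact ⟨by simpa using h1, by simpa using h2⟩
    | succ k ih =>
      constructor
      · have : n - 1 - ((k + 1 : ℕ) : ℤ) = n - 2 - k := by push_cast; ring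
        rw [this, max_eq_left (by omega)]
        exact ih.2
      · have e : n - 2 - ((k + 1 : ℕ) : ℤ) = n - 3 - k := by push_cast; ring
        rw [e, sq_rec_of_le a b (by omega), norm_mul, show n - 3 - (k : ℤ) + 1 = n - 2 - k by ring,
          show n - 3 - (k : ℤ) + 2 = n - 1 - k by ring]
        calc _ ≤ ρ ^ (k + 1) * ρ ^ (max k 1) :=
              mul_le_mul ih.2 ih.1 (norm_nonneg _) (by positivity)
          _ ≤ ρ ^ (k + 1) * ρ ^ 1 := by
              apply mul_le_mul_of_nonneg_left _ (by positivity)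
              exact pow_le_pow_of_le_one hρ0 hρ (le_max_right _ _)
          _ = ρ ^ (k + 1 + 1) := by ring
  exact (key i).2

lemma norm_sq_lt_one {n : ℤ} {z : EE} (hz : z ∈ Om) {j : ℤ} (hj : j ≤ n - 1) :
    ‖sq n z.2.1 z.2.2 j‖ < 1 := by
  rcases hj.eq_or_lt with rfl | hj
  · rw [sq_sub_one]; exact hz.1
  · set ρ := max ‖z.2.1 ^ 2 * z.2.2‖ ‖z.2.1 ^ 3 * z.2.2‖ with hρ
    have hρ1 : ρ < 1 := max_lt hz.1 hz.2
    have hρ0 : 0 ≤ ρ := le_max_of_le_left (norm_nonneg _)
    obtain ⟨i, hi⟩ : ∃ i : ℕ, j = n - 2 - i := ⟨(n - 2 - j).toNat, by omega⟩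
    rw [hi]
    exact (norm_sq_le hρ1.le (le_max_left _ _) (le_max_right _ _) i).trans_lt
      (pow_lt_one₀ hρ0 hρ1 (by omega))

/-- The normal form of the point `z` of chart `n`. -/
def nf (n : ℤ) (z : EE) : ℝ × (ℤ → ℂ) × ℤ :=
  (mu ^ (-n) * z.1, sq n z.2.1 z.2.2, if z.2 = 0 then n else 0)

/-- The transition map from chart `n` to chart `m`. -/
def TT (n m : ℤ) (z : EE) : EE :=
  (mu ^ (m - n) * z.1, sq n z.2.1 z.2.2 m, (sq n z.2.1 z.2.2 (m + 2))⁻¹)

/-- The domain of the transition map (for `k = m - n`). -/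
def Dom (k : ℤ) : Set EE :=
  {z | (z.2.1 ≠ 0 ∨ k = 0 ∨ k = 2) ∧ (z.2.2 ≠ 0 ∨ k = 0 ∨ k = -2)}

lemma isOpen_Dom (k : ℤ) : IsOpen (Dom k) := by
  refine IsOpen.inter (IsOpen.union ?_ isOpen_const) (IsOpen.union ?_ isOpen_const)
  · exact isOpen_ne_fun (by fun_prop) continuous_const
  · exact isOpen_ne_fun (by fun_prop) continuous_const

@[simp] lemma TT_self (n : ℤ) (z : EE) : TT n n z = z := by
  simp [TT]

lemma nf_eq_iff {n m : ℤ} {z w : EE} : nf n z = nf m w ↔ z ∈ Dom (m - n) ∧ w = TT n m z := by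
  obtain ⟨s, a, b⟩ := z
  obtain ⟨s', a', b'⟩ := w
  simp only [nf, TT, Dom, Prod.mk.injEq, mem_ofPred_eq, Prod.mk_eq_zero]
  have hs : mu ^ (-n) * s = mu ^ (-m) * s' ↔ s' = mu ^ (m - n) * s := by
    have hm : mu ^ (m - n) = mu ^ m * mu ^ (-n) := by
      rw [← zpow_add₀ mu_ne]; ring_nf
    have hm' : mu ^ (-m) * mu ^ m = 1 := by
      rw [← zpow_add₀ mu_ne]; simp
    constructor
    · intro h
      rw [hm, mul_assoc, h, ← mul_assoc, mul_comm (mu ^ m), hm', one_mul]
    · intro h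
      rw [h, hm, ← mul_assoc, ← mul_assoc, hm', one_mul]
  rw [hs]
  constructor
  · rintro ⟨h1, h2, h3⟩
    have ha' : a' = sq n a b m := by rw [h2, sq_self]
    have hb' : b' = (sq n a b (m + 2))⁻¹ := by rw [h2, sq_add_two, inv_inv]
    refine ⟨?_, h1, ha', hb'⟩
    have hzero : (a = 0 ∧ b = 0) ↔ (a' = 0 ∧ b' = 0) := by
      constructor
      · rintro ⟨rfl, rfl⟩
        simp [ha', hb', sq_zero_zero]
      · rintro ⟨rfl, rfl⟩
        have e1 := congrFun h2 n
        have e2 := congrFun h2 (n + 2)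
        rw [sq_zero_zero] at e1 e2
        simp only [sq_self, sq_add_two, inv_eq_zero] at e1 e2
        exact ⟨e1, e2⟩
    by_cases hab : a = 0 ∧ b = 0
    · rw [if_pos hab, if_pos (hzero.1 hab)] at h3
      constructor <;> omega
    · have hab' : ¬ (a' = 0 ∧ b' = 0) := fun h => hab (hzero.2 h)
      constructor
      · by_contra hcon
        push Not at hcon
        obtain ⟨rfl, c1, c2⟩ := hcon
        apply hab'
        rw [ha', hb', sq_zero_left n b (by omega), sq_zero_left n b (by omega)]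
        simp
      · by_contra hcon
        push Not at hcon
        obtain ⟨rfl, c1, c2⟩ := hcon
        apply hab'
        rw [ha', hb', sq_zero_right n a (by omega), sq_zero_right n a (by omega)]
        simp
  · rintro ⟨⟨d1, d2⟩, h1, rfl, rfl⟩
    refine ⟨h1, ?_⟩
    by_cases hk : m = n
    · subst hk; simp
    by_cases ha : a = 0
    · subst ha
      have hm : m = n + 2 := by
        rcases d1 with h | h | h
        · exact absurd rfl h
        · omega
        · omega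
      subst hm
      have hb : b ≠ 0 := by
        rcases d2 with h | h | h
        · exact h
        · omega
        · omega
      rw [sq_add_two, sq_zero_left n b (j := n + 2 + 2) (by omega), inv_zero]
      refine ⟨?_, by simp [hb]⟩
      funext j
      by_cases hj : j = n + 2
      · subst hj; simp
      · rw [sq_zero_left n b hj, sq_zero_right _ _ hj]
    by_cases hb : b = 0
    · subst hb
      have hm : n = m + 2 := by
        rcases d2 with h | h | h
        · exact absurd rfl h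
        · omega
        · omega
      subst hm
      rw [sq_self, sq_zero_right _ a (j := m) (by omega)]
      refine ⟨?_, by simp [ha]⟩
      funext j
      by_cases hj : j = m + 2
      · subst hj; simp
      · rw [sq_zero_left m _ hj, sq_zero_right _ _ hj]
    refine ⟨(sq_rec ha hb).eq_sq (sq_ne_zero ha hb) m, ?_⟩
    simp [ha, sq_ne_zero ha hb]

lemma contDiffAt_zpow_of {e : ℤ} {a : ℂ} (h : a ≠ 0 ∨ 0 ≤ e) :
    ContDiffAt ℝ ∞ (fun x : ℂ => x ^ e) a := by
  rcases le_or_gt 0 e with he | he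
  · obtain ⟨k, rfl⟩ := Int.eq_ofNat_of_zero_le he
    simp only [zpow_natCast]
    fun_prop
  · have ha : a ≠ 0 := h.resolve_right (by omega)
    obtain ⟨k, rfl⟩ : ∃ k : ℕ, e = -k := ⟨(-e).toNat, by omega⟩
    simp only [zpow_neg, zpow_natCast]
    exact ContDiffAt.inv (by fun_prop) (pow_ne_zero _ ha)

lemma TT_eq (n m : ℤ) : TT n m = fun z : EE =>
    (mu ^ (m - n) * z.1, z.2.1 ^ Int.fib (2 - (m - n)) * z.2.2 ^ Int.fib (-(m - n)),
      z.2.1 ^ (-Int.fib (-(m - n))) * z.2.2 ^ (-Int.fib (-(m - n) - 2))) := by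
  funext z
  have h1 : n + 2 - m = 2 - (m - n) := by ring
  have h2 : n - m = -(m - n) := by ring
  have h3 : n + 2 - (m + 2) = -(m - n) := by ring
  have h4 : n - (m + 2) = -(m - n) - 2 := by ring
  simp only [TT, sq, h1, h2, h3, h4, zpow_neg, mul_inv]

lemma contDiffAt_TT {n m : ℤ} {z : EE} (hz : z ∈ Dom (m - n)) : ContDiffAt ℝ ∞ (TT n m) z := by
  rw [TT_eq]
  generalize m - n = k at *
  obtain ⟨d1, d2⟩ := hz
  have ha : ContDiffAt ℝ ∞ (fun z : EE => z.2.1) z := by fun_prop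
  have hb : ContDiffAt ℝ ∞ (fun z : EE => z.2.2) z := by fun_prop
  have A : ∀ e : ℤ, (z.2.1 ≠ 0 ∨ 0 ≤ e) → ContDiffAt ℝ ∞ (fun z : EE => z.2.1 ^ e) z :=
    fun e h => ContDiffAt.comp (g := fun x : ℂ => x ^ e) z (contDiffAt_zpow_of h) ha
  have B : ∀ e : ℤ, (z.2.2 ≠ 0 ∨ 0 ≤ e) → ContDiffAt ℝ ∞ (fun z : EE => z.2.2 ^ e) z :=
    fun e h => ContDiffAt.comp (g := fun x : ℂ => x ^ e) z (contDiffAt_zpow_of h) hb
  refine ContDiffAt.prodMk (by fun_prop) (ContDiffAt.prodMk ?_ ?_)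
  · refine (A _ ?_).mul (B _ ?_)
    · rcases d1 with h | rfl | rfl
      · exact Or.inl h
      · right; decide
      · right; decide
    · rcases d2 with h | rfl | rfl
      · exact Or.inl h
      · right; decide
      · right; decide
  · refine (A _ ?_).mul (B _ ?_)
    · rcases d1 with h | rfl | rfl
      · exact Or.inl h
      · right; decide
      · right; decide
    · rcases d2 with h | rfl | rfl
      · exact Or.inl h
      · right; decide
      · right; decide

lemma continuous_zpow_nonneg {e : ℤ} (he : 0 ≤ e) : Continuous (fun x : ℂ => x ^ e) :=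
  continuous_iff_continuousAt.2 fun _ => (contDiffAt_zpow_of (Or.inr he)).continuousAt

/-- The graph of a transition map is closed. -/
lemma isClosed_graph (n m : ℤ) : IsClosed {p : EE × EE | nf n p.1 = nf m p.2} := by
  simp only [nf_eq_iff, TT_eq]
  generalize m - n = k
  have ha : Continuous (fun p : EE × EE => p.1.2.1) := by fun_prop
  have hb : Continuous (fun p : EE × EE => p.1.2.2) := by fun_prop
  have A : ∀ e : ℤ, 0 ≤ e → Continuous (fun p : EE × EE => p.1.2.1 ^ e) :=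
    fun e h => (continuous_zpow_nonneg h).comp ha
  have B : ∀ e : ℤ, 0 ≤ e → Continuous (fun p : EE × EE => p.1.2.2 ^ e) :=
    fun e h => (continuous_zpow_nonneg h).comp hb
  by_cases h0 : k = 0
  · subst h0
    have : {p : EE × EE | p.1 ∈ Dom 0 ∧ p.2 = (mu ^ (0 : ℤ) * p.1.1,
        p.1.2.1 ^ Int.fib (2 - 0) * p.1.2.2 ^ Int.fib (-0),
        p.1.2.1 ^ (-Int.fib (-0)) * p.1.2.2 ^ (-Int.fib (-0 - 2)))} = {p | p.2 = p.1} := by
      ext p
      simp [Dom]
    rw [this]
    exact isClosed_eq continuous_snd continuous_fst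
  by_cases h1 : Odd k ∨ k < 0
  · have e1 : 0 < Int.fib (2 - k) := by
      rcases h1 with h | h
      · exact fib_pos_of_odd (by grind)
      · exact fib_pos_of_pos (by omega)
    have e2 : 0 < Int.fib (-k) := by
      rcases h1 with h | h
      · exact fib_pos_of_odd (by grind)
      · exact fib_pos_of_pos (by omega)
    have e3 : 0 ≤ Int.fib (-k - 2) := by
      rcases h1 with h | h
      · exact (fib_pos_of_odd (by grind)).le
      · exact fib_nonneg_of_ge (by omega)
    have : {p : EE × EE | p.1 ∈ Dom k ∧ p.2 = (mu ^ k * p.1.1,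
        p.1.2.1 ^ Int.fib (2 - k) * p.1.2.2 ^ Int.fib (-k),
        p.1.2.1 ^ (-Int.fib (-k)) * p.1.2.2 ^ (-Int.fib (-k - 2)))} =
        {p | p.2.1 = mu ^ k * p.1.1} ∩
        ({p | p.2.2.1 = p.1.2.1 ^ Int.fib (2 - k) * p.1.2.2 ^ Int.fib (-k)} ∩
        {p | p.2.2.2 * (p.1.2.1 ^ Int.fib (-k) * p.1.2.2 ^ Int.fib (-k - 2)) = 1}) := by
      ext ⟨⟨s, a, b⟩, ⟨s', a', b'⟩⟩
      simp only [Dom, mem_ofPred_eq, mem_inter_iff, Prod.mk.injEq, zpow_neg, ← mul_inv]
      constructor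
      · rintro ⟨⟨d1, d2⟩, c1, c2, c3⟩
        refine ⟨c1, c2, ?_⟩
        rw [c3]
        apply inv_mul_cancel₀
        apply mul_ne_zero
        · apply zpow_ne_zero
          rcases d1 with h | h | h
          · exact h
          · exact absurd h h0
          · subst h; exact absurd e1 (by decide)
        · rcases d2 with h | h | h
          · exact zpow_ne_zero _ h
          · exact absurd h h0
          · subst h; simp
      · rintro ⟨c1, c2, c3⟩
        have hne : a ^ Int.fib (-k) * b ^ Int.fib (-k - 2) ≠ 0 := right_ne_zero_of_mul_eq_one c3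
        refine ⟨⟨Or.inl ?_, ?_⟩, c1, c2, eq_inv_of_mul_eq_one_left c3⟩
        · rintro rfl
          exact hne (by rw [zero_zpow _ e2.ne', zero_mul])
        · by_cases hk : k = -2
          · exact Or.inr (Or.inr hk)
          · left
            rintro rfl
            have : Int.fib (-k - 2) ≠ 0 := by rw [Ne, Int.fib_eq_zero]; omega
            exact hne (by rw [zero_zpow _ this, mul_zero])
    rw [this]
    refine (isClosed_eq (by fun_prop) (by fun_prop)).inter
      ((isClosed_eq (by fun_prop) ((A _ e1.le).mul (B _ e2.le))).inter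
      (isClosed_eq (Continuous.mul (by fun_prop) ((A _ e2.le).mul (B _ e3))) continuous_const))
  · push Not at h1
    have hev : Even k := Int.not_odd_iff_even.1 h1.1
    have hk2 : 2 ≤ k := by
      obtain ⟨r, hr⟩ := hev
      omega
    have e1 : 0 ≤ -Int.fib (2 - k) := by
      rcases hk2.eq_or_lt with h | h
      · subst h; simp
      · have := fib_neg_of_even (k := 2 - k) (by grind) (by omega)
        omega
    have e2 : 0 < -Int.fib (-k) := by
      have := fib_neg_of_even (k := -k) (by grind) (by omega)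
      omega
    have e3 : 0 < -Int.fib (-k - 2) := by
      have := fib_neg_of_even (k := -k - 2) (by grind) (by omega)
      omega
    have : {p : EE × EE | p.1 ∈ Dom k ∧ p.2 = (mu ^ k * p.1.1,
        p.1.2.1 ^ Int.fib (2 - k) * p.1.2.2 ^ Int.fib (-k),
        p.1.2.1 ^ (-Int.fib (-k)) * p.1.2.2 ^ (-Int.fib (-k - 2)))} =
        {p | p.2.1 = mu ^ k * p.1.1} ∩
        ({p | p.2.2.1 * (p.1.2.1 ^ (-Int.fib (2 - k)) * p.1.2.2 ^ (-Int.fib (-k))) = 1} ∩
        {p | p.2.2.2 = p.1.2.1 ^ (-Int.fib (-k)) * p.1.2.2 ^ (-Int.fib (-k - 2))}) := by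
      ext ⟨⟨s, a, b⟩, ⟨s', a', b'⟩⟩
      simp only [Dom, mem_ofPred_eq, mem_inter_iff, Prod.mk.injEq]
      constructor
      · rintro ⟨⟨d1, d2⟩, c1, c2, c3⟩
        refine ⟨c1, ?_, c3⟩
        rw [c2, zpow_neg, zpow_neg, ← mul_inv]
        apply mul_inv_cancel₀
        apply mul_ne_zero
        · rcases d1 with h | h | h
          · exact zpow_ne_zero _ h
          · exact absurd h h0
          · subst h; simp
        · apply zpow_ne_zero
          rcases d2 with h | h | h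
          · exact h
          · exact absurd h h0
          · omega
      · rintro ⟨c1, c2, c3⟩
        have hne : a ^ (-Int.fib (2 - k)) * b ^ (-Int.fib (-k)) ≠ 0 :=
          right_ne_zero_of_mul_eq_one c2
        refine ⟨⟨?_, Or.inl ?_⟩, c1, ?_, c3⟩
        · by_cases hk : k = 2
          · exact Or.inr (Or.inr hk)
          · left
            rintro rfl
            have : -Int.fib (2 - k) ≠ 0 := by rw [Ne, neg_eq_zero, Int.fib_eq_zero]; omega
            exact hne (by rw [zero_zpow _ this, zero_mul])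
        · rintro rfl
          exact hne (by rw [zero_zpow _ e2.ne', mul_zero])
        · rw [eq_inv_of_mul_eq_one_left c2, zpow_neg, zpow_neg, mul_inv, inv_inv, inv_inv]
    rw [this]
    refine (isClosed_eq (by fun_prop) (by fun_prop)).inter
      ((isClosed_eq (Continuous.mul (by fun_prop) ((A _ e1).mul (B _ e2.le))) continuous_const).inter
      (isClosed_eq (by fun_prop) ((A _ e2.le).mul (B _ e3.le))))

/-- Charts of bounded type overlap only when their indices are close. -/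
lemma exists_index_bound {R ρ : ℝ} (hρ : ρ < 1) : ∃ k₀ : ℕ, ∀ (n m : ℤ) (z w : EE),
    ‖z.2.2‖ ≤ R → ‖w.2.1 ^ 2 * w.2.2‖ ≤ ρ → ‖w.2.1 ^ 3 * w.2.2‖ ≤ ρ → nf n z = nf m w →
      m - n ≤ k₀ := by
  by_cases hρ0 : ρ < 0
  · exact ⟨0, fun n m z w _ h => absurd ((norm_nonneg _).trans h) (by linarith)⟩
  push Not at hρ0
  obtain ⟨k, hk⟩ := exists_pow_lt_of_lt_one (show (0 : ℝ) < (|R| + 1)⁻¹ by positivity) hρ
  refine ⟨k + 4, fun n m z w hR h1 h2 h => ?_⟩
  by_contra hcon
  push Not at hcon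
  have hd := (nf_eq_iff.1 h).1
  have hb : z.2.2 ≠ 0 := by
    rcases hd.2 with h | h | h
    · exact h
    · omega
    · omega
  have hseq : sq n z.2.1 z.2.2 = sq m w.2.1 w.2.2 := congrArg (fun p => p.2.1) h
  obtain ⟨i, hi, hik⟩ : ∃ i : ℕ, n + 2 = m - 2 - i ∧ k ≤ i := ⟨(m - n - 4).toNat, by omega, by omega⟩
  have e1 := norm_sq_le (n := m) hρ.le h1 h2 i
  rw [← hi, ← hseq, sq_add_two, norm_inv] at e1
  have e2 : ρ ^ (i + 1) ≤ ρ ^ k := pow_le_pow_of_le_one hρ0 hρ.le (by omega)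
  have e3 : ‖z.2.2‖⁻¹ < (|R| + 1)⁻¹ := (e1.trans e2).trans_lt hk
  have hpos : 0 < ‖z.2.2‖ := norm_pos_iff.2 hb
  rw [inv_lt_inv₀ hpos (by positivity)] at e3
  linarith [le_abs_self R]

end Pool.Agent.P.MP_e09449_gt
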