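import Pool.Agent.P.MP_e09449_gt.Seq

/-!
The manifold `NN`, glued from copies of `Om` indexed by the integers.
-/

open Set Filter Topology Manifold
open scoped ContDiff

noncomputable section

namespace Pool.Agent.P.MP_e09449_gt

/-- The manifold `N`. -/
def NN : Type := {y : ℝ × (ℤ → ℂ) × ℤ // ∃ n z, z ∈ Om ∧ nf n z = y}

namespace NN

def s (y : NN) : ℝ := y.1.1
def x (y : NN) : ℤ → ℂ := y.1.2.1
def tag (y : NN) : ℤ := y.1.2.2

end NN

open Classical in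
/-- Inverse of the chart `n`. -/
def psi (n : ℤ) (z : EE) : NN :=
  if h : z ∈ Om then ⟨nf n z, n, z, h, rfl⟩ else ⟨nf n 0, n, 0, zero_mem_Om, rfl⟩

/-- The chart `n`. -/
def kap (n : ℤ) (y : NN) : EE := (mu ^ n * y.s, y.x n, (y.x (n + 2))⁻¹)

lemma psi_val {n : ℤ} {z : EE} (hz : z ∈ Om) : (psi n z).1 = nf n z := by
  simp [psi, hz]

lemma psi_s {n : ℤ} {z : EE} (hz : z ∈ Om) : (psi n z).s = mu ^ (-n) * z.1 := by
  simp [NN.s, psi_val hz, nf]

lemma psi_x {n : ℤ} {z : EE} (hz : z ∈ Om) : (psi n z).x = sq n z.2.1 z.2.2 := by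
  simp [NN.x, psi_val hz, nf]

lemma psi_tag {n : ℤ} {z : EE} (hz : z ∈ Om) : (psi n z).tag = if z.2 = 0 then n else 0 := by
  simp [NN.tag, psi_val hz, nf]

lemma NN.ext' {y y' : NN} (h1 : y.s = y'.s) (h2 : y.x = y'.x) (h3 : y.tag = y'.tag) : y = y' :=
  Subtype.ext (Prod.ext h1 (Prod.ext h2 h3))

lemma exists_psi (y : NN) : ∃ n z, z ∈ Om ∧ psi n z = y := by
  obtain ⟨n, z, hz, h⟩ := y.2
  exact ⟨n, z, hz, Subtype.ext (by rw [psi_val hz, h])⟩

lemma kap_psi {n m : ℤ} {z : EE} (hz : z ∈ Om) : kap m (psi n z) = TT n m z := by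
  simp only [kap, psi_s hz, psi_x hz, TT]
  rw [← mul_assoc, ← zpow_add₀ mu_ne, sub_eq_add_neg]

lemma kap_psi_self {n : ℤ} {z : EE} (hz : z ∈ Om) : kap n (psi n z) = z := by
  rw [kap_psi hz, TT_self]

lemma psi_eq_iff_nf {n m : ℤ} {z w : EE} (hz : z ∈ Om) (hw : w ∈ Om) :
    psi n z = psi m w ↔ nf n z = nf m w := by
  rw [← psi_val hz, ← psi_val hw]
  exact Subtype.ext_iff

lemma psi_eq_iff {n m : ℤ} {z w : EE} (hz : z ∈ Om) (hw : w ∈ Om) :
    psi n z = psi m w ↔ z ∈ Dom (m - n) ∧ w = TT n m z := by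
  rw [psi_eq_iff_nf hz hw, nf_eq_iff]

instance : TopologicalSpace NN where
  IsOpen U := ∀ n, IsOpen (Om ∩ psi n ⁻¹' U)
  isOpen_univ n := by simpa using isOpen_Om
  isOpen_inter U V hU hV n := by
    have := (hU n).inter (hV n)
    convert this using 1
    ext z; simp only [mem_inter_iff, mem_preimage]; tauto
  isOpen_sUnion S hS n := by
    rw [preimage_sUnion, inter_iUnion₂]
    exact isOpen_biUnion fun U hU => hS U hU n

lemma isOpen_NN_iff {U : Set NN} : IsOpen U ↔ ∀ n, IsOpen (Om ∩ psi n ⁻¹' U) := Iff.rfl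

lemma continuousOn_psi (n : ℤ) : ContinuousOn (psi n) Om := by
  rw [continuousOn_open_iff isOpen_Om]
  exact fun U hU => hU n

lemma isOpen_psi_image (n : ℤ) {V : Set EE} (hV : IsOpen V) (hVO : V ⊆ Om) :
    IsOpen (psi n '' V) := by
  intro m
  have : Om ∩ psi m ⁻¹' (psi n '' V) = (Om ∩ Dom (n - m)) ∩ TT m n ⁻¹' V := by
    ext w
    simp only [mem_inter_iff, mem_preimage, mem_image]
    constructor
    · rintro ⟨hw, z, hz, h⟩
      have := (psi_eq_iff hw (hVO hz)).1 h.symm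
      exact ⟨⟨hw, this.1⟩, this.2 ▸ hz⟩
    · rintro ⟨⟨hw, hd⟩, hz⟩
      exact ⟨hw, _, hz, ((psi_eq_iff hw (hVO hz)).2 ⟨hd, rfl⟩).symm⟩
  rw [this]
  apply ContinuousOn.isOpen_inter_preimage _ (isOpen_Om.inter (isOpen_Dom _)) hV
  exact fun w hw => (contDiffAt_TT hw.2).continuousAt.continuousWithinAt

/-- The domain of the chart `n`. -/
def src (n : ℤ) : Set NN := psi n '' Om

lemma isOpen_src (n : ℤ) : IsOpen (src n) := isOpen_psi_image n isOpen_Om subset_rfl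

lemma psi_mem_src {n : ℤ} {z : EE} (hz : z ∈ Om) : psi n z ∈ src n := ⟨z, hz, rfl⟩

lemma kap_mem_Om {n : ℤ} {y : NN} (hy : y ∈ src n) : kap n y ∈ Om := by
  obtain ⟨z, hz, rfl⟩ := hy
  rwa [kap_psi_self hz]

lemma psi_kap {n : ℤ} {y : NN} (hy : y ∈ src n) : psi n (kap n y) = y := by
  obtain ⟨z, hz, rfl⟩ := hy
  rw [kap_psi_self hz]

lemma psi_mem_src_iff {n m : ℤ} {z : EE} (hz : z ∈ Om) :
    psi n z ∈ src m ↔ z ∈ Dom (m - n) ∧ TT n m z ∈ Om := by
  constructor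
  · rintro ⟨w, hw, h⟩
    have := (psi_eq_iff hz hw).1 h.symm
    exact ⟨this.1, this.2 ▸ hw⟩
  · rintro ⟨h1, h2⟩
    exact ⟨_, h2, ((psi_eq_iff hz h2).2 ⟨h1, rfl⟩).symm⟩

/-- The chart `n` as an open partial homeomorphism. -/
def chartN (n : ℤ) : OpenPartialHomeomorph NN EE where
  toFun := kap n
  invFun := psi n
  source := src n
  target := Om
  map_source' _ hy := kap_mem_Om hy
  map_target' _ hz := psi_mem_src hz
  left_inv' _ hy := psi_kap hy
  right_inv' _ hz := kap_psi_self hz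
  open_source := isOpen_src n
  open_target := isOpen_Om
  continuousOn_toFun := by
    rw [continuousOn_open_iff (isOpen_src n)]
    intro U hU
    have : src n ∩ kap n ⁻¹' U = psi n '' (Om ∩ U) := by
      ext y
      constructor
      · rintro ⟨hy, hU⟩
        exact ⟨kap n y, ⟨kap_mem_Om hy, hU⟩, psi_kap hy⟩
      · rintro ⟨z, ⟨hz, hU⟩, rfl⟩
        exact ⟨psi_mem_src hz, by rwa [mem_preimage, kap_psi_self hz]⟩
    rw [this]
    exact isOpen_psi_image n (isOpen_Om.inter hU) inter_subset_left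
  continuousOn_invFun := continuousOn_psi n

@[simp] lemma chartN_coe (n : ℤ) : ⇑(chartN n) = kap n := rfl
@[simp] lemma chartN_symm_coe (n : ℤ) : ⇑(chartN n).symm = psi n := rfl
@[simp] lemma chartN_source (n : ℤ) : (chartN n).source = src n := rfl
@[simp] lemma chartN_target (n : ℤ) : (chartN n).target = Om := rfl

/-- A chart index for each point. -/
def idx (y : NN) : ℤ := (exists_psi y).choose

lemma mem_src_idx (y : NN) : y ∈ src (idx y) := by
  obtain ⟨z, hz, h⟩ := (exists_psi y).choose_spec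
  exact ⟨z, hz, h⟩

instance : ChartedSpace EE NN where
  atlas := range chartN
  chartAt y := chartN (idx y)
  mem_chart_source y := mem_src_idx y
  chart_mem_atlas y := ⟨idx y, rfl⟩

lemma chartAt_eq (y : NN) : chartAt EE y = chartN (idx y) := rfl

instance : IsManifold 𝓘(ℝ, EE) ∞ NN := by
  apply isManifold_of_contDiffOn
  rintro e e' ⟨n, rfl⟩ ⟨m, rfl⟩
  simp only [modelWithCornersSelf_coe, modelWithCornersSelf_coe_symm, Function.comp_id,
    Function.id_comp, preimage_id, range_id, inter_univ]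
  intro z hz
  simp only [OpenPartialHomeomorph.trans_source, OpenPartialHomeomorph.symm_source, chartN_target,
    chartN_symm_coe, chartN_source, mem_inter_iff, mem_preimage] at hz
  have hd := ((psi_mem_src_iff hz.1).1 hz.2).1
  apply ContDiffAt.contDiffWithinAt
  refine (contDiffAt_TT hd).congr_of_eventuallyEq ?_
  filter_upwards [isOpen_Om.mem_nhds hz.1] with w hw
  exact kap_psi hw

instance : T2Space NN := by
  refine ⟨fun y y' hne => ?_⟩
  obtain ⟨n, z, hz, rfl⟩ := exists_psi y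
  obtain ⟨m, w, hw, rfl⟩ := exists_psi y'
  have h1 : (z, w) ∈ {p : EE × EE | nf n p.1 = nf m p.2}ᶜ :=
    fun h => hne ((psi_eq_iff_nf hz hw).2 h)
  obtain ⟨U, V, hU, hV, hzU, hwV, hUV⟩ := isOpen_prod_iff.1 (isClosed_graph n m).isOpen_compl z w h1
  refine ⟨psi n '' (Om ∩ U), psi m '' (Om ∩ V),
    isOpen_psi_image n (isOpen_Om.inter hU) inter_subset_left,
    isOpen_psi_image m (isOpen_Om.inter hV) inter_subset_left,
    ⟨z, ⟨hz, hzU⟩, rfl⟩, ⟨w, ⟨hw, hwV⟩, rfl⟩, ?_⟩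
  rw [Set.disjoint_left]
  rintro _ ⟨z', ⟨hz', hzU'⟩, rfl⟩ ⟨w', ⟨hw', hwV'⟩, h⟩
  exact hUV (mk_mem_prod hzU' hwV') ((psi_eq_iff_nf hz' hw').1 h.symm)

instance : SecondCountableTopology NN := by
  have : ∀ n : ℤ, SecondCountableTopology (src n) :=
    fun n => (chartN n).secondCountableTopology_source
  refine TopologicalSpace.secondCountableTopology_of_countable_cover isOpen_src ?_
  exact eq_univ_of_forall fun y => mem_iUnion.2 ⟨_, mem_src_idx y⟩

instance : LocallyCompactSpace NN := ChartedSpace.locallyCompactSpace EE NN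

lemma chartN_mem_max (n : ℤ) : chartN n ∈ IsManifold.maximalAtlas 𝓘(ℝ, EE) ∞ NN :=
  IsManifold.subset_maximalAtlas ⟨n, rfl⟩

lemma contMDiffAt_kap {n : ℤ} {y : NN} (hy : y ∈ src n) :
    ContMDiffAt 𝓘(ℝ, EE) 𝓘(ℝ, EE) ∞ (kap n) y :=
  contMDiffAt_of_mem_maximalAtlas (chartN_mem_max n) hy

lemma contMDiffAt_psi {n : ℤ} {z : EE} (hz : z ∈ Om) :
    ContMDiffAt 𝓘(ℝ, EE) 𝓘(ℝ, EE) ∞ (psi n) z :=
  contMDiffAt_symm_of_mem_maximalAtlas (chartN_mem_max n) hz

lemma continuous_NN_iff {Z : Type*} [TopologicalSpace Z] {f : NN → Z} :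
    Continuous f ↔ ∀ n, ContinuousOn (f ∘ psi n) Om := by
  constructor
  · exact fun h n => h.comp_continuousOn (continuousOn_psi n)
  · intro h
    rw [continuous_def]
    intro U hU n
    exact (continuousOn_open_iff isOpen_Om).1 (h n) U hU

lemma continuous_s : Continuous NN.s := by
  rw [continuous_NN_iff]
  intro n
  refine ContinuousOn.congr (f := fun z : EE => mu ^ (-n) * z.1) (by fun_prop) ?_
  intro z hz
  exact psi_s hz

/-- The differential of the chart `n`. -/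
def dk (n : ℤ) (y : NN) : EE →L[ℝ] EE := mfderiv 𝓘(ℝ, EE) 𝓘(ℝ, EE) (kap n) y

/-- The differential of the inverse chart `n`. -/
def dp (n : ℤ) (z : EE) : EE →L[ℝ] EE := mfderiv 𝓘(ℝ, EE) 𝓘(ℝ, EE) (psi n) z

lemma dk_comp_dp {n m : ℤ} {z : EE} (hz : z ∈ Om) (hm : psi n z ∈ src m) :
    (dk m (psi n z)).comp (dp n z) = fderiv ℝ (kap m ∘ psi n) z := by
  rw [← mfderiv_eq_fderiv, mfderiv_comp z ((contMDiffAt_kap hm).mdifferentiableAt (by simp))
    ((contMDiffAt_psi hz).mdifferentiableAt (by simp))]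
  rfl

lemma dk_dp_self {n : ℤ} {z : EE} (hz : z ∈ Om) (u : EE) : dk n (psi n z) (dp n z u) = u := by
  have h := dk_comp_dp (n := n) hz (psi_mem_src hz)
  have h2 : kap n ∘ psi n =ᶠ[𝓝 z] id := by
    filter_upwards [isOpen_Om.mem_nhds hz] with w hw using kap_psi_self hw
  rw [h2.fderiv_eq, fderiv_id] at h
  exact congrArg (fun f : EE →L[ℝ] EE => f u) h

lemma dp_dk_self {n : ℤ} {y : NN} (hy : y ∈ src n) (u : EE) : dp n (kap n y) (dk n y u) = u := by
  have h := mfderiv_comp (I := 𝓘(ℝ, EE)) (I' := 𝓘(ℝ, EE)) (I'' := 𝓘(ℝ, EE)) y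
    ((contMDiffAt_psi (n := n) (kap_mem_Om hy)).mdifferentiableAt (by simp))
    ((contMDiffAt_kap hy).mdifferentiableAt (by simp))
  have h2 : psi n ∘ kap n =ᶠ[𝓝 y] id := by
    filter_upwards [(isOpen_src n).mem_nhds hy] with w hw using psi_kap hw
  rw [h2.mfderiv_eq, mfderiv_id] at h
  exact (congrArg (fun f : EE →L[ℝ] EE => f u) h).symm

lemma dp_bijective {n : ℤ} {z : EE} (hz : z ∈ Om) : Function.Bijective (dp n z) := by
  refine ⟨fun u v h => ?_, fun u => ⟨dk n (psi n z) u, ?_⟩⟩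
  · rw [← dk_dp_self (n := n) hz u, h, dk_dp_self hz]
  · have := dp_dk_self (psi_mem_src (n := n) hz) u
    rwa [kap_psi_self hz] at this

/-- Bounded pieces of the charts. -/
def Box (i : ℕ) : Set EE :=
  {z | |z.1| < i ∧ ‖z.2.1‖ < i ∧ ‖z.2.2‖ < i ∧ ‖z.2.1 ^ 2 * z.2.2‖ < 1 - 1 / (i + 1) ∧
    ‖z.2.1 ^ 3 * z.2.2‖ < 1 - 1 / (i + 1)}

lemma isOpen_Box (i : ℕ) : IsOpen (Box i) := by
  have h1 : IsOpen {z : EE | |z.1| < i} := isOpen_lt (by fun_prop) continuous_const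
  have h2 : IsOpen {z : EE | ‖z.2.1‖ < i} := isOpen_lt (by fun_prop) continuous_const
  have h3 : IsOpen {z : EE | ‖z.2.2‖ < i} := isOpen_lt (by fun_prop) continuous_const
  have h4 : IsOpen {z : EE | ‖z.2.1 ^ 2 * z.2.2‖ < 1 - 1 / (i + 1)} :=
    isOpen_lt (by fun_prop) continuous_const
  have h5 : IsOpen {z : EE | ‖z.2.1 ^ 3 * z.2.2‖ < 1 - 1 / (i + 1)} :=
    isOpen_lt (by fun_prop) continuous_const
  exact h1.inter (h2.inter (h3.inter (h4.inter h5)))

lemma Box_subset (i : ℕ) : Box i ⊆ Om := by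
  intro z hz
  have : (0 : ℝ) < 1 / (i + 1) := by positivity
  exact ⟨by linarith [hz.2.2.2.1], by linarith [hz.2.2.2.2]⟩

lemma Box_mono {i j : ℕ} (h : i ≤ j) : Box i ⊆ Box j := by
  intro z hz
  have h1 : (i : ℝ) ≤ j := by exact_mod_cast h
  have h2 : (1 : ℝ) / (j + 1) ≤ 1 / (i + 1) := by gcongr
  obtain ⟨a, b, c, d, e⟩ := hz
  exact ⟨by linarith, by linarith, by linarith, by linarith, by linarith⟩

lemma exists_Box {z : EE} (hz : z ∈ Om) : ∃ i, z ∈ Box i := by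
  obtain ⟨i1, h1⟩ := exists_nat_gt |z.1|
  obtain ⟨i2, h2⟩ := exists_nat_gt ‖z.2.1‖
  obtain ⟨i3, h3⟩ := exists_nat_gt ‖z.2.2‖
  obtain ⟨i4, h4⟩ := exists_nat_one_div_lt (sub_pos.2 hz.1)
  obtain ⟨i5, h5⟩ := exists_nat_one_div_lt (sub_pos.2 hz.2)
  refine ⟨i1 + i2 + i3 + i4 + i5, ?_⟩
  have p1 : (0 : ℝ) ≤ i1 := by positivity
  have p2 : (0 : ℝ) ≤ i2 := by positivity
  have p3 : (0 : ℝ) ≤ i3 := by positivity
  have p4 : (0 : ℝ) ≤ i4 := by positivity
  have p5 : (0 : ℝ) ≤ i5 := by positivity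
  have q4 : (1 : ℝ) / (((i1 + i2 + i3 + i4 + i5 : ℕ) : ℝ) + 1) ≤ 1 / (i4 + 1) := by
    gcongr; omega
  have q5 : (1 : ℝ) / (((i1 + i2 + i3 + i4 + i5 : ℕ) : ℝ) + 1) ≤ 1 / (i5 + 1) := by
    gcongr; omega
  refine ⟨?_, ?_, ?_, by linarith, by linarith⟩ <;> push_cast <;> linarith

/-- An exhaustion of `NN`. -/
def Exh (i : ℕ) : Set NN := ⋃ n ∈ Icc (-(i : ℤ)) i, psi n '' Box i

lemma isOpen_Exh (i : ℕ) : IsOpen (Exh i) :=
  isOpen_biUnion fun n _ => isOpen_psi_image n (isOpen_Box i) (Box_subset i)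

lemma Exh_mono {i j : ℕ} (h : i ≤ j) : Exh i ⊆ Exh j := by
  intro y hy
  simp only [Exh, mem_iUnion] at hy ⊢
  obtain ⟨n, hn, z, hz, rfl⟩ := hy
  exact ⟨n, ⟨by linarith [hn.1, (by exact_mod_cast h : (i : ℤ) ≤ j)],
    by linarith [hn.2, (by exact_mod_cast h : (i : ℤ) ≤ j)]⟩, z, Box_mono h hz, rfl⟩

lemma exists_Exh (y : NN) : ∃ i, y ∈ Exh i := by
  obtain ⟨n, z, hz, rfl⟩ := exists_psi y
  obtain ⟨i, hi⟩ := exists_Box hz
  refine ⟨i + n.natAbs, ?_⟩
  simp only [Exh, mem_iUnion]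
  exact ⟨n, ⟨by omega, by omega⟩, z, Box_mono (by omega) hi, rfl⟩

lemma exists_Exh_of_isCompact {K : Set NN} (hK : IsCompact K) : ∃ i, K ⊆ Exh i :=
  hK.elim_directed_cover Exh isOpen_Exh (fun y _ => mem_iUnion.2 (exists_Exh y))
    (Monotone.directed_le fun _ _ h => Exh_mono h)

lemma Box_index_bound (i : ℕ) : ∃ k₀ : ℕ, ∀ (n m : ℤ) (z w : EE), z ∈ Box i → w ∈ Box i →
    psi n z = psi m w → |m - n| ≤ k₀ := by
  obtain ⟨k₀, hk⟩ := exists_index_bound (R := i) (ρ := 1 - 1 / (i + 1))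
    (by have : (0 : ℝ) < 1 / (i + 1) := by positivity
        linarith)
  refine ⟨k₀, fun n m z w hz hw h => ?_⟩
  have h' := (psi_eq_iff_nf (Box_subset i hz) (Box_subset i hw)).1 h
  have e1 := hk n m z w hz.2.2.1.le hw.2.2.2.1.le hw.2.2.2.2.le h'
  have e2 := hk m n w z hw.2.2.1.le hz.2.2.2.1.le hz.2.2.2.2.le h'.symm
  rw [abs_le]; constructor <;> omega

lemma abs_s_le_of_mem_Exh {i : ℕ} {y : NN} (hy : y ∈ Exh i) :
    |y.s| ≤ Real.goldenRatio ^ i * i := by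
  simp only [Exh, mem_iUnion] at hy
  obtain ⟨n, hn, z, hz, rfl⟩ := hy
  rw [psi_s (Box_subset i hz), abs_mul, abs_zpow, abs_mu]
  apply mul_le_mul _ hz.1.le (abs_nonneg _) (by positivity)
  rw [← zpow_natCast]
  exact zpow_le_zpow_right₀ Real.one_lt_goldenRatio.le (by linarith [hn.1])

/-- Every point has a chart in which its last two coordinates lie in a fixed polydisc. -/
lemma exists_good_chart (y : NN) :
    ∃ n z, z ∈ Om ∧ psi n z = y ∧ ‖z.2.1‖ ≤ 1 / 2 ∧ ‖z.2.2‖ ≤ 2 := by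
  have good : ∀ z : EE, ‖z.2.1‖ ≤ 1 / 2 → ‖z.2.2‖ ≤ 2 → z ∈ Om := by
    intro z h1 h2
    have ha := norm_nonneg z.2.1
    have hb := norm_nonneg z.2.2
    constructor
    · rw [norm_mul, norm_pow]
      calc ‖z.2.1‖ ^ 2 * ‖z.2.2‖ ≤ (1 / 2) ^ 2 * 2 := by gcongr
        _ < 1 := by norm_num
    · rw [norm_mul, norm_pow]
      calc ‖z.2.1‖ ^ 3 * ‖z.2.2‖ ≤ (1 / 2) ^ 3 * 2 := by gcongr
        _ < 1 := by norm_num
  obtain ⟨n, z, hz, rfl⟩ := exists_psi y
  suffices H : ∃ m, z ∈ Dom (m - n) ∧ ‖sq n z.2.1 z.2.2 m‖ ≤ 1 / 2 ∧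
      ‖(sq n z.2.1 z.2.2 (m + 2))⁻¹‖ ≤ 2 by
    obtain ⟨m, hd, h1, h2⟩ := H
    have hO : TT n m z ∈ Om := good _ h1 h2
    exact ⟨m, TT n m z, hO, ((psi_eq_iff hz hO).2 ⟨hd, rfl⟩).symm, h1, h2⟩
  obtain ⟨s, a, b⟩ := z
  simp only [Dom, mem_ofPred_eq]
  have inv_le : ∀ c : ℂ, 1 / 2 < ‖c‖ → ‖c⁻¹‖ ≤ 2 := by
    intro c hc
    rw [norm_inv]
    exact inv_le_of_inv_le₀ (by norm_num) (by linarith)
  by_cases ha : a = 0
  · subst ha
    by_cases hb : ‖b‖ ≤ 2
    · exact ⟨n, by simp, by simp, by simpa using hb⟩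
    · push Not at hb
      have hb0 : b ≠ 0 := by rintro rfl; norm_num at hb
      refine ⟨n + 2, by simp [hb0], ?_, ?_⟩
      · rw [sq_add_two, norm_inv]
        exact inv_le_of_inv_le₀ (by norm_num) (by linarith)
      · rw [sq_zero_left n b (by omega)]; simp
  by_cases hb : b = 0
  · subst hb
    by_cases h : ‖a‖ ≤ 1 / 2
    · exact ⟨n, by simp, by simpa using h, by simp⟩
    · push Not at h
      refine ⟨n - 2, by simp [ha], ?_, ?_⟩
      · rw [sq_zero_right n a (by omega)]; simp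
      · rw [sub_add_cancel, sq_self]; exact inv_le a h
  -- torus points
  set ρ := max ‖a ^ 2 * b‖ ‖a ^ 3 * b‖ with hρ
  have hρ1 : ρ < 1 := max_lt hz.1 hz.2
  obtain ⟨k, hk⟩ := exists_pow_lt_of_lt_one (show (0 : ℝ) < 1 / 2 by norm_num) hρ1
  have hρ0 : 0 ≤ ρ := le_max_of_le_left (norm_nonneg _)
  have small : ∀ j ≤ n - 2 - k, ‖sq n a b j‖ ≤ 1 / 2 := by
    intro j hj
    obtain ⟨i, hi, hik⟩ : ∃ i : ℕ, j = n - 2 - i ∧ k ≤ i := ⟨(n - 2 - j).toNat, by omega, by omega⟩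
    rw [hi]
    exact (norm_sq_le hρ1.le (le_max_left _ _) (le_max_right _ _) i).trans
      ((pow_le_pow_of_le_one hρ0 hρ1.le (by omega)).trans hk.le)
  have big : ∃ j, 1 / 2 < ‖sq n a b j‖ := by
    by_contra hcon
    push Not at hcon
    have hrec := sq_rec (n := n) ha hb
    have key : ∀ i : ℕ, ∀ j, ‖sq n a b j‖ ≤ (1 / 2) ^ i := by
      intro i
      induction i with
      | zero => intro j; linarith [hcon j]
      | succ i ih =>
        intro j
        rw [hrec j, norm_mul, pow_succ]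
        exact mul_le_mul (ih _) (hcon _) (norm_nonneg _) (by positivity)
    obtain ⟨i, hi⟩ := exists_pow_lt_of_lt_one (norm_pos_iff.2 ha) (show (1 / 2 : ℝ) < 1 by norm_num)
    have := key i n
    rw [sq_self] at this
    linarith
  obtain ⟨j, hj, hmin⟩ := Int.exists_least_of_bdd (P := fun j => 1 / 2 < ‖sq n a b j‖)
    ⟨n - 2 - k, fun j hj => by
      by_contra hlt
      linarith [small j (by omega)]⟩ big
  refine ⟨j - 2, ⟨Or.inl ha, Or.inl hb⟩, ?_, ?_⟩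
  · by_contra hlt
    have := hmin (j - 2) (by linarith)
    omega
  · rw [sub_add_cancel]; exact inv_le _ hj

end Pool.Agent.P.MP_e09449_gt
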